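import Mathlib

/-!
# ALT (MP_643ad6_al), pack L1: words, lexicographic comparison, special Jordan systems

Words are lists.  `SG u v` (`u` strongly greater than `v`): after a common prefix `u` has the larger letter.
-/

set_option autoImplicit false

namespace Pool.Agent.H6.ALT

/-- `u` is strongly greater than `v`: common prefix, then a larger letter. -/
def SG (u v : List ℕ) : Prop :=
  ∃ (p : List ℕ) (a b : ℕ) (x y : List ℕ), u = p ++ a :: x ∧ v = p ++ b :: y ∧ b < a

/-- concatenation of `m` words -/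
def catW {α : Type*} {m : ℕ} (us : Fin m → List α) : List α := (List.ofFn us).flatten

/-- `m`-divisible: every nontrivial rearrangement of the factors gives a strongly smaller word -/
def MDiv {m : ℕ} (us : Fin m → List ℕ) : Prop :=
  (∀ i, us i ≠ []) ∧ ∀ σ : Equiv.Perm (Fin m), σ ≠ 1 → SG (catW us) (catW (us ∘ σ))

/-- the power `v^p` of a word -/
def powW {α : Type*} (p : ℕ) (v : List α) : List α := (List.replicate p v).flatten

theorem SG.trans {u v w : List ℕ} (h : SG u v) (h' : SG v w) : SG u w := by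
  obtain ⟨p, a, b, x, y, rfl, rfl, hab⟩ := h
  obtain ⟨q, c, d, z, t, h1, rfl, hcd⟩ := h'
  rcases List.append_eq_append_iff.1 h1 with ⟨r, rfl, h2⟩ | ⟨r, rfl, h2⟩
  · cases r with
    | nil =>
      simp only [List.nil_append, List.cons.injEq] at h2
      obtain ⟨rfl, rfl⟩ := h2
      exact ⟨p, a, d, x, t, rfl, by simp, hcd.trans hab⟩
    | cons e r =>
      simp only [List.cons_append, List.cons.injEq] at h2
      obtain ⟨rfl, rfl⟩ := h2
      exact ⟨p, a, b, x, r ++ d :: t, rfl, by simp, hab⟩
  · cases r with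
    | nil =>
      simp only [List.nil_append, List.cons.injEq] at h2
      obtain ⟨rfl, rfl⟩ := h2
      exact ⟨q, a, d, x, t, by simp, by simp, hcd.trans hab⟩
    | cons e r =>
      simp only [List.cons_append, List.cons.injEq] at h2
      obtain ⟨rfl, rfl⟩ := h2
      exact ⟨q, c, d, r ++ a :: x, t, by simp, rfl, hcd⟩

theorem SG.append_left {u v : List ℕ} (p : List ℕ) (h : SG u v) : SG (p ++ u) (p ++ v) := by
  obtain ⟨q, a, b, x, y, rfl, rfl, hab⟩ := h
  exact ⟨p ++ q, a, b, x, y, by simp, by simp, hab⟩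

theorem SG.append_right {u v : List ℕ} (x y : List ℕ) (h : SG u v) : SG (u ++ x) (v ++ y) := by
  obtain ⟨q, a, b, x', y', rfl, rfl, hab⟩ := h
  exact ⟨q, a, b, x' ++ x, y' ++ y, by simp, by simp, hab⟩

theorem SG.irrefl (u : List ℕ) : ¬ SG u u := by
  rintro ⟨p, a, b, x, y, h1, h2, hab⟩
  rw [h1] at h2
  have h3 := List.append_cancel_left h2
  rw [List.cons.injEq] at h3
  omega

/-- two different words of the same length are comparable -/
theorem SG.total {u v : List ℕ} (hl : u.length = v.length) (hne : u ≠ v) : SG u v ∨ SG v u := by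
  induction u generalizing v with
  | nil =>
    cases v with
    | nil => exact absurd rfl hne
    | cons b v => simp at hl
  | cons a u ih =>
    cases v with
    | nil => simp at hl
    | cons b v =>
      rcases lt_trichotomy a b with h | h | h
      · exact Or.inr ⟨[], b, a, v, u, rfl, rfl, h⟩
      · subst h
        have hl' : u.length = v.length := by simpa using hl
        have hne' : u ≠ v := fun h => hne (by rw [h])
        rcases ih hl' hne' with h | h
        · exact Or.inl (by simpa using SG.append_left [a] h)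
        · exact Or.inr (by simpa using SG.append_left [a] h)
      · exact Or.inl ⟨[], a, b, u, v, rfl, rfl, h⟩

/-! ### special Jordan systems -/

/-- `J` is a subspace of the associative algebra `E` closed under the Jordan operations, `I` an ideal of `J`
consisting of nilpotent elements. -/
structure JSys (R E : Type*) [CommRing R] [Ring E] [Algebra R E] (J I : Submodule R E) : Prop where
  sq : ∀ a ∈ J, a * a ∈ J
  jord : ∀ a ∈ J, ∀ b ∈ J, a * b + b * a ∈ J
  trip : ∀ a ∈ J, ∀ b ∈ J, ∀ c ∈ J, a * b * c + c * b * a ∈ J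
  uop : ∀ a ∈ J, ∀ b ∈ J, a * b * a ∈ J
  le : I ≤ J
  isq : ∀ a ∈ I, a * a ∈ I
  ijord : ∀ a ∈ I, ∀ b ∈ J, a * b + b * a ∈ I
  itrip : ∀ a ∈ I, ∀ b ∈ J, ∀ c ∈ J, a * b * c + c * b * a ∈ I
  itrip' : ∀ a ∈ J, ∀ b ∈ I, ∀ c ∈ J, a * b * c + c * b * a ∈ I
  iuop : ∀ a ∈ I, ∀ b ∈ J, a * b * a ∈ I
  iuop' : ∀ a ∈ J, ∀ b ∈ I, a * b * a ∈ I
  nil : ∀ a ∈ I, IsNilpotent a

/-- multilinear polynomial identity of degree `m` on `J`, solved for the monomial `j_0 j_1 ... j_(m-1)` -/
def PId (R : Type*) {E : Type*} [CommRing R] [Ring E] [Algebra R E] (J : Submodule R E) (m : ℕ) : Prop :=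
  ∀ j : Fin m → E, (∀ i, j i ∈ J) → (List.ofFn j).prod ∈
    Submodule.span R {x | ∃ σ : Equiv.Perm (Fin m), σ ≠ 1 ∧ x = (List.ofFn (j ∘ σ)).prod}

/-- evaluation of a word -/
def evw {ι E : Type*} [Monoid E] (f : ι → E) (w : List ι) : E := (w.map f).prod

theorem evw_nil {ι E : Type*} [Monoid E] (f : ι → E) : evw f [] = 1 := rfl

theorem evw_cons {ι E : Type*} [Monoid E] (f : ι → E) (a : ι) (w : List ι) :
    evw f (a :: w) = f a * evw f w := by simp [evw]

theorem evw_append {ι E : Type*} [Monoid E] (f : ι → E) (u v : List ι) :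
    evw f (u ++ v) = evw f u * evw f v := by simp [evw]

end Pool.Agent.H6.ALT
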