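import Pool.Agent.H6.ALT.LHv

/-!
# ALT L1 pack, LGath: ordinary words of large degree

Work modulo `W d 1` (`d` the degree of the word; `≡`). `G1`: for ordinary letters `a, b` the commutator `d(a,b) = [ev a, ev b]` commutes with the values of
all ordinary letters; `G2`: `d(a,b)^2 ≡ 0`.
GATHER LEMMA (`gather`): let `c` be an ordinary letter, `n` the number of ordinary letters, `k ≥ 0`, `w` an ordinary word in which `c` occurs
`≥ k + n` times. Then `val w ≡` a combination of `val (g ++ c^k)`, `g` ordinary of the right degree. Proof: by induction on `w` (appending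
letters on the right) `val w ≡` a combination of `D_A · val g · (ev c)^j`, `A` a set of ordinary letters, `D_A = ∏_{a ∈ A} d(c,a)` (in some fixed order;
the factors commute modulo `W`), `j + |A| =` number of `c` in `w`, total degree `= dgw w`: appending `c`: `j + 1`. Appending `a ≠ c`:
`(ev c)^j ev a ≡ ev a (ev c)^j + j d(c,a) (ev c)^(j-1)`, and `d(c,a)` is moved to `D_A`: if `a ∈ A` the term is `≡ 0`. At the end expand `D_A` into words.
`OF`: let `w` be ordinary of large degree; some letter `c` occurs at least `dgw w/(Q n)` times; `gather` gives `g ++ c^(2k)`; by `G3`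
`(ev c)^2 ≡` combination of words in pure letters of degree `2 dg c`, so `c^(2k) ≡` words in pure letters of degree (= length) `2 k dg c`, in
which some pure letter occurs at least `2 k dg c/n` times; `gather` again. (If `c` is pure itself `G3` holds with the word `c c`.)
-/

set_option autoImplicit false

namespace Pool.Agent.H6.ALT

namespace LSys

variable {R E : Type*} [CommRing R] [Ring E] [Algebra R E] {J I : Submodule R E} {ι : Type}
  (S : LSys R J I ι)

/-- commutator of two letters -/
def LGath_d (a b : ι) : E := S.ev a * S.ev b - S.ev b * S.ev a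

theorem LGath_mul01 {d e : ℕ} {x y : E} (hx : x ∈ S.W d 0) (hy : y ∈ S.W e 1) :
    x * y ∈ S.W (d + e) 1 := by
  have h := S.W_mul hx hy
  rwa [Nat.zero_add] at h

theorem LGath_mul10 {d e : ℕ} {x y : E} (hx : x ∈ S.W d 1) (hy : y ∈ S.W e 0) :
    x * y ∈ S.W (d + e) 1 := by
  have h := S.W_mul hx hy
  rwa [Nat.add_zero] at h

theorem LGath_mul00 {d e : ℕ} {x y : E} (hx : x ∈ S.W d 0) (hy : y ∈ S.W e 0) :
    x * y ∈ S.W (d + e) 0 := by
  have h := S.W_mul hx hy
  rwa [Nat.add_zero] at h

theorem LGath_sup_mem {s : Set E} {A B : Submodule R E} {x : E} (hx : x ∈ Submodule.span R s ⊔ A)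
    (h1 : ∀ y ∈ s, y ∈ B) (h2 : A ≤ B) : x ∈ B := by
  have h : Submodule.span R s ⊔ A ≤ B := sup_le (Submodule.span_le.2 h1) h2
  exact h hx

theorem LGath_cast {d e L : ℕ} {x : E} (hx : x ∈ S.W d L) (h : d = e) : x ∈ S.W e L := h ▸ hx

theorem LGath_val0 (w : List ι) : S.val w ∈ S.W (S.dgw w) 0 :=
  S.W_anti (Nat.zero_le _) (S.val_mem_W w)

theorem LGath_ev0 (a : ι) : S.ev a ∈ S.W (S.dg a) 0 := by
  have h := S.LGath_val0 [a]
  simpa [val, evw, dgw] using h

theorem LGath_one0 : (1 : E) ∈ S.W 0 0 := by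
  have h := S.LGath_val0 []
  simpa [val, evw, dgw] using h

theorem LGath_pow0 (a : ι) (j : ℕ) : S.ev a ^ j ∈ S.W (j * S.dg a) 0 := by
  induction j with
  | zero => simpa using S.LGath_one0
  | succ j ih =>
    rw [pow_succ]
    exact S.LGath_cast (S.LGath_mul00 ih (S.LGath_ev0 a)) (by ring)

theorem LGath_d0 (a b : ι) : S.LGath_d a b ∈ S.W (S.dg a + S.dg b) 0 := by
  unfold LGath_d
  refine Submodule.sub_mem _ (S.LGath_mul00 (S.LGath_ev0 a) (S.LGath_ev0 b)) ?_
  exact S.LGath_cast (S.LGath_mul00 (S.LGath_ev0 b) (S.LGath_ev0 a)) (Nat.add_comm _ _)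

/-- the statement `G1` -/
def LGath_G1 : Prop := ∀ a b c : ι, S.tc a = 0 → S.tc b = 0 → S.tc c = 0 →
      (S.ev a * S.ev b - S.ev b * S.ev a) * S.ev c - S.ev c * (S.ev a * S.ev b - S.ev b * S.ev a) ∈
        S.W (S.dg a + S.dg b + S.dg c) 1

/-- the statement `G2` -/
def LGath_G2 : Prop := ∀ a b : ι, S.tc a = 0 → S.tc b = 0 →
      (S.ev a * S.ev b - S.ev b * S.ev a) * (S.ev a * S.ev b - S.ev b * S.ev a) ∈
        S.W (2 * (S.dg a + S.dg b)) 1

theorem LGath_tcw_zero {w : List ι} : S.tcw w = 0 ↔ S.Ord w := by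
  unfold tcw Ord
  rw [List.sum_eq_zero_iff]
  simp

theorem LGath_comm_word (G1 : S.LGath_G1) {a b : ι} (ha : S.tc a = 0) (hb : S.tc b = 0)
    (g : List ι) (hg : S.Ord g) :
    S.LGath_d a b * S.val g - S.val g * S.LGath_d a b ∈ S.W (S.dg a + S.dg b + S.dgw g) 1 := by
  induction g with
  | nil => simp [val, evw]
  | cons c g ih =>
    have hc : S.tc c = 0 := hg c (by simp)
    have hg' : S.Ord g := fun i hi => hg i (by simp [hi])
    have h1 := ih hg'
    have h2 := G1 a b c ha hb hc
    change S.LGath_d a b * S.ev c - S.ev c * S.LGath_d a b ∈ _ at h2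
    have h3 := S.LGath_mul10 h2 (S.LGath_val0 g)
    have h4 := S.LGath_mul01 (S.LGath_ev0 c) h1
    have e3 : S.dg a + S.dg b + S.dg c + S.dgw g = S.dg a + S.dg b + S.dgw (c :: g) := by
      simp [dgw]; ring
    have e4 : S.dg c + (S.dg a + S.dg b + S.dgw g) = S.dg a + S.dg b + S.dgw (c :: g) := by
      simp [dgw]; ring
    have h5 := Submodule.add_mem _ (S.LGath_cast h3 e3) (S.LGath_cast h4 e4)
    convert h5 using 1
    rw [S.val_cons]
    noncomm_ring

theorem LGath_comm (G1 : S.LGath_G1) {a b : ι} (ha : S.tc a = 0) (hb : S.tc b = 0) {e : ℕ} {x : E}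
    (hx : x ∈ S.W e 0) :
    S.LGath_d a b * x - x * S.LGath_d a b ∈ S.W (S.dg a + S.dg b + e) 1 := by
  unfold W at hx
  induction hx using Submodule.span_induction with
  | mem x hx =>
    obtain ⟨w, hw, -, rfl⟩ := hx
    by_cases h : S.tcw w = 0
    · rw [← hw]
      exact S.LGath_comm_word G1 ha hb w (S.LGath_tcw_zero.1 h)
    · have h1 : S.val w ∈ S.W e 1 := by
        rw [← hw]
        exact S.W_anti (Nat.one_le_iff_ne_zero.2 h) (S.val_mem_W w)
      refine Submodule.sub_mem _ (S.LGath_mul01 (S.LGath_d0 a b) h1) ?_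
      exact S.LGath_cast (S.LGath_mul10 h1 (S.LGath_d0 a b)) (Nat.add_comm _ _)
  | zero => simp
  | add x y _ _ hx hy =>
    have h := Submodule.add_mem _ hx hy
    convert h using 1
    noncomm_ring
  | smul r x _ hx =>
    have h := Submodule.smul_mem _ r hx
    convert h using 1
    rw [smul_sub, mul_smul_comm, smul_mul_assoc]

theorem LGath_pow_comm (G1 : S.LGath_G1) {a c : ι} (ha : S.tc a = 0) (hc : S.tc c = 0) (j : ℕ) :
    S.ev c ^ j * S.ev a - (S.ev a * S.ev c ^ j + (j : E) * (S.LGath_d c a * S.ev c ^ (j - 1))) ∈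
      S.W (j * S.dg c + S.dg a) 1 := by
  induction j with
  | zero => simp
  | succ j ih =>
    have h1 := S.LGath_mul01 (S.LGath_ev0 c) ih
    -- error term from moving `c` past `d`
    have h2 := S.LGath_comm G1 hc ha (S.LGath_ev0 c)
    have h3 := S.LGath_mul10 h2 (S.LGath_pow0 c (j - 1))
    rcases Nat.eq_zero_or_pos j with hj | hj
    · subst hj
      simp only [pow_zero, one_mul, mul_one, zero_add, pow_one, Nat.cast_one, Nat.sub_self]
      have : S.ev c * S.ev a - (S.ev a * S.ev c + S.LGath_d c a) = 0 := by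
        unfold LGath_d; abel
      rw [this]
      exact Submodule.zero_mem _
    · obtain ⟨k, rfl⟩ : ∃ k, j = k + 1 := ⟨j - 1, by omega⟩
      simp only [Nat.add_sub_cancel] at h1 h3 ⊢
      have h4 : ((k + 1 : ℕ) : E) * ((S.LGath_d c a * S.ev c - S.ev c * S.LGath_d c a) * S.ev c ^ k) ∈
          S.W ((k + 1 + 1) * S.dg c + S.dg a) 1 := by
        rw [← nsmul_eq_mul]
        refine Submodule.smul_of_tower_mem _ _ (S.LGath_cast h3 ?_)
        ring
      have h5 := Submodule.sub_mem _ (S.LGath_cast h1 (show S.dg c + ((k + 1) * S.dg c + S.dg a) =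
        (k + 1 + 1) * S.dg c + S.dg a by ring)) h4
      convert h5 using 1
      have hcomm : S.ev c * ((k + 1 : ℕ) : E) = ((k + 1 : ℕ) : E) * S.ev c :=
        ((Nat.cast_commute (k + 1) (S.ev c)).eq).symm
      have e1 : S.ev c * (S.ev c ^ (k + 1) * S.ev a -
          (S.ev a * S.ev c ^ (k + 1) + ((k + 1 : ℕ) : E) * (S.LGath_d c a * S.ev c ^ k))) =
          S.ev c ^ (k + 1 + 1) * S.ev a - S.ev c * S.ev a * S.ev c ^ (k + 1) -
            ((k + 1 : ℕ) : E) * (S.ev c * S.LGath_d c a * S.ev c ^ k) := by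
        rw [mul_sub, mul_add, ← mul_assoc (S.ev c) ((k + 1 : ℕ) : E), hcomm, pow_succ' _ (k + 1)]
        simp only [mul_assoc]
        abel
      rw [e1]
      have e2 : S.ev c * S.ev a = S.ev a * S.ev c + S.LGath_d c a := by unfold LGath_d; abel
      rw [e2]
      have e3 : ((k + 1 + 1 : ℕ) : E) = ((k + 1 : ℕ) : E) + 1 := Nat.cast_succ (k + 1)
      rw [e3]
      rw [sub_mul, mul_sub, add_mul, add_mul, one_mul]
      rw [mul_assoc (S.LGath_d c a) (S.ev c), ← pow_succ' (S.ev c) k]
      rw [mul_assoc (S.ev a) (S.ev c), ← pow_succ' (S.ev c) (k + 1)]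
      abel

/-- product of commutators -/
def LGath_D (c : ι) (l : List ι) : E := (l.map (S.LGath_d c)).prod

/-- degree of the product of commutators -/
def LGath_e (c : ι) (l : List ι) : ℕ := (l.map (fun a => S.dg c + S.dg a)).sum

theorem LGath_D0 (c : ι) (l : List ι) : S.LGath_D c l ∈ S.W (S.LGath_e c l) 0 := by
  induction l with
  | nil => simpa [LGath_D, LGath_e] using S.LGath_one0
  | cons a l ih =>
    have h := S.LGath_mul00 (S.LGath_d0 c a) ih
    simpa [LGath_D, LGath_e] using h

theorem LGath_D_sq (G1 : S.LGath_G1) (G2 : S.LGath_G2) {c : ι} (hc : S.tc c = 0) (l : List ι)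
    (hl : ∀ a ∈ l, S.tc a = 0) {a : ι} (ha : a ∈ l) :
    S.LGath_D c l * S.LGath_d c a ∈ S.W (S.LGath_e c l + (S.dg c + S.dg a)) 1 := by
  induction l with
  | nil => simp at ha
  | cons b l ih =>
    have hD : S.LGath_D c (b :: l) = S.LGath_d c b * S.LGath_D c l := by simp [LGath_D]
    have he : S.LGath_e c (b :: l) = (S.dg c + S.dg b) + S.LGath_e c l := by simp [LGath_e]
    have ha0 : S.tc a = 0 := hl a ha
    by_cases hab : a ∈ l
    · have h1 := ih (fun x hx => hl x (by simp [hx])) hab
      have h2 := S.LGath_mul01 (S.LGath_d0 c b) h1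
      rw [hD, he, mul_assoc]
      exact S.LGath_cast h2 (by ring)
    · have hab' : a = b := by
        rcases List.mem_cons.1 ha with h | h
        · exact h
        · exact absurd h hab
      subst hab'
      have h1 := S.LGath_comm G1 hc ha0 (S.LGath_D0 c l)
      have h2 := S.LGath_mul01 (S.LGath_d0 c a) h1
      have h3 := G2 c a hc ha0
      change S.LGath_d c a * S.LGath_d c a ∈ _ at h3
      have h4 := S.LGath_mul10 h3 (S.LGath_D0 c l)
      rw [hD, he]
      have h5 := Submodule.sub_mem _ (S.LGath_cast h4 (show _ = (S.dg c + S.dg a) + S.LGath_e c l +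
        (S.dg c + S.dg a) by ring)) (S.LGath_cast h2 (show _ = (S.dg c + S.dg a) + S.LGath_e c l +
        (S.dg c + S.dg a) by ring))
      convert h5 using 1
      noncomm_ring

/-- the spanning set of the gather lemma -/
def LGath_set (c : ι) (d N : ℕ) : Set E := {x | ∃ (l : List ι) (y : E) (e j : ℕ), l.Nodup ∧
  (∀ a ∈ l, S.tc a = 0) ∧ y ∈ S.W e 0 ∧ l.length + j = N ∧
  S.LGath_e c l + e + j * S.dg c = d ∧ x = S.LGath_D c l * y * S.ev c ^ j}

theorem LGath_step_self (c : ι) {d N : ℕ} {x : E} (hx : x ∈ S.LGath_set c d N) :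
    x * S.ev c ∈ S.LGath_set c (d + S.dg c) (N + 1) := by
  obtain ⟨l, y, e, j, h1, h2, h3, h4, h5, rfl⟩ := hx
  refine ⟨l, y, e, j + 1, h1, h2, h3, by omega, ?_, ?_⟩
  · rw [← h5]; ring
  · rw [pow_succ]
    simp only [mul_assoc]

theorem LGath_step_ne (G1 : S.LGath_G1) (G2 : S.LGath_G2) {c : ι} (hc : S.tc c = 0) {a : ι}
    (ha : S.tc a = 0) {d N : ℕ} {x : E} (hx : x ∈ S.LGath_set c d N) :
    x * S.ev a ∈ Submodule.span R (S.LGath_set c (d + S.dg a) N) ⊔ S.W (d + S.dg a) 1 := by
  obtain ⟨l, y, e, j, h1, h2, h3, h4, h5, rfl⟩ := hx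
  set Y : Submodule R E := Submodule.span R (S.LGath_set c (d + S.dg a) N) ⊔ S.W (d + S.dg a) 1 with hY
  have hsp : ∀ z ∈ S.LGath_set c (d + S.dg a) N, z ∈ Y := fun z hz =>
    Submodule.mem_sup_left (Submodule.subset_span hz)
  have hW : ∀ z ∈ S.W (d + S.dg a) 1, z ∈ Y := fun z hz => Submodule.mem_sup_right hz
  have hDy : S.LGath_D c l * y ∈ S.W (S.LGath_e c l + e) 0 := S.LGath_mul00 (S.LGath_D0 c l) h3
  -- the three terms
  have t1 : S.LGath_D c l * (y * S.ev a) * S.ev c ^ j ∈ Y := by
    apply hsp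
    refine ⟨l, y * S.ev a, e + S.dg a, j, h1, h2, S.LGath_mul00 h3 (S.LGath_ev0 a), h4, ?_, rfl⟩
    rw [← h5]; ring
  have t2 : S.LGath_D c l * y * (S.ev c ^ j * S.ev a -
      (S.ev a * S.ev c ^ j + (j : E) * (S.LGath_d c a * S.ev c ^ (j - 1)))) ∈ Y := by
    apply hW
    refine S.LGath_cast (S.LGath_mul01 hDy (S.LGath_pow_comm G1 ha hc j)) ?_
    rw [← h5]; ring
  have t3 : (j : E) * (S.LGath_D c l * y * (S.LGath_d c a * S.ev c ^ (j - 1))) ∈ Y := by
    rcases Nat.eq_zero_or_pos j with hj | hj
    · subst hj; simp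
    obtain ⟨k, rfl⟩ : ∃ k, j = k + 1 := ⟨j - 1, by omega⟩
    rw [← nsmul_eq_mul]
    refine Submodule.smul_of_tower_mem _ _ ?_
    simp only [Nat.add_sub_cancel]
    -- move `d` to the left of `y`
    have u1 := S.LGath_comm G1 hc ha h3
    have u2 := S.LGath_mul10 (S.LGath_mul01 (S.LGath_D0 c l) u1) (S.LGath_pow0 c k)
    have u3 : S.LGath_D c l * (S.LGath_d c a * y - y * S.LGath_d c a) * S.ev c ^ k ∈ Y := by
      apply hW
      refine S.LGath_cast u2 ?_
      rw [← h5]; ring
    have u4 : S.LGath_D c l * S.LGath_d c a * y * S.ev c ^ k ∈ Y := by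
      by_cases hal : a ∈ l
      · have v1 := S.LGath_D_sq G1 G2 hc l h2 hal
        have v2 := S.LGath_mul10 (S.LGath_mul10 v1 h3) (S.LGath_pow0 c k)
        apply hW
        refine S.LGath_cast v2 ?_
        rw [← h5]; ring
      · apply hsp
        refine ⟨l ++ [a], y, e, k, ?_, ?_, h3, ?_, ?_, ?_⟩
        · rw [List.nodup_append]
          refine ⟨h1, by simp, ?_⟩
          intro x hx z hz
          rw [List.mem_singleton] at hz
          subst hz
          rintro rfl
          exact hal hx
        · intro b hb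
          rcases List.mem_append.1 hb with hb | hb
          · exact h2 b hb
          · rw [List.mem_singleton] at hb; rw [hb]; exact ha
        · simp only [List.length_append, List.length_singleton]; omega
        · rw [← h5]; simp [LGath_e]; ring
        · simp [LGath_D, mul_assoc]
    have u5 := Submodule.sub_mem _ u4 u3
    convert u5 using 1
    noncomm_ring
  have hcomm : ∀ z : E, z * (j : E) = (j : E) * z := fun z => ((Nat.cast_commute j z).eq).symm
  have h6 := Submodule.add_mem _ (Submodule.add_mem _ t1 t2) t3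
  convert h6 using 1
  rw [mul_sub, mul_add, ← mul_assoc (S.LGath_D c l * y) (j : E), hcomm]
  simp only [mul_assoc]
  abel

theorem LGath_induct [DecidableEq ι] (G1 : S.LGath_G1) (G2 : S.LGath_G2) {c : ι} (hc : S.tc c = 0)
    (w : List ι) (hw : S.Ord w) :
    S.val w ∈ Submodule.span R (S.LGath_set c (S.dgw w) (w.count c)) ⊔ S.W (S.dgw w) 1 := by
  induction w using List.reverseRecOn with
  | nil =>
    apply Submodule.mem_sup_left
    apply Submodule.subset_span
    refine ⟨[], 1, 0, 0, by simp, by simp, S.LGath_one0, by simp, by simp [LGath_e, dgw], ?_⟩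
    simp [LGath_D, val, evw]
  | append_singleton w a ih =>
    have ha : S.tc a = 0 := hw a (by simp)
    have hw' : S.Ord w := fun i hi => hw i (by simp [hi])
    have h1 := ih hw'
    have hd : S.dgw (w ++ [a]) = S.dgw w + S.dg a := by simp [dgw]
    have hv : S.val (w ++ [a]) = S.val w * S.ev a := by rw [S.val_append]; simp [val, evw]
    have key : ∀ x ∈ Submodule.span R (S.LGath_set c (S.dgw w) (w.count c)) ⊔ S.W (S.dgw w) 1,
        x * S.ev a ∈ Submodule.span R (S.LGath_set c (S.dgw (w ++ [a])) ((w ++ [a]).count c)) ⊔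
          S.W (S.dgw (w ++ [a])) 1 := by
      intro x hx
      obtain ⟨y, hy, z, hz, rfl⟩ := Submodule.mem_sup.1 hx
      rw [add_mul]
      refine Submodule.add_mem _ ?_ ?_
      · induction hy using Submodule.span_induction with
        | mem y hy =>
          by_cases hac : a = c
          · subst hac
            apply Submodule.mem_sup_left
            apply Submodule.subset_span
            have hcount : (w ++ [a]).count a = w.count a + 1 := by simp
            rw [hd, hcount]
            exact S.LGath_step_self a hy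
          · have hcount : (w ++ [a]).count c = w.count c := by
              rw [List.count_append, List.count_eq_zero_of_not_mem (a := c) (l := [a])
                (by simpa using fun h => hac h.symm), Nat.add_zero]
            rw [hd, hcount]
            exact S.LGath_step_ne G1 G2 hc ha hy
        | zero => simp
        | add y z _ _ hy hz =>
          rw [add_mul]
          exact Submodule.add_mem _ (hy (Submodule.add_mem _ (Submodule.mem_sup_left (by assumption))
            (Submodule.mem_sup_right (by assumption)))) (hz (Submodule.add_mem _ (Submodule.mem_sup_left (by assumption))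
            (Submodule.mem_sup_right (by assumption))))
        | smul r y _ hy =>
          rw [smul_mul_assoc]
          exact Submodule.smul_mem _ _ (hy (Submodule.add_mem _ (Submodule.mem_sup_left (by assumption))
            (Submodule.mem_sup_right (by assumption))))
      · apply Submodule.mem_sup_right
        rw [hd]
        exact S.LGath_mul10 hz (S.LGath_ev0 a)
    rw [hv]
    exact key _ h1

theorem LGath_split {d : ℕ} {x : E} (hx : x ∈ S.W d 0) :
    x ∈ Submodule.span R {x | ∃ w : List ι, S.Ord w ∧ S.dgw w = d ∧ x = S.val w} ⊔ S.W d 1 := by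
  unfold W at hx
  refine Submodule.span_le.2 ?_ hx
  rintro x ⟨w, hw, -, rfl⟩
  by_cases h : S.tcw w = 0
  · exact Submodule.mem_sup_left (Submodule.subset_span ⟨w, S.LGath_tcw_zero.1 h, hw, rfl⟩)
  · apply Submodule.mem_sup_right
    rw [← hw]
    exact S.W_anti (Nat.one_le_iff_ne_zero.2 h) (S.val_mem_W w)

theorem LGath_gather [DecidableEq ι] [Fintype ι] (G1 : S.LGath_G1) (G2 : S.LGath_G2) {c : ι}
    (hc : S.tc c = 0) (w : List ι) (hw : S.Ord w) (k : ℕ) (hk : k + Fintype.card ι ≤ w.count c) :
    S.val w ∈ Submodule.span R {x | ∃ g : List ι, S.Ord g ∧ S.dgw g + k * S.dg c = S.dgw w ∧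
      x = S.val (g ++ List.replicate k c)} ⊔ S.W (S.dgw w) 1 := by
  have h := S.LGath_induct G1 G2 hc w hw
  refine LGath_sup_mem h ?_ le_sup_right
  rintro x ⟨l, y, e, j, h1, h2, h3, h4, h5, rfl⟩
  have hlen : l.length ≤ Fintype.card ι := h1.length_le_card
  obtain ⟨r, rfl⟩ : ∃ r, j = r + k := ⟨j - k, by omega⟩
  have h6 : S.LGath_D c l * y * S.ev c ^ r ∈ S.W (S.LGath_e c l + e + r * S.dg c) 0 :=
    S.LGath_mul00 (S.LGath_mul00 (S.LGath_D0 c l) h3) (S.LGath_pow0 c r)
  have h7 := S.LGath_split h6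
  rw [pow_add, ← mul_assoc]
  have h8 : S.val (List.replicate k c) = S.ev c ^ k := by
    simp [val, evw]
  obtain ⟨u, hu, v, hv, huv⟩ := Submodule.mem_sup.1 h7
  rw [← huv, add_mul]
  refine Submodule.add_mem _ ?_ ?_
  · have : ∀ u ∈ Submodule.span R {x | ∃ w : List ι, S.Ord w ∧
        S.dgw w = S.LGath_e c l + e + r * S.dg c ∧ x = S.val w}, u * S.ev c ^ k ∈
        (Submodule.span R {x | ∃ g : List ι, S.Ord g ∧ S.dgw g + k * S.dg c = S.dgw w ∧
      x = S.val (g ++ List.replicate k c)} : Submodule R E) := by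
      intro u hu
      induction hu using Submodule.span_induction with
      | mem u hu =>
        obtain ⟨g, hg1, hg2, rfl⟩ := hu
        apply Submodule.subset_span
        refine ⟨g, hg1, ?_, ?_⟩
        · rw [hg2, ← h5]; ring
        · rw [S.val_append, h8]
      | zero => simp
      | add u v _ _ hu hv => rw [add_mul]; exact Submodule.add_mem _ hu hv
      | smul r u _ hu => rw [smul_mul_assoc]; exact Submodule.smul_mem _ _ hu
    exact Submodule.mem_sup_left (this u hu)
  · apply Submodule.mem_sup_right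
    refine S.LGath_cast (S.LGath_mul10 hv (S.LGath_pow0 c k)) ?_
    rw [← h5]; ring

/-- span of the values of pure words of degree `d` -/
def LGath_P (d : ℕ) : Submodule R E :=
  Submodule.span R {x | ∃ w : List ι, (∀ i ∈ w, S.Pure i) ∧ S.dgw w = d ∧ x = S.val w}

theorem LGath_P_le (d : ℕ) : S.LGath_P d ≤ S.W d 0 := by
  refine Submodule.span_le.2 ?_
  rintro x ⟨w, -, hw, rfl⟩
  rw [← hw]
  exact S.LGath_val0 w

theorem LGath_P_mul {d e : ℕ} {x y : E} (hx : x ∈ S.LGath_P d) (hy : y ∈ S.LGath_P e) :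
    x * y ∈ S.LGath_P (d + e) := by
  have h := Submodule.mul_mem_mul hx hy
  unfold LGath_P at h
  rw [Submodule.span_mul_span] at h
  refine Submodule.span_le.2 ?_ h
  rintro z ⟨x, ⟨w, hw1, hw2, rfl⟩, y, ⟨v, hv1, hv2, rfl⟩, rfl⟩
  apply Submodule.subset_span
  refine ⟨w ++ v, ?_, ?_, ?_⟩
  · intro i hi
    rcases List.mem_append.1 hi with h | h
    · exact hw1 i h
    · exact hv1 i h
  · rw [S.dgw_append, hw2, hv2]
  · exact (S.val_append w v).symm

theorem LGath_pure_pow {c : ι} (h : S.ev c * S.ev c ∈ S.LGath_P (2 * S.dg c) ⊔ S.W (2 * S.dg c) 1)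
    (k : ℕ) : S.ev c ^ (2 * k) ∈ S.LGath_P (k * (2 * S.dg c)) ⊔ S.W (k * (2 * S.dg c)) 1 := by
  induction k with
  | zero =>
    apply Submodule.mem_sup_left
    apply Submodule.subset_span
    exact ⟨[], by simp, by simp [dgw], by simp [val, evw]⟩
  | succ k ih =>
    obtain ⟨u, hu, v, hv, huv⟩ := Submodule.mem_sup.1 ih
    obtain ⟨u', hu', v', hv', huv'⟩ := Submodule.mem_sup.1 h
    have e : S.ev c ^ (2 * (k + 1)) = (u + v) * (u' + v') := by
      rw [huv, huv', ← pow_two, ← pow_add]; ring_nf
    rw [e]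
    have e2 : (k + 1) * (2 * S.dg c) = k * (2 * S.dg c) + 2 * S.dg c := by ring
    rw [e2]
    have e3 : (u + v) * (u' + v') = u * u' + (u * v' + v * (u' + v')) := by noncomm_ring
    rw [e3]
    refine Submodule.add_mem _ (Submodule.mem_sup_left (S.LGath_P_mul hu hu')) ?_
    apply Submodule.mem_sup_right
    refine Submodule.add_mem _ (S.LGath_mul01 (S.LGath_P_le _ hu) hv') (S.LGath_mul10 hv ?_)
    refine Submodule.add_mem _ (S.LGath_P_le _ hu') (S.W_anti (Nat.zero_le 1) hv')

/-- pigeonhole -/
theorem LGath_pigeon [DecidableEq ι] [Fintype ι] (w : List ι) (M : ℕ)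
    (h : ∀ i ∈ w, w.count i ≤ M) : w.length ≤ Fintype.card ι * M := by
  have h1 : w.length = ∑ i : ι, w.count i := by
    have := Multiset.sum_count_eq_card (s := (Finset.univ : Finset ι)) (m := (w : Multiset ι))
      (fun a _ => Finset.mem_univ a)
    simpa using this.symm
  rw [h1]
  have h2 : ∑ i : ι, w.count i ≤ ∑ _i : ι, M := by
    refine Finset.sum_le_sum ?_
    intro i _
    by_cases hi : i ∈ w
    · exact h i hi
    · rw [List.count_eq_zero_of_not_mem hi]; exact Nat.zero_le _
  simpa using h2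

theorem LGath_dgw_le [Fintype ι] (w : List ι) :
    S.dgw w ≤ w.length * (Finset.univ.sup S.dg) := by
  induction w with
  | nil => simp [dgw]
  | cons a w ih =>
    have h1 : S.dg a ≤ Finset.univ.sup S.dg := Finset.le_sup (Finset.mem_univ a)
    have h2 : S.dgw (a :: w) = S.dg a + S.dgw w := by simp [dgw]
    rw [h2, List.length_cons, Nat.add_mul]
    omega

theorem LGath_main [Finite ι]
    (G1 : ∀ a b c : ι, S.tc a = 0 → S.tc b = 0 → S.tc c = 0 →
      (S.ev a * S.ev b - S.ev b * S.ev a) * S.ev c - S.ev c * (S.ev a * S.ev b - S.ev b * S.ev a) ∈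
        S.W (S.dg a + S.dg b + S.dg c) 1)
    (G2 : ∀ a b : ι, S.tc a = 0 → S.tc b = 0 →
      (S.ev a * S.ev b - S.ev b * S.ev a) * (S.ev a * S.ev b - S.ev b * S.ev a) ∈
        S.W (2 * (S.dg a + S.dg b)) 1)
    (G3 : ∀ a : ι, S.tc a = 0 → S.ev a * S.ev a ∈
      Submodule.span R {x | ∃ w : List ι, (∀ i ∈ w, S.Pure i) ∧ S.dgw w = 2 * S.dg a ∧ x = S.val w} ⊔
        S.W (2 * S.dg a) 1) : S.OF := by
  classical
  have : Fintype ι := Fintype.ofFinite ι
  have G1' : S.LGath_G1 := G1
  have G2' : S.LGath_G2 := G2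
  set n := Fintype.card ι with hn
  set Q := Finset.univ.sup S.dg with hQ
  -- threshold for the multiplicity of `c`: `M = 2 k + n`, `k = n (H + n) + 1`
  refine ⟨n * (2 * n) * Q, n * (2 * (n * n + 1) + n) * Q + 1, ?_⟩
  intro H w hw hdeg
  set k := n * (H + n) + 1 with hk
  have hlen : n * (2 * k + n) * Q < S.dgw w := by
    have : n * (2 * k + n) * Q = n * (2 * n) * Q * H + n * (2 * (n * n + 1) + n) * Q := by
      rw [hk]; ring
    omega
  have hex : ∃ c ∈ w, 2 * k + n < w.count c := by
    by_contra hcon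
    push Not at hcon
    have h1 := LGath_pigeon w (2 * k + n) hcon
    have h2 := S.LGath_dgw_le w
    rw [← hn] at h1
    rw [← hQ] at h2
    have h3 : w.length * Q ≤ n * (2 * k + n) * Q := Nat.mul_le_mul_right _ h1
    omega
  obtain ⟨c, hcw, hcount⟩ := hex
  have hc : S.tc c = 0 := hw c hcw
  have h1 := S.LGath_gather G1' G2' hc w hw (2 * k) hcount.le
  refine LGath_sup_mem h1 ?_ le_sup_right
  rintro x ⟨g, hg, hgd, rfl⟩
  have h2 := S.LGath_pure_pow (G3 c hc) k
  have h3 : S.val (List.replicate (2 * k) c) = S.ev c ^ (2 * k) := by simp [val, evw]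
  rw [S.val_append, h3]
  obtain ⟨u, hu, v, hv, huv⟩ := Submodule.mem_sup.1 h2
  rw [← huv, mul_add]
  refine Submodule.add_mem _ ?_ ?_
  · have key : ∀ u ∈ S.LGath_P (k * (2 * S.dg c)), S.val g * u ∈
        Submodule.span R {x | ∃ (g : List ι) (i : ι), S.Ord g ∧ S.Pure i ∧
          S.dgw g + H = S.dgw w ∧ x = S.val (g ++ List.replicate H i)} ⊔ S.W (S.dgw w) 1 := by
      intro u hu
      induction hu using Submodule.span_induction with
      | mem u hu =>
        obtain ⟨p, hp1, hp2, rfl⟩ := hu
        have hplen : p.length = k * (2 * S.dg c) := by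
          rw [← hp2]
          have : S.dgw p = (p.map (fun _ => 1)).sum := by
            unfold dgw
            congr 1
            exact List.map_congr_left (fun i hi => (hp1 i hi).2)
          rw [this]; simp
        have hdc := S.hdg c
        have hlt : n * (H + n) < p.length := by
          rw [hplen]
          nlinarith
        have hex2 : ∃ i ∈ p, H + n < p.count i := by
          by_contra hcon
          push Not at hcon
          have h1 := LGath_pigeon p (H + n) hcon
          rw [← hn] at h1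
          omega
        obtain ⟨i, hip, hicount⟩ := hex2
        have hi : S.Pure i := hp1 i hip
        have hgp : S.Ord (g ++ p) := by
          intro x hx
          rcases List.mem_append.1 hx with h | h
          · exact hg x h
          · exact (hp1 x h).1
        have hcnt : H + n ≤ (g ++ p).count i := by
          rw [List.count_append]; omega
        have h4 := S.LGath_gather G1' G2' hi.1 (g ++ p) hgp H hcnt
        have hdgp : S.dgw (g ++ p) = S.dgw w := by
          rw [S.dgw_append, hp2, ← hgd]; ring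
        rw [← S.val_append]
        rw [hdgp] at h4
        refine LGath_sup_mem h4 ?_ le_sup_right
        rintro x ⟨g', hg', hgd', rfl⟩
        apply Submodule.mem_sup_left
        apply Submodule.subset_span
        refine ⟨g', i, hg', hi, ?_, rfl⟩
        rw [← hgd', hi.2]; ring
      | zero => simp
      | add u v _ _ hu hv => rw [mul_add]; exact Submodule.add_mem _ hu hv
      | smul r u _ hu => rw [mul_smul_comm]; exact Submodule.smul_mem _ _ hu
    exact key u hu
  · apply Submodule.mem_sup_right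
    refine S.LGath_cast (S.LGath_mul01 (S.LGath_val0 g) hv) ?_
    rw [← hgd]; ring

end LSys

end Pool.Agent.H6.ALT
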