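import Pool.Agent.H6.ALT.LHv

/-!
# ALT L1 pack, LInd: the final induction

Outer induction on `dgw w - tcw w` (`tcw_le_dgw`): the words in `W (dgw w) (tcw w + 1)` have the same degree, larger content, so
content `≥ K0 r`, and they vanish. Inner induction: among the words of the same degree `d`, content and number `n` of
special letters the degree sequences are lists of length `n + 1` with entries `≤ d` (`ds_length`, `ds_sum_le`), so `SG` is well founded
on them in the increasing direction: the number `∑ e_i (d+1)^(n-i)` increases strictly under `SG` and is `< (d+1)^(n+1)`.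
`tcw w ≤ r ns w`, so `K0 r ≤ tcw w` gives `K0 ≤ ns w`.
-/

set_option autoImplicit false

namespace Pool.Agent.H6.ALT

namespace LSys

/-- the number with the digits `l` (first digit the most significant one) in base `b` -/
private def numL (b : ℕ) (l : List ℕ) : ℕ := Nat.ofDigits b l.reverse

private theorem numL_lt {b : ℕ} (hb : 1 < b) {l : List ℕ} (hl : ∀ x ∈ l, x < b) :
    numL b l < b ^ l.length := by
  have h := Nat.ofDigits_lt_base_pow_length (b := b) (l := l.reverse) hb
    (fun x hx => hl x (List.mem_reverse.1 hx))
  rwa [List.length_reverse] at h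

private theorem numL_app (b : ℕ) (p : List ℕ) (a : ℕ) (x : List ℕ) :
    numL b (p ++ a :: x) = numL b x + b ^ x.length * (a + b * numL b p) := by
  unfold numL
  rw [List.reverse_append, List.reverse_cons, List.append_assoc, Nat.ofDigits_append,
    List.length_reverse]
  simp [Nat.ofDigits_cons]

private theorem numL_sg {b : ℕ} (hb : 1 < b) {u v : List ℕ} (hl : u.length = v.length)
    (hv : ∀ x ∈ v, x < b) (h : SG u v) : numL b v < numL b u := by
  obtain ⟨p, a, c, x, y, rfl, rfl, hca⟩ := h
  have hxy : x.length = y.length := by simpa using hl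
  rw [numL_app, numL_app, hxy]
  have hy : numL b y < b ^ y.length := numL_lt hb (fun z hz => hv z (by simp [hz]))
  calc numL b y + b ^ y.length * (c + b * numL b p)
      < b ^ y.length + b ^ y.length * (c + b * numL b p) := by omega
    _ = b ^ y.length * (c + 1 + b * numL b p) := by ring
    _ ≤ b ^ y.length * (a + b * numL b p) := Nat.mul_le_mul_left _ (by omega)
    _ ≤ numL b x + b ^ y.length * (a + b * numL b p) := by omega

variable {R E : Type*} [CommRing R] [Ring E] [Algebra R E] {J I : Submodule R E} {ι : Type}
  (S : LSys R J I ι)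

private theorem tcw_le_ns (r : ℕ) (hr : ∀ i, S.tc i ≤ r) (w : List ι) :
    S.tcw w ≤ r * S.ns w := by
  induction w with
  | nil => simp [tcw, ns]
  | cons i w ih =>
    have h1 : S.tcw (i :: w) = S.tc i + S.tcw w := by simp [tcw]
    rw [h1]
    by_cases h : S.tc i = 0
    · simp only [ns, h, if_true]
      omega
    · simp only [ns, h, if_false]
      have := hr i
      rw [Nat.mul_add, Nat.mul_one]
      omega

private theorem digit_lt (w : List ι) {d : ℕ} (hd : S.dgw w = d) : ∀ x ∈ S.ds w, x < d + 2 := by
  intro x hx
  have h1 := List.single_le_sum (fun _ _ => Nat.zero_le _) x hx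
  have h2 := S.ds_sum_le w
  omega

theorem LInd_main (K0 r : ℕ) (hr1 : 1 ≤ r) (hr : ∀ i, S.tc i ≤ r)
    (h : ∀ w : List ι, K0 ≤ S.ns w → S.val w ∈ S.Low w) :
    ∀ w : List ι, K0 * r ≤ S.tcw w → S.val w = 0 := by
  -- outer induction
  suffices H : ∀ (N : ℕ) (w : List ι), S.dgw w - S.tcw w = N → K0 * r ≤ S.tcw w → S.val w = 0 from
    fun w hw => H _ w rfl hw
  intro N
  induction N using Nat.strong_induction_on with
  | _ N ihN =>
    -- inner induction
    suffices H2 : ∀ (d n m : ℕ) (w : List ι), S.dgw w = d → S.ns w = n →
        (d + 2) ^ (n + 1) - numL (d + 2) (S.ds w) = m → d - S.tcw w = N →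
        K0 * r ≤ S.tcw w → S.val w = 0 from
      fun w hN hw => H2 _ _ _ w rfl rfl rfl hN hw
    intro d n m
    induction m using Nat.strong_induction_on with
    | _ m ihm =>
      intro w hd hn hm hN hw
      have hns : K0 ≤ S.ns w := by
        have h1 := S.tcw_le_ns r hr w
        have h2 : K0 * r ≤ S.ns w * r := by rw [mul_comm (S.ns w)]; omega
        exact Nat.le_of_mul_le_mul_right h2 hr1
      have hmem := h w hns
      have hbot : S.Low w ≤ ⊥ := by
        refine sup_le ?_ ?_
        · rw [Submodule.span_le]
          rintro x ⟨ω, h1, h2, h3, h4, rfl⟩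
          show S.val ω ∈ (⊥ : Submodule R E)
          rw [Submodule.mem_bot]
          have hlen : (S.ds ω).length = (S.ds w).length := by
            rw [S.ds_length, S.ds_length, h3]
          have hlt := numL_sg (b := d + 2) (by omega) hlen (S.digit_lt w hd) h4
          have hub : numL (d + 2) (S.ds ω) < (d + 2) ^ (n + 1) := by
            have h5 := numL_lt (b := d + 2) (by omega) (S.digit_lt ω (h1.trans hd))
            rwa [S.ds_length, h3, hn] at h5
          refine ihm ((d + 2) ^ (n + 1) - numL (d + 2) (S.ds ω)) ?_ ω (h1.trans hd) (h3.trans hn)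
            rfl ?_ ?_
          · omega
          · rw [h2]; exact hN
          · rw [h2]; exact hw
        · unfold W
          rw [Submodule.span_le]
          rintro x ⟨ω, h1, h2, rfl⟩
          show S.val ω ∈ (⊥ : Submodule R E)
          rw [Submodule.mem_bot]
          have h5 := S.tcw_le_dgw ω
          exact ihN (S.dgw ω - S.tcw ω) (by omega) ω rfl (by omega)
      exact (Submodule.mem_bot R).1 (hbot hmem)

end LSys

end Pool.Agent.H6.ALT
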