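import Pool.Agent.H6.ALT.Words

/-!
# ALT L1 pack, LScale: scales

Put `c_0 = C`, `c_(i+1) = max c_i (C + Lam (1 + (c_i + 1) K(c_i)))` for `i < m`. Let `K0 = 1 + ∑_(i ≤ m) (K(c_i) + 1)`. Let `e` be a list of length
`≥ K0` without a run of `K(c_i)` consecutive entries `< c_i` (for all `i ≤ m`). Look at the last `K(c_m)` entries: one of them is `≥ c_m`, take
it as `E_m` (if `K(c_m) = 0` the empty run is a run: first alternative). Look at the `K(c_(m-1))` entries before it: take the last one which is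
`≥ c_(m-1)` as `E_(m-1)`; the entries between are `< c_(m-1)`, fewer than `K(c_(m-1))`, so `∑ (x + 1) ≤ c_(m-1) K(c_(m-1))`, etc. down to `E_0 ≥ c_0 = C`.
Prove by induction on `m` a statement of the form: every list of length `≥ K0 m` without such runs contains a chain ending at
an entry `≥ c_m` in its last `K(c_m)` entries.
-/

set_option autoImplicit false

namespace Pool.Agent.H6.ALT

/-- the last entry which is `≥ c` -/
theorem LScale_last (c : ℕ) (e : List ℕ) : (∀ x ∈ e, x < c) ∨
    ∃ (e1 : List ℕ) (E : ℕ) (q : List ℕ), e = e1 ++ [E] ++ q ∧ c ≤ E ∧ ∀ x ∈ q, x < c := by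
  induction e using List.reverseRecOn with
  | nil => left; simp
  | append_singleton l a ih =>
    by_cases ha : c ≤ a
    · exact Or.inr ⟨l, a, [], by simp, ha, by simp⟩
    · push Not at ha
      rcases ih with h | ⟨e1, E, q, rfl, hE, hq⟩
      · left
        intro x hx
        rcases List.mem_append.1 hx with hx | hx
        · exact h x hx
        · rw [List.mem_singleton.1 hx]; exact ha
      · refine Or.inr ⟨e1, E, q ++ [a], by simp, hE, ?_⟩
        intro x hx
        rcases List.mem_append.1 hx with hx | hx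
        · exact hq x hx
        · rw [List.mem_singleton.1 hx]; exact ha

/-- either a run of `k` entries `< c`, or the last entry `≥ c` is among the last `k` entries -/
theorem LScale_run (c k : ℕ) (e : List ℕ) (he : k ≤ e.length) :
    (∃ p r q : List ℕ, e = p ++ r ++ q ∧ r.length = k ∧ ∀ x ∈ r, x < c) ∨
    ∃ (e1 : List ℕ) (E : ℕ) (q : List ℕ), e = e1 ++ [E] ++ q ∧ c ≤ E ∧ (∀ x ∈ q, x < c) ∧
      q.length < k := by
  rcases LScale_last c e with h | ⟨e1, E, q, rfl, hE, hq⟩
  · left
    refine ⟨[], e.take k, e.drop k, by simp, by simpa using he, ?_⟩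
    intro x hx
    exact h x (List.mem_of_mem_take hx)
  · rcases Nat.lt_or_ge q.length k with hk | hk
    · exact Or.inr ⟨e1, E, q, rfl, hE, hq, hk⟩
    · left
      refine ⟨e1 ++ [E], q.take k, q.drop k, by simp, by simpa using hk, ?_⟩
      intro x hx
      exact hq x (List.mem_of_mem_take hx)

theorem LScale_catW_snoc {m : ℕ} (us : Fin m → List ℕ) (v : List ℕ) :
    catW (Fin.snoc (α := fun _ => List ℕ) us v) = catW us ++ v := by
  unfold catW
  rw [List.ofFn_succ', List.concat_eq_append, List.flatten_append]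
  simp

theorem LScale_sum (c k : ℕ) (q : List ℕ) (hq : ∀ x ∈ q, x < c) (hk : q.length < k) :
    (q.map (· + 1)).sum ≤ (c + 1) * k := by
  have h1 : (q.map (· + 1)).sum ≤ (q.map (· + 1)).length • (c + 1) := by
    apply List.sum_le_card_nsmul
    intro x hx
    obtain ⟨y, hy, rfl⟩ := List.mem_map.1 hx
    have := hq y hy
    omega
  rw [List.length_map, smul_eq_mul] at h1
  calc (q.map (· + 1)).sum ≤ q.length * (c + 1) := h1
    _ ≤ k * (c + 1) := Nat.mul_le_mul_right _ hk.le
    _ = (c + 1) * k := Nat.mul_comm _ _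

theorem LScale_aux (C Lam : ℕ) (K : ℕ → ℕ) (m : ℕ) : ∃ K0 c : ℕ, ∀ e : List ℕ, K0 ≤ e.length →
    (∃ (c : ℕ) (p r q : List ℕ), e = p ++ r ++ q ∧ r.length = K c ∧ ∀ x ∈ r, x < c) ∨
    (∃ (p q : List ℕ) (E : Fin (m + 1) → ℕ) (r : Fin m → List ℕ),
      e = p ++ [E 0] ++ catW (fun i => r i ++ [E i.succ]) ++ q ∧ C ≤ E 0 ∧
      (∀ i : Fin m, C + Lam * (1 + ((r i).map (· + 1)).sum) ≤ E i.succ) ∧
      (∀ x ∈ q, x < c) ∧ q.length < K c) := by
  induction m with
  | zero =>
    refine ⟨K C, C, fun e he => ?_⟩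
    rcases LScale_run C (K C) e he with ⟨p, r, q, h1, h2, h3⟩ | ⟨e1, E, q, h1, h2, h3, h4⟩
    · exact Or.inl ⟨C, p, r, q, h1, h2, h3⟩
    · refine Or.inr ⟨e1, q, fun _ => E, Fin.elim0, ?_, h2, fun i => i.elim0, h3, h4⟩
      rw [h1]
      simp [catW]
  | succ m ih =>
    obtain ⟨K0, c, ih⟩ := ih
    refine ⟨K0 + K (C + Lam * (1 + (c + 1) * K c)) + 1, C + Lam * (1 + (c + 1) * K c),
      fun e he => ?_⟩
    generalize hc' : C + Lam * (1 + (c + 1) * K c) = c' at he ⊢
    rcases LScale_run c' (K c') e (by omega) with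
      ⟨p, r, q, h1, h2, h3⟩ | ⟨e1, E', q, h1, h2, h3, h4⟩
    · exact Or.inl ⟨c', p, r, q, h1, h2, h3⟩
    · have hlen : K0 ≤ e1.length := by
        have := congrArg List.length h1
        simp only [List.length_append, List.length_cons, List.length_nil] at this
        omega
      rcases ih e1 hlen with ⟨c0, p, r, q1, g1, g2, g3⟩ | ⟨p, q1, E, r, g1, g2, g3, g4, g5⟩
      · refine Or.inl ⟨c0, p, r, q1 ++ [E'] ++ q, ?_, g2, g3⟩
        rw [h1, g1]
        simp
      · refine Or.inr ⟨p, q, Fin.snoc (α := fun _ => ℕ) E E',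
          Fin.snoc (α := fun _ => List ℕ) r q1, ?_, ?_, ?_, h3, h4⟩
        · have hfun : (fun i : Fin (m + 1) =>
              (Fin.snoc (α := fun _ => List ℕ) r q1 : Fin (m + 1) → List ℕ) i ++
                [(Fin.snoc (α := fun _ => ℕ) E E' : Fin (m + 1 + 1) → ℕ) i.succ]) =
              Fin.snoc (α := fun _ => List ℕ) (fun i : Fin m => r i ++ [E i.succ]) (q1 ++ [E']) := by
            funext i
            refine Fin.lastCases ?_ (fun j => ?_) i
            · rw [Fin.snoc_last, Fin.snoc_last, Fin.succ_last, Fin.snoc_last]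
            · rw [Fin.snoc_castSucc, Fin.snoc_castSucc, Fin.succ_castSucc, Fin.snoc_castSucc]
          have h0 : (Fin.snoc (α := fun _ => ℕ) E E' : Fin (m + 1 + 1) → ℕ) 0 = E 0 := by
            rw [← Fin.castSucc_zero, Fin.snoc_castSucc]
          rw [hfun, LScale_catW_snoc, h0, h1, g1]
          simp
        · have h0 : (Fin.snoc (α := fun _ => ℕ) E E' : Fin (m + 1 + 1) → ℕ) 0 = E 0 := by
            rw [← Fin.castSucc_zero, Fin.snoc_castSucc]
          rw [h0]
          exact g2
        · intro i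
          refine Fin.lastCases ?_ (fun j => ?_) i
          · rw [Fin.snoc_last, Fin.succ_last, Fin.snoc_last]
            have := LScale_sum c (K c) q1 g4 g5
            calc C + Lam * (1 + (q1.map (· + 1)).sum) ≤ C + Lam * (1 + (c + 1) * K c) := by
                  gcongr
              _ = c' := hc'
              _ ≤ E' := h2
          · rw [Fin.snoc_castSucc, Fin.succ_castSucc, Fin.snoc_castSucc]
            exact g3 j

theorem LScale_main (C Lam m : ℕ) (K : ℕ → ℕ) : ∃ K0 : ℕ, ∀ e : List ℕ, K0 ≤ e.length →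
    (∃ (c : ℕ) (p r q : List ℕ), e = p ++ r ++ q ∧ r.length = K c ∧ ∀ x ∈ r, x < c) ∨
    (∃ (p q : List ℕ) (E : Fin (m + 1) → ℕ) (r : Fin m → List ℕ),
      e = p ++ [E 0] ++ catW (fun i => r i ++ [E i.succ]) ++ q ∧ C ≤ E 0 ∧
      ∀ i : Fin m, C + Lam * (1 + ((r i).map (· + 1)).sum) ≤ E i.succ) := by
  obtain ⟨K0, c, h⟩ := LScale_aux C Lam K m
  refine ⟨K0, fun e he => ?_⟩
  rcases h e he with h | ⟨p, q, E, r, h1, h2, h3, -, -⟩
  · exact Or.inl h
  · exact Or.inr ⟨p, q, E, r, h1, h2, h3⟩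

end Pool.Agent.H6.ALT
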