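import Pool.Agent.H6.ALT.ShT

/-!
# ALT L1 pack, Lead: products of T-words are leading words of Jordan elements

`Sm f w` is the span of the values of the rearrangements of `w` which are strongly smaller than `w`.
Induction on the list of T-words (from the left, i.e. for `ts ++ [t]`): let `j` be the element for `ts` (`j = 1`, word `[]`,
for `ts = []`), `t = a^i c_1 ... c_r`. Put `j_1 = {j, (f a)^i, f c_1} = j (f a)^i (f c_1) + (f c_1) (f a)^i j` (for `ts = []`:
`(f a)^i ∘ f c_1`), `j_(l+1) = j_l ∘ f c_(l+1)`. All are in `I` (`(f a)^i` is in `I`: `a^(i+2) = a a^i a`). Words of `j_1`: `x' a^i c_1` with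
`x'` a word of `j` (`x' = x` or strongly smaller than the word `x` of `ts`), and words beginning with `c_1 < a` while
`x a^i c_1` begins with `a`. Words of `j_(l+1)`: `y c_(l+1)` and `c_(l+1) y`, the latter begin with a letter `< a`.
-/

set_option autoImplicit false

namespace Pool.Agent.H6.ALT

variable {R E : Type*} [CommRing R] [Ring E] [Algebra R E]

/-- span of the values of the strongly smaller rearrangements -/
def Sm (R : Type*) {E : Type*} [CommRing R] [Ring E] [Algebra R E] (f : ℕ → E) (w : List ℕ) :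
    Submodule R E :=
  Submodule.span R {x | ∃ w' : List ℕ, w'.Perm w ∧ SG w w' ∧ x = evw f w'}

private theorem Lead_right (f : ℕ → E) (y v : List ℕ) (z : E) (hz : z ∈ Sm R f y) :
    z * evw f v ∈ Sm R f (y ++ v) := by
  unfold Sm at hz
  induction hz using Submodule.span_induction with
  | mem x hx =>
    obtain ⟨w', hp, hs, rfl⟩ := hx
    exact Submodule.subset_span
      ⟨w' ++ v, hp.append_right v, SG.append_right v v hs, (evw_append f w' v).symm⟩
  | zero =>
    rw [zero_mul]
    exact Submodule.zero_mem _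
  | add x y _ _ hx hy =>
    rw [add_mul]
    exact Submodule.add_mem _ hx hy
  | smul r x _ hx =>
    rw [smul_mul_assoc]
    exact Submodule.smul_mem _ r hx

private theorem Lead_left (f : ℕ → E) (a c : ℕ) (hc : c < a) (u y0 v : List ℕ) (j : E)
    (hj : j - evw f (a :: y0) ∈ Sm R f (a :: y0))
    (hp : (c :: (u ++ a :: y0)).Perm ((a :: y0) ++ v)) :
    evw f (c :: u) * j ∈ Sm R f ((a :: y0) ++ v) := by
  have hSG : ∀ w : List ℕ, SG ((a :: y0) ++ v) (c :: w) := fun w =>
    ⟨[], a, c, y0 ++ v, w, by simp, by simp, hc⟩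
  have h1 : ∀ z : E, z ∈ Sm R f (a :: y0) → evw f (c :: u) * z ∈ Sm R f ((a :: y0) ++ v) := by
    intro z hz
    unfold Sm at hz
    induction hz using Submodule.span_induction with
    | mem x hx =>
      obtain ⟨w', hp', hs, rfl⟩ := hx
      refine Submodule.subset_span ⟨c :: (u ++ w'), ?_, hSG _, ?_⟩
      · refine List.Perm.trans ?_ hp
        exact (hp'.append_left u).cons c
      · rw [← evw_append, List.cons_append]
    | zero =>
      rw [mul_zero]
      exact Submodule.zero_mem _
    | add x y _ _ hx hy =>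
      rw [mul_add]
      exact Submodule.add_mem _ hx hy
    | smul r x _ hx =>
      rw [mul_smul_comm]
      exact Submodule.smul_mem _ r hx
  have h2 : evw f (c :: u) * j = evw f (c :: u) * evw f (a :: y0) +
      evw f (c :: u) * (j - evw f (a :: y0)) := by
    rw [← mul_add]
    congr 1
    abel
  rw [h2]
  refine Submodule.add_mem _ ?_ (h1 _ hj)
  refine Submodule.subset_span ⟨c :: (u ++ a :: y0), hp, hSG _, ?_⟩
  rw [← evw_append, List.cons_append]

private theorem Lead_pow {J I : Submodule R E} (hS : JSys R E J I) (x : E) (hx : x ∈ I) :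
    ∀ i : ℕ, 1 ≤ i → x ^ i ∈ I
  | 0, h => by omega
  | 1, _ => by simpa using hx
  | 2, _ => by
    rw [pow_two]
    exact hS.isq x hx
  | (i + 3), _ => by
    have h := Lead_pow hS x hx (i + 1) (by omega)
    have h2 : x ^ (i + 3) = x * x ^ (i + 1) * x := by
      rw [← pow_succ', ← pow_succ]
    rw [h2]
    exact hS.iuop' x (hS.le hx) _ h

private theorem Lead_letters {J I : Submodule R E} (hS : JSys R E J I) (f : ℕ → E) (a : ℕ)
    (hf : ∀ x ≤ a, f x ∈ I) (u : List ℕ) : (∀ x ∈ u, x < a) → ∀ (y0 : List ℕ) (j : E), j ∈ I →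
    j - evw f (a :: y0) ∈ Sm R f (a :: y0) →
    ∃ j' ∈ I, j' - evw f ((a :: y0) ++ u) ∈ Sm R f ((a :: y0) ++ u) := by
  induction u with
  | nil =>
    intro _ y0 j hj h
    refine ⟨j, hj, ?_⟩
    rw [List.append_nil]
    exact h
  | cons c u ih =>
    intro hu y0 j hj h
    have hc : c < a := hu c (by simp)
    have hcI : f c ∈ I := hf c hc.le
    have h1 : j * f c + f c * j ∈ I := hS.ijord j hj (f c) (hS.le hcI)
    have h2 : (j * f c + f c * j) - evw f (a :: (y0 ++ [c])) ∈ Sm R f (a :: (y0 ++ [c])) := by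
      have e1 : (j * f c + f c * j) - evw f (a :: (y0 ++ [c])) =
          (j - evw f (a :: y0)) * evw f [c] + evw f (c :: []) * j := by
        rw [← List.cons_append, evw_append, evw_cons f c [], evw_nil, mul_one, sub_mul]
        abel
      rw [e1]
      refine Submodule.add_mem _ ?_ ?_
      · have := Lead_right (R := R) f (a :: y0) [c] _ h
        rwa [List.cons_append] at this
      · have := Lead_left (R := R) f a c hc [] y0 [c] j h (by
          rw [List.nil_append]
          exact (List.perm_append_comm (l₁ := a :: y0) (l₂ := [c])).symm)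
        rwa [List.cons_append] at this
    obtain ⟨j', hj', h3⟩ := ih (fun x hx => hu x (by simp [hx])) (y0 ++ [c]) _ h1 h2
    refine ⟨j', hj', ?_⟩
    have e2 : (a :: (y0 ++ [c])) ++ u = (a :: y0) ++ c :: u := by simp
    rw [e2] at h3
    exact h3

private theorem Lead_rep (f : ℕ → E) (a i : ℕ) : evw f (List.replicate i a) = f a ^ i := by
  simp [evw]

/-- first T-word -/
private theorem Lead_first {J I : Submodule R E} (hS : JSys R E J I) (f : ℕ → E) (a : ℕ)
    (hf : ∀ x ≤ a, f x ∈ I) (i c : ℕ) (hc : c < a) :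
    ∃ j ∈ I, j - evw f (a :: (List.replicate i a ++ [c])) ∈
      Sm R f (a :: (List.replicate i a ++ [c])) := by
  have hA : f a ^ (i + 1) ∈ I := Lead_pow hS (f a) (hf a le_rfl) (i + 1) (by omega)
  have hcI : f c ∈ I := hf c hc.le
  refine ⟨f a ^ (i + 1) * f c + f c * f a ^ (i + 1), hS.ijord _ hA _ (hS.le hcI), ?_⟩
  have e1 : evw f (a :: (List.replicate i a ++ [c])) = f a ^ (i + 1) * f c := by
    rw [evw_cons, evw_append, Lead_rep, evw_cons, evw_nil, mul_one, ← mul_assoc, pow_succ']
  rw [e1, add_sub_cancel_left]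
  refine Submodule.subset_span ⟨c :: List.replicate (i + 1) a, ?_, ?_, ?_⟩
  · rw [List.replicate_succ, ← List.cons_append]
    exact (List.perm_append_comm (l₁ := a :: List.replicate i a) (l₂ := [c])).symm
  · exact ⟨[], a, c, List.replicate i a ++ [c], List.replicate (i + 1) a, by simp, by simp, hc⟩
  · rw [evw_cons, Lead_rep]

/-- next T-word -/
private theorem Lead_next {J I : Submodule R E} (hS : JSys R E J I) (f : ℕ → E) (a : ℕ)
    (hf : ∀ x ≤ a, f x ∈ I) (y0 : List ℕ) (j : E) (hj : j ∈ I)
    (h : j - evw f (a :: y0) ∈ Sm R f (a :: y0)) (i c : ℕ) (hi : 1 ≤ i) (hc : c < a) :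
    ∃ j' ∈ I, j' - evw f (a :: (y0 ++ (List.replicate i a ++ [c]))) ∈
      Sm R f (a :: (y0 ++ (List.replicate i a ++ [c]))) := by
  have hA : f a ^ i ∈ I := Lead_pow hS (f a) (hf a le_rfl) i hi
  have hcI : f c ∈ I := hf c hc.le
  refine ⟨j * f a ^ i * f c + f c * f a ^ i * j,
    hS.itrip j hj _ (hS.le hA) _ (hS.le hcI), ?_⟩
  have e1 : (j * f a ^ i * f c + f c * f a ^ i * j) -
      evw f (a :: (y0 ++ (List.replicate i a ++ [c]))) =
      (j - evw f (a :: y0)) * evw f (List.replicate i a ++ [c]) +
        evw f (c :: List.replicate i a) * j := by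
    rw [← List.cons_append, evw_append, sub_mul, evw_append f (List.replicate i a) [c], Lead_rep,
      evw_cons f c [], evw_nil, mul_one, evw_cons f c (List.replicate i a), Lead_rep]
    rw [mul_assoc j]
    abel
  rw [e1]
  refine Submodule.add_mem _ ?_ ?_
  · have := Lead_right (R := R) f (a :: y0) (List.replicate i a ++ [c]) _ h
    rwa [List.cons_append] at this
  · have := Lead_left (R := R) f a c hc (List.replicate i a) y0 (List.replicate i a ++ [c]) j h (by
      have p1 : (c :: (List.replicate i a ++ a :: y0)).Perm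
          ((List.replicate i a ++ a :: y0) ++ [c]) :=
        (List.perm_append_comm (l₁ := List.replicate i a ++ a :: y0) (l₂ := [c])).symm
      have p2 : ((List.replicate i a ++ a :: y0) ++ [c]).Perm
          (((a :: y0) ++ List.replicate i a) ++ [c]) :=
        List.Perm.append_right [c] List.perm_append_comm
      have p3 := p1.trans p2
      rwa [List.append_assoc (a :: y0)] at p3)
    rwa [List.cons_append] at this

theorem Lead_main {J I : Submodule R E} (hS : JSys R E J I) (f : ℕ → E) (a : ℕ)
    (hf : ∀ x ≤ a, f x ∈ I) (ts : List (List ℕ)) (hne : ts ≠ [])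
    (hT : ∀ t ∈ ts, ∃ (i : ℕ) (u : List ℕ), t = List.replicate i a ++ u ∧ 1 ≤ i ∧ u ≠ [] ∧
      ∀ x ∈ u, x < a) :
    ∃ j ∈ I, j - evw f ts.flatten ∈ Sm R f ts.flatten := by
  have key : ∀ ts : List (List ℕ), ts ≠ [] →
      (∀ t ∈ ts, ∃ (i : ℕ) (u : List ℕ), t = List.replicate i a ++ u ∧ 1 ≤ i ∧ u ≠ [] ∧
        ∀ x ∈ u, x < a) →
      ∃ y0 : List ℕ, ts.flatten = a :: y0 ∧ ∃ j ∈ I, j - evw f (a :: y0) ∈ Sm R f (a :: y0) := by
    intro ts
    induction ts using List.reverseRecOn with
    | nil => intro h; exact absurd rfl h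
    | append_singleton ts t ih =>
      intro _ hT
      obtain ⟨i, u, rfl, hi, hu0, hu⟩ := hT t (by simp)
      obtain ⟨c, u, rfl⟩ := List.exists_cons_of_ne_nil hu0
      have hc : c < a := hu c (by simp)
      have hu' : ∀ x ∈ u, x < a := fun x hx => hu x (by simp [hx])
      by_cases hts : ts = []
      · subst hts
        obtain ⟨i, rfl⟩ : ∃ k, i = k + 1 := ⟨i - 1, by omega⟩
        obtain ⟨j, hj, h⟩ := Lead_first hS f a hf i c hc
        obtain ⟨j', hj', h'⟩ := Lead_letters hS f a hf u hu' _ j hj h
        refine ⟨List.replicate i a ++ c :: u, ?_, j', hj', ?_⟩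
        · simp [List.replicate_succ]
        · have e : (a :: (List.replicate i a ++ [c])) ++ u = a :: (List.replicate i a ++ c :: u) := by
            simp
          rw [e] at h'
          exact h'
      · obtain ⟨y0, hy, j, hj, h⟩ := ih hts (fun t ht => hT t (by simp [ht]))
        obtain ⟨j1, hj1, h1⟩ := Lead_next hS f a hf y0 j hj h i c hi hc
        obtain ⟨j', hj', h'⟩ := Lead_letters hS f a hf u hu' _ j1 hj1 h1
        refine ⟨y0 ++ (List.replicate i a ++ c :: u), ?_, j', hj', ?_⟩
        · simp [hy]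
        · have e : (a :: (y0 ++ (List.replicate i a ++ [c]))) ++ u =
              a :: (y0 ++ (List.replicate i a ++ c :: u)) := by
            simp
          rw [e] at h'
          exact h'
  obtain ⟨y0, hy, j, hj, h⟩ := key ts hne hT
  exact ⟨j, hj, by rw [hy]; exact h⟩

end Pool.Agent.H6.ALT
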