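import Pool.Agent.H6.ALT.Words

/-!
# ALT L1 pack, ShP: primitive words

`ShP_root`: take a word `z` of minimal length such that `v` is a power of `z`. If `z.rotate i = z`, `0 < i < |z|`, then
`z = x ++ y = y ++ x` with `x, y` not empty, so `x` and `y` are powers of one word (induction on `|x| + |y|`: if
`|x| = |y|` they are equal, otherwise the shorter one is a prefix of the longer one), hence `z` is a proper power, so `v` is
a power of a shorter word: contradiction.
`ShP_div`: the rotations `z.rotate 0, ..., z.rotate (|z| - 1)` are pairwise different (if `rotate i = rotate j`, `i < j`,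
rotate back to get `rotate (j - i) = z`) and have the same length, so they are strictly ordered by `SG` (`SG.total`).
Since `m ≤ |z|` there are `m` of them, `z.rotate i_1`, SG-decreasing: `SG (rotate i_1) (rotate i_2)`, etc. The word
`powW (2 m) z` is the concatenation of `m` copies of `z z`. In the `j`-th copy of `z z` the word `z.rotate i_j` occurs at
position `i_j` (`z ++ z = take i_j z ++ rotate i_j z ++ drop i_j z`). Let `u_j` be the word from this position to the
position of `rotate i_(j+1)` in the next copy (for `j = m`: `u_m = rotate i_m`). `u_j` begins with `rotate i_j`, these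
prefixes have the same length and are strongly decreasing, so `u_1 ... u_m` is `m`-divisible: the first index `j` with
`σ j ≠ j` has `σ j > j`, and `u_j` is strongly greater than `u_(σ j)`.
-/

set_option autoImplicit false

namespace Pool.Agent.H6.ALT

private theorem shP_pow_add {α : Type*} (a b : ℕ) (w : List α) :
    powW (a + b) w = powW a w ++ powW b w := by
  rw [powW, powW, powW, List.replicate_add, List.flatten_append]

private theorem shP_pow_one {α : Type*} (w : List α) : powW 1 w = w := by
  simp [powW]

private theorem shP_pow_zero {α : Type*} (w : List α) : powW 0 w = [] := by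
  simp [powW]

private theorem shP_pow_mul {α : Type*} (a b : ℕ) (w : List α) :
    powW a (powW b w) = powW (a * b) w := by
  induction a with
  | zero => simp [powW]
  | succ a ih => rw [shP_pow_add, ih, shP_pow_one, ← shP_pow_add, Nat.succ_mul]

private theorem shP_pow_length {α : Type*} (a : ℕ) (w : List α) :
    (powW a w).length = a * w.length := by
  simp [powW]

private theorem shP_comm : ∀ (n : ℕ) (x y : List ℕ), x.length + y.length = n → x ++ y = y ++ x →
    ∃ (w : List ℕ) (a b : ℕ), x = powW a w ∧ y = powW b w := by
  intro n
  induction n using Nat.strong_induction_on with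
  | _ n ih =>
    intro x y hn hxy
    by_cases hx : x = []
    · exact ⟨y, 0, 1, by simp [hx, shP_pow_zero], (shP_pow_one y).symm⟩
    by_cases hy : y = []
    · exact ⟨x, 1, 0, (shP_pow_one x).symm, by simp [hy, shP_pow_zero]⟩
    have hx0 : 0 < x.length := List.length_pos_iff.2 hx
    have hy0 : 0 < y.length := List.length_pos_iff.2 hy
    rcases List.append_eq_append_iff.1 hxy with ⟨r, h1, h2⟩ | ⟨r, h1, h2⟩
    · -- y = x ++ r, y = r ++ x
      obtain ⟨w, a, b, ha, hb⟩ := ih (x.length + r.length)
        (by have := congrArg List.length h1; simp at this; omega) x r rfl (by rw [← h1, h2])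
      exact ⟨w, a, a + b, ha, by rw [h1, shP_pow_add, ← ha, ← hb]⟩
    · obtain ⟨w, a, b, ha, hb⟩ := ih (y.length + r.length)
        (by have := congrArg List.length h1; simp at this; omega) y r rfl (by rw [← h1, h2])
      exact ⟨w, a + b, a, by rw [h1, shP_pow_add, ← ha, ← hb], ha⟩

theorem ShP_root (v : List ℕ) (hv : v ≠ []) : ∃ (z : List ℕ) (r : ℕ), z ≠ [] ∧ 1 ≤ r ∧ v = powW r z ∧
    ∀ i, 0 < i → i < z.length → z.rotate i ≠ z := by
  classical
  have hex : ∃ n, ∃ (z : List ℕ) (r : ℕ), z ≠ [] ∧ 1 ≤ r ∧ v = powW r z ∧ z.length = n :=
    ⟨v.length, v, 1, hv, le_rfl, (shP_pow_one v).symm, rfl⟩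
  obtain ⟨z, r, hz, hr, hvz, hl⟩ := Nat.find_spec hex
  refine ⟨z, r, hz, hr, hvz, ?_⟩
  intro i hi0 hil hrot
  have hxy : z.take i ++ z.drop i = z.drop i ++ z.take i := by
    rw [List.take_append_drop, ← List.rotate_eq_drop_append_take hil.le, hrot]
  obtain ⟨w, a, b, ha, hb⟩ := shP_comm _ _ _ rfl hxy
  have hla : i = a * w.length := by
    have := congrArg List.length ha
    rw [shP_pow_length, List.length_take] at this
    omega
  have hlb : z.length - i = b * w.length := by
    have := congrArg List.length hb
    rw [shP_pow_length, List.length_drop] at this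
    omega
  have hzw : z = powW (a + b) w := by
    rw [shP_pow_add, ← ha, ← hb, List.take_append_drop]
  have ha0 : 0 < a := by
    rcases Nat.eq_zero_or_pos a with h | h
    · subst h; simp at hla; omega
    · exact h
  have hb0 : 0 < b := by
    rcases Nat.eq_zero_or_pos b with h | h
    · subst h; simp at hlb; omega
    · exact h
  have hw0 : 0 < w.length := by
    rcases Nat.eq_zero_or_pos w.length with h | h
    · rw [h] at hla; simp at hla; omega
    · exact h
  have hlt : w.length < z.length := by
    have h1 : z.length = (a + b) * w.length := by rw [hzw, shP_pow_length]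
    rw [h1]
    nlinarith
  have := Nat.find_min' hex (m := w.length) ⟨w, r * (a + b), List.length_pos_iff.1 hw0,
    Nat.one_le_iff_ne_zero.2 (by positivity), by rw [hvz, hzw, shP_pow_mul], rfl⟩
  omega

private theorem shP_lex {u v : List ℕ} (hl : u.length = v.length) (h : v < u) : SG u v := by
  induction u generalizing v with
  | nil =>
    cases v with
    | nil => exact absurd h (lt_irrefl _)
    | cons b v => simp at hl
  | cons a u ih =>
    cases v with
    | nil => simp at hl
    | cons b v =>
      rw [List.cons_lt_cons_iff] at h
      rcases h with h | ⟨h1, h2⟩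
      · exact ⟨[], a, b, u, v, rfl, rfl, h⟩
      · subst h1
        have := ih (by simpa using hl) h2
        simpa using SG.append_left [b] this

private theorem shP_range (z : List ℕ) (g : ℕ → ℕ) (hg : ∀ j, g j ≤ z.length) (k : ℕ) :
    z.take (g 0) ++ ((List.range k).map
      (fun j => z.rotate (g j) ++ (z.drop (g j) ++ z.take (g (j + 1))))).flatten =
      powW (2 * k) z ++ z.take (g k) := by
  induction k with
  | zero => simp [shP_pow_zero]
  | succ k ih =>
    rw [List.range_succ, List.map_append, List.flatten_append, ← List.append_assoc, ih]
    rw [show 2 * (k + 1) = 2 * k + (1 + 1) by ring, shP_pow_add, shP_pow_add, shP_pow_one]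
    have h1 : z.take (g k) ++ z.drop (g k) = z := List.take_append_drop _ _
    simp only [List.map_cons, List.map_nil, List.flatten_cons, List.flatten_nil, List.append_nil,
      List.append_assoc, List.rotate_eq_drop_append_take (hg k)]
    congr 1
    rw [← List.append_assoc (z.take (g k)) (z.drop (g k)), h1,
      ← List.append_assoc (z.take (g k)) (z.drop (g k)), h1]

theorem ShP_div (m : ℕ) (z : List ℕ) (hm : m ≤ z.length)
    (hz : ∀ i, 0 < i → i < z.length → z.rotate i ≠ z) :
    ∃ us : Fin m → List ℕ, MDiv us ∧ catW us <:+: powW (2 * m) z := by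
  classical
  have hinj : Function.Injective (fun i : Fin z.length => z.rotate i) := by
    have key : ∀ i j : ℕ, i < j → j < z.length → z.rotate i ≠ z.rotate j := by
      intro i j hij hj h
      have h1 : (z.rotate (j - i)).rotate i = z.rotate i := by
        rw [List.rotate_rotate, show j - i + i = j by omega, h]
      exact hz (j - i) (by omega) (by omega) (List.rotate_injective i h1)
    intro i j h
    rcases lt_trichotomy (i : ℕ) j with hlt | heq | hgt
    · exact absurd h (key _ _ hlt j.2)
    · exact Fin.ext heq
    · exact absurd h.symm (key _ _ hgt i.2)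
  set s : Finset (List ℕ) := Finset.univ.image (fun i : Fin z.length => z.rotate i) with hs
  have hcard : s.card = z.length := by
    rw [hs, Finset.card_image_of_injective _ hinj, Finset.card_univ, Fintype.card_fin]
  let e := s.orderEmbOfFin hcard
  let f : Fin m → List ℕ := fun j => e (Fin.rev (Fin.castLE hm j))
  have hfmem : ∀ j, ∃ i : ℕ, i < z.length ∧ z.rotate i = f j := by
    intro j
    have := s.orderEmbOfFin_mem hcard (Fin.rev (Fin.castLE hm j))
    obtain ⟨i, -, hi⟩ := Finset.mem_image.1 this
    exact ⟨i, i.2, hi⟩
  choose idx hidx hf using hfmem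
  have hlen : ∀ j, (f j).length = z.length := fun j => by rw [← hf j, List.length_rotate]
  have hdec : ∀ i j, i < j → SG (f i) (f j) := by
    intro i j hij
    refine shP_lex (by rw [hlen, hlen]) ?_
    have : Fin.rev (Fin.castLE hm j) < Fin.rev (Fin.castLE hm i) := by
      rw [Fin.rev_lt_rev]
      simpa using hij
    exact e.strictMono this
  let g : ℕ → ℕ := fun j => if h : j < m then idx ⟨j, h⟩ else 0
  have hg : ∀ j, g j ≤ z.length := by
    intro j
    by_cases h : j < m
    · simp only [g, h, dite_true]; exact (hidx _).le
    · simp [g, h]
  let U : ℕ → List ℕ := fun j => z.rotate (g j) ++ (z.drop (g j) ++ z.take (g (j + 1)))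
  let us : Fin m → List ℕ := fun j => U j
  have hus : ∀ j : Fin m, us j = f j ++ (z.drop (g j) ++ z.take (g (j + 1))) := by
    intro j
    have : g j = idx j := by simp [g, j.2]
    simp only [us, U]
    rw [this, hf]
  refine ⟨us, ⟨?_, ?_⟩, ?_⟩
  · intro j h
    have h1 := congrArg List.length h
    rw [hus] at h1
    simp only [List.length_append, List.length_nil, hlen] at h1
    have := j.2
    omega
  · intro σ hσ
    have hne : ∃ j, σ j ≠ j := by
      by_contra hcon
      push Not at hcon
      exact hσ (Equiv.ext hcon)
    obtain ⟨j, hj, hmin⟩ : ∃ j, σ j ≠ j ∧ ∀ i, i < j → σ i = i := by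
      obtain ⟨j, hj, hmin⟩ := WellFounded.has_min (wellFounded_lt : WellFounded (α := Fin m) (· < ·))
        {j | σ j ≠ j} hne
      exact ⟨j, hj, fun i hi => by_contra fun h => hmin i h hi⟩
    have hgt : j < σ j := by
      rcases lt_trichotomy j (σ j) with h | h | h
      · exact h
      · exact absurd h.symm hj
      · have := hmin _ h
        exact absurd (σ.injective this) hj
    have split : ∀ w : Fin m → List ℕ, catW w =
        ((List.ofFn w).take j).flatten ++ (w j ++ ((List.ofFn w).drop (j + 1)).flatten) := by
      intro w
      have hjl : (j : ℕ) < (List.ofFn w).length := by simp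
      conv_lhs => rw [catW, ← List.take_append_drop j (List.ofFn w), List.flatten_append,
        List.drop_eq_getElem_cons hjl, List.flatten_cons]
      simp
    have htake : (List.ofFn us).take j = (List.ofFn (us ∘ σ)).take j := by
      apply List.ext_getElem
      · simp
      · intro i h1 h2
        have hij : i < (j : ℕ) := by
          rw [List.length_take] at h1; omega
        simp only [List.getElem_take, List.getElem_ofFn, Function.comp]
        rw [hmin ⟨i, by omega⟩ hij]
    rw [split us, split (us ∘ σ), htake]
    apply SG.append_left
    simp only [Function.comp, hus, List.append_assoc]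
    exact SG.append_right _ _ (hdec _ _ hgt)
  · have h1 := shP_range z g hg m
    have hgm : g m = 0 := by simp [g]
    rw [hgm, List.take_zero, List.append_nil] at h1
    have hcat : catW us = ((List.range m).map U).flatten := by
      rw [catW]
      congr 1
      apply List.ext_getElem
      · simp
      · intro i h1 h2
        simp [us]
    rw [hcat, ← h1]
    exact ⟨z.take (g 0), [], by simp [U]⟩

end Pool.Agent.H6.ALT
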