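import Pool.Agent.H6.ALT.ShA
import Pool.Agent.H6.ALT.ShP

/-!
# ALT L1 pack, ShB: Shirshov's lemma (powers of short words)

`ShA_main` with the exponent `max p (2 m)`; `v = powW r z` (`ShP_root`), `powW q (powW r z) = powW (q r) z` has the prefix
`powW q z`. If `|z| < m` we are in the first case (`q ≥ p`), otherwise `ShP_div` (`q ≥ 2 m`).
-/

set_option autoImplicit false

namespace Pool.Agent.H6.ALT

private theorem ShB_add (a b : ℕ) (z : List ℕ) : powW (a + b) z = powW a z ++ powW b z := by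
  unfold powW
  rw [List.replicate_add, List.flatten_append]

private theorem ShB_mul (a r : ℕ) (z : List ℕ) : powW a (powW r z) = powW (a * r) z := by
  induction a with
  | zero => simp [powW]
  | succ a ih =>
    rw [ShB_add, ih, Nat.succ_mul, ShB_add]
    simp [powW]

private theorem ShB_le {q s : ℕ} (h : q ≤ s) (z : List ℕ) : powW q z <:+: powW s z := by
  obtain ⟨t, rfl⟩ := Nat.exists_eq_add_of_le h
  rw [ShB_add]
  exact (List.prefix_append _ _).isInfix

theorem ShB_main (m p k : ℕ) : ∃ N : ℕ, ∀ w : List ℕ, (∀ a ∈ w, a < k) → N ≤ w.length →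
    (∃ v : List ℕ, v ≠ [] ∧ v.length < m ∧ powW p v <:+: w) ∨
    (∃ us : Fin m → List ℕ, MDiv us ∧ catW us <:+: w) := by
  obtain ⟨N, hN⟩ := ShA_main m (max p (2 * m)) k
  refine ⟨N, fun w hw hl => ?_⟩
  rcases hN w hw hl with ⟨v, hv, h⟩ | h
  · obtain ⟨z, r, hz, hr, rfl, hp⟩ := ShP_root v hv
    rw [ShB_mul] at h
    have h1 : max p (2 * m) ≤ max p (2 * m) * r := Nat.le_mul_of_pos_right _ hr
    by_cases hm : z.length < m
    · left
      exact ⟨z, hz, hm, (ShB_le ((le_max_left _ _).trans h1) z).trans h⟩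
    · right
      obtain ⟨us, hu1, hu2⟩ := ShP_div m z (not_lt.1 hm) hp
      exact ⟨us, hu1, hu2.trans ((ShB_le ((le_max_right _ _).trans h1) z).trans h)⟩
  · exact Or.inr h

end Pool.Agent.H6.ALT
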