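import Pool.Agent.H6.ALT.ShT

/-!
# ALT L1 pack, ShT2: the coding of the T-alphabet exists

The set of T-words with bounds `s`, `N` is finite (letters `≤ a`, length `< s + N`).  On it `TLt` is a strict total
order: two different words are strongly comparable or one is a proper prefix of the other; transitivity:
`SG.trans`, prefixes. Enumerate the finite set in increasing order (`Finset.orderEmbOfFin` for a linear order built
from `TLt`, or induction on the cardinality of a finite set of words: remove the largest element; or sort by the
injective rank function `t ↦ number of T-words smaller than t`: this rank is strictly monotone because `TLt` is a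
strict total order, so `dec` = inverse of the rank function).
-/

set_option autoImplicit false

namespace Pool.Agent.H6.ALT

theorem ShT2_irrefl (t : List ℕ) : ¬ TLt t t := by
  rintro (h | ⟨r, hr, h⟩)
  · exact SG.irrefl t h
  · apply hr
    have h2 := congrArg List.length h
    rw [List.length_append] at h2
    exact List.eq_nil_of_length_eq_zero (by omega)

theorem ShT2_trans {t u v : List ℕ} (h1 : TLt t u) (h2 : TLt u v) : TLt t v := by
  rcases h1 with h1 | ⟨r, hr, rfl⟩
  · rcases h2 with h2 | ⟨r, hr, rfl⟩
    · exact Or.inl (SG.trans h2 h1)
    · obtain ⟨p, a, b, x, y, h3, rfl, hab⟩ := h1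
      rcases List.append_eq_append_iff.1 h3 with ⟨q, rfl, h4⟩ | ⟨q, rfl, h4⟩
      · -- p = v ++ q
        refine Or.inr ⟨q ++ b :: y, by simp, by simp⟩
      · -- v = p ++ q
        cases q with
        | nil =>
          refine Or.inr ⟨b :: y, by simp, by simp⟩
        | cons e q =>
          simp only [List.cons_append, List.cons.injEq] at h4
          obtain ⟨rfl, rfl⟩ := h4
          exact Or.inl ⟨p, a, b, q, y, rfl, rfl, hab⟩
  · rcases h2 with h2 | ⟨r', hr', rfl⟩
    · refine Or.inl ?_
      have := SG.append_right [] r h2
      simpa using this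
    · refine Or.inr ⟨r' ++ r, by simp [hr], by simp⟩

theorem ShT2_total (t u : List ℕ) : t = u ∨ TLt t u ∨ TLt u t := by
  induction t generalizing u with
  | nil =>
    cases u with
    | nil => exact Or.inl rfl
    | cons b u => exact Or.inr (Or.inr (Or.inr ⟨b :: u, by simp, by simp⟩))
  | cons a t ih =>
    cases u with
    | nil => exact Or.inr (Or.inl (Or.inr ⟨a :: t, by simp, by simp⟩))
    | cons b u =>
      rcases lt_trichotomy a b with h | h | h
      · exact Or.inr (Or.inl (Or.inl ⟨[], b, a, u, t, rfl, rfl, h⟩))
      · subst h
        rcases ih u with h | (h | ⟨r, hr, rfl⟩) | (h | ⟨r, hr, rfl⟩)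
        · exact Or.inl (by rw [h])
        · exact Or.inr (Or.inl (Or.inl (by simpa using SG.append_left [a] h)))
        · exact Or.inr (Or.inl (Or.inr ⟨r, hr, by simp⟩))
        · exact Or.inr (Or.inr (Or.inl (by simpa using SG.append_left [a] h)))
        · exact Or.inr (Or.inr (Or.inr ⟨r, hr, by simp⟩))
      · exact Or.inr (Or.inr (Or.inl ⟨[], a, b, t, u, rfl, rfl, h⟩))

/-- finite sets of words can be enumerated in increasing order -/
theorem ShT2_enum (F : Finset (List ℕ)) : ∃ (k : ℕ) (dec : ℕ → List ℕ),
    (∀ c < k, dec c ∈ F) ∧ (∀ t ∈ F, ∃ c < k, dec c = t) ∧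
      ∀ c c', c < k → c' < k → c < c' → TLt (dec c) (dec c') := by
  induction hn : F.card using Nat.strong_induction_on generalizing F with
  | _ n ih =>
    rcases F.eq_empty_or_nonempty with rfl | hF
    · exact ⟨0, fun _ => [], by simp, by simp, by simp⟩
    · -- a largest element
      obtain ⟨m, hm, hmax⟩ : ∃ m ∈ F, ∀ t ∈ F, t ≠ m → TLt t m := by
        clear ih hn
        induction hF using Finset.Nonempty.cons_induction with
        | singleton x => exact ⟨x, by simp, fun t ht hne => absurd (by simpa using ht) hne⟩
        | cons x F hx hF ih2 =>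
          obtain ⟨m, hm, hmax⟩ := ih2
          rcases ShT2_total x m with h | h | h
          · exact absurd (h ▸ hm) hx
          · refine ⟨m, by simp [hm], fun t ht hne => ?_⟩
            rw [Finset.mem_cons] at ht
            rcases ht with rfl | ht
            · exact h
            · exact hmax t ht hne
          · refine ⟨x, by simp, fun t ht hne => ?_⟩
            rw [Finset.mem_cons] at ht
            rcases ht with rfl | ht
            · exact absurd rfl hne
            · by_cases htm : t = m
              · rw [htm]; exact h
              · exact ShT2_trans (hmax t ht htm) h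
      have hc : (F.erase m).card < n := by
        rw [← hn]; exact Finset.card_erase_lt_of_mem hm
      obtain ⟨k, dec, h1, h2, h3⟩ := ih _ hc (F.erase m) rfl
      refine ⟨k + 1, fun c => if c < k then dec c else m, ?_, ?_, ?_⟩
      · intro c hc
        by_cases h : c < k
        · simp only [h, if_true]
          exact Finset.mem_of_mem_erase (h1 c h)
        · simp only [h, if_false]
          exact hm
      · intro t ht
        by_cases htm : t = m
        · exact ⟨k, by omega, by simp [htm]⟩
        · obtain ⟨c, hc, hct⟩ := h2 t (Finset.mem_erase.2 ⟨htm, ht⟩)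
          exact ⟨c, by omega, by simp [hc, hct]⟩
      · intro c c' hc hc' hcc
        have hck : c < k := by omega
        by_cases h : c' < k
        · simp only [hck, h, if_true]
          exact h3 c c' hck h hcc
        · simp only [hck, h, if_true, if_false]
          exact hmax _ (Finset.mem_of_mem_erase (h1 c hck)) (Finset.ne_of_mem_erase (h1 c hck))

theorem ShT2_finite (a s N : ℕ) : {t : List ℕ | IsT a s N t}.Finite := by
  have hfin : {l : List (Fin (a + 1)) | l.length < s + N}.Finite := List.finite_length_lt _ _
  refine (hfin.image (List.map Fin.val)).subset ?_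
  rintro t ⟨i, u, rfl, h1, h2, h3, h4, h5⟩
  have hall : ∀ x ∈ List.replicate i a ++ u, x < a + 1 := by
    intro x hx
    rw [List.mem_append] at hx
    rcases hx with hx | hx
    · rw [List.eq_of_mem_replicate hx]; omega
    · have := h5 x hx; omega
  refine ⟨(List.replicate i a ++ u).pmap (fun x hx => (⟨x, hx⟩ : Fin (a + 1))) hall, ?_, ?_⟩
  · simp only [Set.mem_ofPred_eq, List.length_pmap, List.length_append, List.length_replicate]
    omega
  · rw [List.map_pmap]
    simp

theorem ShT2_code (a s N : ℕ) : ∃ (k : ℕ) (dec : ℕ → List ℕ), TCode a s N k dec := by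
  obtain ⟨k, dec, h1, h2, h3⟩ := ShT2_enum (ShT2_finite a s N).toFinset
  refine ⟨k, dec, ⟨?_, ?_, h3⟩⟩
  · intro c hc
    have := h1 c hc
    rw [Set.Finite.mem_toFinset] at this
    exact this
  · intro t ht
    exact h2 t ((Set.Finite.mem_toFinset _).2 ht)

end Pool.Agent.H6.ALT
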