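import Pool.Agent.H6.ALT.ShT

/-!
# ALT L1 pack, ShT3: compatibility of the orders

`C = p ++ c :: x`, `C' = p ++ c' :: y`, `c' < c`. If `SG (dec c) (dec c')` use `SG.append_right` and `SG.append_left`. If
`dec c' = dec c ++ r`, `r ≠ []`: the letters of `r` are `< a` (the part of the T-word `dec c'` after a letter `< a` has
only letters `< a`, and the last letter of `dec c` is `< a`). The flattened words have the same length
(`hp`), so the rest `(x.map dec).flatten` is not empty, its first letter is `a` (T-words begin with `a`), and the common
prefix is `(p.map dec).flatten ++ dec c`.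
-/

set_option autoImplicit false

namespace Pool.Agent.H6.ALT

/-- the exponents of two T-like words, one of which is a prefix of the other, agree -/
private theorem ShT3_exp {a : ℕ} : ∀ (i i' : ℕ) (u u' r : List ℕ), u ≠ [] →
    (∀ x ∈ u, x < a) → (∀ x ∈ u', x < a) →
    List.replicate i' a ++ u' = List.replicate i a ++ u ++ r → u' = u ++ r := by
  intro i
  induction i with
  | zero =>
    intro i' u u' r hu h1 h2 h3
    cases u with
    | nil => exact absurd rfl hu
    | cons e u =>
      cases i' with
      | zero => simpa using h3
      | succ i' =>
        exfalso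
        simp only [List.replicate_succ, List.replicate_zero, List.nil_append,
          List.cons_append, List.cons.injEq] at h3
        have := h1 e (by simp)
        omega
  | succ i ih =>
    intro i' u u' r hu h1 h2 h3
    cases i' with
    | zero =>
      exfalso
      cases u' with
      | nil => simp [List.replicate_succ] at h3
      | cons e u' =>
        simp only [List.replicate_succ, List.replicate_zero, List.nil_append,
          List.cons_append, List.cons.injEq] at h3
        have := h2 e (by simp)
        omega
    | succ i' =>
      refine ih i' u u' r hu h1 h2 ?_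
      simpa [List.replicate_succ] using h3

theorem ShT3_compat {a s N k : ℕ} {dec : ℕ → List ℕ} (h : TCode a s N k dec) {C C' : List ℕ}
    (hC : ∀ c ∈ C, c < k) (hp : C'.Perm C) (hg : SG C C') :
    SG (C.map dec).flatten (C'.map dec).flatten := by
  obtain ⟨p, c, c', x, y, rfl, rfl, hcc⟩ := hg
  have hck : c < k := hC c (by simp)
  have hck' : c' < k := hC c' (hp.subset (by simp))
  have hlen : (((p ++ c' :: y).map dec).flatten).length = (((p ++ c :: x).map dec).flatten).length :=
    ((hp.map dec).flatten).length_eq
  simp only [List.map_append, List.map_cons, List.flatten_append, List.flatten_cons] at hlen ⊢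
  rcases h.lt c' c hck' hck hcc with hs | ⟨r, hr, hrr⟩
  · exact SG.append_left _ (SG.append_right _ _ hs)
  · obtain ⟨i, u, hu, -, -, hu0, -, hua⟩ := h.isT c hck
    obtain ⟨i', u', hu', -, -, -, -, hua'⟩ := h.isT c' hck'
    have he : u' = u ++ r := by
      refine ShT3_exp i i' u u' r hu0 hua hua' ?_
      rw [← hu', ← hu, hrr]
    have hra : ∀ z ∈ r, z < a := fun z hz => hua' z (by rw [he]; simp [hz])
    cases x with
    | nil =>
      exfalso
      rw [hrr] at hlen
      have : 0 < r.length := List.length_pos_iff.2 hr
      simp only [List.length_append, List.map_nil, List.flatten_nil, List.length_nil] at hlen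
      omega
    | cons d x =>
      obtain ⟨j, w, hw, hj, -, -, -, -⟩ := h.isT d (hC d (by simp))
      obtain ⟨j, rfl⟩ : ∃ j', j = j' + 1 := ⟨j - 1, by omega⟩
      cases r with
      | nil => exact absurd rfl hr
      | cons z r =>
        refine ⟨(p.map dec).flatten ++ dec c, a, z, List.replicate j a ++ w ++ (x.map dec).flatten,
          r ++ (y.map dec).flatten, ?_, ?_, hra z (by simp)⟩
        · simp [hw, List.replicate_succ]
        · rw [hrr]
          simp

end Pool.Agent.H6.ALT
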