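import Pool.Agent.H6.ALT.ShT1
import Pool.Agent.H6.ALT.ShT2
import Pool.Agent.H6.ALT.ShT3
import Pool.Agent.H6.ALT.ShB
import Pool.Agent.H6.ALT.Lead

/-!
# ALT L1 pack, NilSet: finitely many elements of the nil ideal generate a nilpotent associative algebra

Induction on `k`. `k = 0`: `N = 1` (no words). Step `k → k + 1`: `a = k` is the largest letter, `N'` the bound for `k`,
`(f a)^s = 0`. `ShT2_code` for `a, s, N'` gives `k'` and `dec`. For each nonempty word `V` in the codes `< k'` with `|V| < m` there is, by
`Lead_main`, an element `j_V ∈ I` with leading word `(V.map dec).flatten`; it is nilpotent; there are finitely many `V`, let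
`p` be a common exponent: `j_V^p = 0`. Let `N''` be the bound of `ShB_main m p k'`. Let `w` be a word in the letters `< k + 1`,
`|w| ≥ N' + s + N'' (s + N')`. Claim: `evw f w ∈ Sm R f w`. `ShT1_factor`: first case: `evw f (replicate s a) = 0`. Second case:
`evw f u = 0`. Third case: `C` the list of codes, `|C| ≥ N''`. If `powW p V` is an infix of `C`: `0 = j_V^p`, expand:
`evw f (powW p V^)` is in `Sm` (product rule: if `x_i - evw f u_i ∈ Sm R f u_i` then
`∏ x_i - evw f (u_1 ... u_r) ∈ Sm R f (u_1 ... u_r)`). If `Us` is `m`-divisible in codes: `j_i = j_{Us i}` (`Lead_main`), by `PId` the product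
`∏ j_i` is a combination of `∏ j_(σ i)`, `σ ≠ 1`, whose words are rearrangements of the flattened word and strongly smaller
(`ShT3_compat` and the product rule). Hence the claim (`Sm` is stable under multiplication by the values of a prefix and a
suffix: `SG.append_left`, `SG.append_right`). The rearrangements of `w` are finitely many and `SG` is a strict order, so
`evw f w = 0` by well-founded induction (all words with letters `< k + 1` of this length satisfy the claim).
-/

set_option autoImplicit false

namespace Pool.Agent.H6.ALT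

variable {R E : Type*} [CommRing R] [Ring E] [Algebra R E]

theorem NilSet_mulR (f : ℕ → E) (u v v' : List ℕ) (hv : v'.Perm v) {x : E} (hx : x ∈ Sm R f u) :
    x * evw f v' ∈ Sm R f (u ++ v) := by
  unfold Sm at hx
  induction hx using Submodule.span_induction with
  | mem x h =>
    obtain ⟨w', hp, hg, rfl⟩ := h
    rw [← evw_append]
    exact Submodule.subset_span ⟨w' ++ v', hp.append hv, hg.append_right _ _, rfl⟩
  | zero => rw [zero_mul]; exact Submodule.zero_mem _
  | add x y _ _ hx hy => rw [add_mul]; exact Submodule.add_mem _ hx hy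
  | smul r x _ hx => rw [smul_mul_assoc]; exact Submodule.smul_mem _ _ hx

theorem NilSet_mulL (f : ℕ → E) (u v : List ℕ) {y : E} (hy : y ∈ Sm R f v) :
    evw f u * y ∈ Sm R f (u ++ v) := by
  unfold Sm at hy
  induction hy using Submodule.span_induction with
  | mem x h =>
    obtain ⟨w', hp, hg, rfl⟩ := h
    rw [← evw_append]
    exact Submodule.subset_span ⟨u ++ w', (List.Perm.refl u).append hp, hg.append_left _, rfl⟩
  | zero => rw [mul_zero]; exact Submodule.zero_mem _
  | add x y _ _ hx hy => rw [mul_add]; exact Submodule.add_mem _ hx hy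
  | smul r x _ hx => rw [mul_smul_comm]; exact Submodule.smul_mem _ _ hx

theorem NilSet_mulM (f : ℕ → E) (u v : List ℕ) {x y : E} (hx : x ∈ Sm R f u) (hy : y ∈ Sm R f v) :
    x * y ∈ Sm R f (u ++ v) := by
  unfold Sm at hy
  induction hy using Submodule.span_induction with
  | mem y h =>
    obtain ⟨w', hp, hg, rfl⟩ := h
    exact NilSet_mulR f u v w' hp hx
  | zero => rw [mul_zero]; exact Submodule.zero_mem _
  | add x y _ _ hx hy => rw [mul_add]; exact Submodule.add_mem _ hx hy
  | smul r x _ hx => rw [mul_smul_comm]; exact Submodule.smul_mem _ _ hx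

/-- product rule -/
theorem NilSet_mul (f : ℕ → E) {u v : List ℕ} {x y : E} (hx : x - evw f u ∈ Sm R f u)
    (hy : y - evw f v ∈ Sm R f v) : x * y - evw f (u ++ v) ∈ Sm R f (u ++ v) := by
  have h : x * y - evw f (u ++ v) = (x - evw f u) * (y - evw f v) + (x - evw f u) * evw f v +
      evw f u * (y - evw f v) := by
    rw [evw_append]; noncomm_ring
  rw [h]
  exact Submodule.add_mem _ (Submodule.add_mem _ (NilSet_mulM f u v hx hy)
    (NilSet_mulR f u v v (List.Perm.refl v) hx)) (NilSet_mulL f u v hy)

theorem NilSet_self (f : ℕ → E) (u : List ℕ) : evw f u - evw f u ∈ Sm R f u := by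
  rw [sub_self]; exact Submodule.zero_mem _

theorem NilSet_pow (f : ℕ → E) {u : List ℕ} {x : E} (hx : x - evw f u ∈ Sm R f u) (p : ℕ) :
    x ^ p - evw f (powW p u) ∈ Sm R f (powW p u) := by
  induction p with
  | zero =>
    have : powW 0 u = [] := by simp [powW]
    rw [this, pow_zero, evw_nil, sub_self]
    exact Submodule.zero_mem _
  | succ p ih =>
    have : powW (p + 1) u = u ++ powW p u := by simp [powW, List.replicate_succ]
    rw [this, pow_succ']
    exact NilSet_mul f hx ih

theorem NilSet_ofFn (f : ℕ → E) {m : ℕ} (us : Fin m → List ℕ) (j : Fin m → E)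
    (h : ∀ i, j i - evw f (us i) ∈ Sm R f (us i)) :
    (List.ofFn j).prod - evw f (catW us) ∈ Sm R f (catW us) := by
  induction m with
  | zero =>
    have : catW us = [] := by simp [catW]
    rw [this, List.ofFn_zero, List.prod_nil, evw_nil, sub_self]
    exact Submodule.zero_mem _
  | succ m ih =>
    have : catW us = us 0 ++ catW (fun i : Fin m => us i.succ) := by
      simp [catW, List.ofFn_succ]
    rw [this, List.ofFn_succ, List.prod_cons]
    exact NilSet_mul f (h 0) (ih _ _ (fun i => h i.succ))

theorem NilSet_ctx (f : ℕ → E) (A W B : List ℕ) (h : evw f W ∈ Sm R f W) :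
    evw f (A ++ W ++ B) ∈ Sm R f (A ++ W ++ B) := by
  have h0 : (0 : E) - evw f W ∈ Sm R f W := by
    rw [zero_sub]; exact Submodule.neg_mem _ h
  have h1 := NilSet_mul f (NilSet_mul f (NilSet_self (R := R) f A) h0) (NilSet_self (R := R) f B)
  rw [mul_zero, zero_mul, zero_sub] at h1
  have h2 := Submodule.neg_mem _ h1
  rwa [neg_neg] at h2

theorem NilSet_ctx' (f : ℕ → E) {W w : List ℕ} (hi : W <:+: w) (h : evw f W ∈ Sm R f W) :
    evw f w ∈ Sm R f w := by
  obtain ⟨A, B, rfl⟩ := hi
  exact NilSet_ctx f A W B h

/-- smaller span -/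
theorem NilSet_mono (f : ℕ → E) {W W' : List ℕ} (hp : W'.Perm W) (hg : SG W W') {x : E}
    (hx : x - evw f W' ∈ Sm R f W') : x ∈ Sm R f W := by
  have h1 : evw f W' ∈ Sm R f W := Submodule.subset_span ⟨W', hp, hg, rfl⟩
  have h2 : Sm R f W' ≤ Sm R f W := by
    apply Submodule.span_le.2
    rintro y ⟨w', hp', hg', rfl⟩
    exact Submodule.subset_span ⟨w', hp'.trans hp, hg.trans hg', rfl⟩
  have h3 := Submodule.add_mem _ (h2 hx) h1
  rwa [sub_add_cancel] at h3

/-- well-founded induction -/
theorem NilSet_wf (f : ℕ → E) (w : List ℕ)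
    (h : ∀ w' : List ℕ, w'.Perm w → evw f w' ∈ Sm R f w') : evw f w = 0 := by
  classical
  have hfin : Finite {w' : List ℕ // w'.Perm w} := by
    have : {w' : List ℕ | w'.Perm w}.Finite := by
      apply (List.finite_toSet w.permutations).subset
      intro w' hw'
      exact List.mem_permutations.2 hw'
    exact this.to_subtype
  let r : {w' : List ℕ // w'.Perm w} → {w' : List ℕ // w'.Perm w} → Prop := fun x y => SG y.1 x.1
  have : IsTrans _ r := ⟨fun x y z hxy hyz => SG.trans hyz hxy⟩
  have : Std.Irrefl r := ⟨fun x => SG.irrefl x.1⟩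
  have hwf : WellFounded r := Finite.wellFounded_of_trans_of_irrefl r
  have key : ∀ x : {w' : List ℕ // w'.Perm w}, evw f x.1 = 0 := by
    intro x
    induction x using hwf.induction with
    | _ x ih =>
      have hx := h x.1 x.2
      have h0 : Sm R f x.1 ≤ ⊥ := by
        apply Submodule.span_le.2
        rintro y ⟨w', hp', hg', rfl⟩
        have := ih ⟨w', hp'.trans x.2⟩ hg'
        simpa using this
      simpa using h0 hx
  exact key ⟨w, List.Perm.refl w⟩

theorem NilSet_codes {k : ℕ} {dec : ℕ → List ℕ} (ts : List (List ℕ))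
    (h : ∀ t ∈ ts, ∃ c < k, dec c = t) : ∃ C : List ℕ, (∀ c ∈ C, c < k) ∧ C.map dec = ts := by
  induction ts with
  | nil => exact ⟨[], by simp, rfl⟩
  | cons t ts ih =>
    obtain ⟨C, hC, hC'⟩ := ih (fun t ht => h t (List.mem_cons_of_mem _ ht))
    obtain ⟨c, hc, hc'⟩ := h t List.mem_cons_self
    refine ⟨c :: C, ?_, ?_⟩
    · intro x hx
      rcases List.mem_cons.1 hx with rfl | hx
      · exact hc
      · exact hC x hx
    · rw [List.map_cons, hc', hC']

theorem NilSet_fin (m k : ℕ) : {V : List ℕ | V.length < m ∧ ∀ c ∈ V, c < k}.Finite := by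
  have h1 : {l : List (Fin k) | l.length < m}.Finite := List.finite_length_lt (Fin k) m
  apply (h1.image (List.map Fin.val)).subset
  rintro V ⟨hV, hc⟩
  refine ⟨V.pmap (fun c hc => (⟨c, hc⟩ : Fin k)) hc, ?_, ?_⟩
  · simpa using hV
  · rw [List.map_pmap]
    simp

theorem NilSet_len {a s N : ℕ} (ts : List (List ℕ)) (h : ∀ t ∈ ts, IsT a s N t) :
    ts.flatten.length ≤ ts.length * (s + N) := by
  induction ts with
  | nil => simp
  | cons t ts ih =>
    have h1 := ih (fun t ht => h t (List.mem_cons_of_mem _ ht))
    obtain ⟨i, u, rfl, _, hi, _, hu, _⟩ := h t List.mem_cons_self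
    rw [List.flatten_cons, List.length_append, List.length_cons, Nat.succ_mul, List.length_append,
      List.length_replicate]
    omega

theorem NilSet_flatten_catW {m : ℕ} (dec : ℕ → List ℕ) (us : Fin m → List ℕ) :
    ((catW us).map dec).flatten = catW (fun i => ((us i).map dec).flatten) := by
  induction m with
  | zero => simp [catW]
  | succ m ih =>
    have := ih (fun i => us i.succ)
    simp only [catW, List.ofFn_succ, List.flatten_cons, List.map_append, List.flatten_append] at this ⊢
    rw [this]

theorem NilSet_flatten_powW (dec : ℕ → List ℕ) (p : ℕ) (V : List ℕ) :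
    ((powW p V).map dec).flatten = powW p ((V.map dec).flatten) := by
  induction p with
  | zero => simp [powW]
  | succ p ih =>
    simp only [powW, List.replicate_succ, List.flatten_cons, List.map_append,
      List.flatten_append] at ih ⊢
    rw [ih]

theorem NilSet_main {J I : Submodule R E} (hS : JSys R E J I) {m : ℕ} (hP : PId R J m) (f : ℕ → E)
    (k : ℕ) (hf : ∀ x < k, f x ∈ I) :
    ∃ N : ℕ, ∀ w : List ℕ, (∀ x ∈ w, x < k) → N ≤ w.length → evw f w = 0 := by
  induction k with
  | zero =>
    refine ⟨1, fun w hw hN => ?_⟩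
    cases w with
    | nil => simp at hN
    | cons x w => exact absurd (hw x List.mem_cons_self) (by omega)
  | succ k ih =>
    obtain ⟨N', hN'⟩ := ih (fun x hx => hf x (by omega))
    obtain ⟨s, hs⟩ := hS.nil (f k) (hf k (by omega))
    obtain ⟨k', dec, hcode⟩ := ShT2_code k s N'
    -- Jordan elements
    have hJ : ∀ V : List ℕ, V ≠ [] → (∀ c ∈ V, c < k') →
        ∃ j ∈ I, j - evw f (V.map dec).flatten ∈ Sm R f (V.map dec).flatten := by
      intro V hV hc
      apply Lead_main hS f k (fun x hx => hf x (by omega)) (V.map dec) (by simpa using hV)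
      intro t ht
      obtain ⟨c, hcV, rfl⟩ := List.mem_map.1 ht
      obtain ⟨i, u, h1, h2, _, h4, _, h6⟩ := hcode.isT c (hc c hcV)
      exact ⟨i, u, h1, h2, h4, h6⟩
    have hJ' : ∀ V : List ℕ, ∃ q : ℕ, V ≠ [] → (∀ c ∈ V, c < k') →
        ∃ j ∈ I, j - evw f (V.map dec).flatten ∈ Sm R f (V.map dec).flatten ∧ j ^ q = 0 := by
      intro V
      by_cases hV : V ≠ [] ∧ ∀ c ∈ V, c < k'
      · obtain ⟨j, hj, hj'⟩ := hJ V hV.1 hV.2
        obtain ⟨q, hq⟩ := hS.nil j hj
        exact ⟨q, fun _ _ => ⟨j, hj, hj', hq⟩⟩
      · exact ⟨0, fun h1 h2 => absurd ⟨h1, h2⟩ hV⟩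
    choose q hq using hJ'
    obtain ⟨p0, hp0⟩ := ((NilSet_fin m k').image q).bddAbove
    obtain ⟨N2, hN2⟩ := ShB_main m (p0 + 1) k'
    have claim : ∀ w : List ℕ, (∀ x ∈ w, x < k + 1) → N' + s + N2 * (s + N') ≤ w.length →
        evw f w ∈ Sm R f w := by
      intro w hw hlen
      rcases ShT1_factor k s N' w (fun x hx => by have := hw x hx; omega) with h | h | h
      · apply NilSet_ctx' f h
        have : evw f (List.replicate s k) = 0 := by
          simp [evw, hs]
        rw [this]
        exact Submodule.zero_mem _
      · obtain ⟨u, hu, hu', hui⟩ := h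
        apply NilSet_ctx' f hui
        rw [hN' u hu' hu.ge]
        exact Submodule.zero_mem _
      · obtain ⟨w0, ts, w1, rfl, hw0, hts, hw1⟩ := h
        obtain ⟨C, hC, rfl⟩ := NilSet_codes (dec := dec) (k := k') ts
          (fun t ht => hcode.surj t (hts t ht))
        have hCl : N2 ≤ C.length := by
          by_contra hcon
          push Not at hcon
          have h1 := NilSet_len _ hts
          rw [List.length_map] at h1
          have h2 : C.length * (s + N') ≤ N2 * (s + N') := Nat.mul_le_mul_right _ hcon.le
          rw [List.length_append, List.length_append] at hlen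
          omega
        have hinf : (C.map dec).flatten <:+: w0 ++ (C.map dec).flatten ++ w1 := ⟨w0, w1, rfl⟩
        apply NilSet_ctx' f hinf
        rcases hN2 C hC hCl with ⟨V, hV, hVm, hVi⟩ | ⟨us, hus, hui⟩
        · obtain ⟨A, B, rfl⟩ := hVi
          have hVc : ∀ c ∈ V, c < k' := by
            intro c hc
            apply hC c
            apply List.mem_append_left
            apply List.mem_append_right
            simp only [powW, List.replicate_succ, List.flatten_cons]
            exact List.mem_append_left _ hc
          have hinf2 : ((powW (p0 + 1) V).map dec).flatten <:+: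
              ((A ++ powW (p0 + 1) V ++ B).map dec).flatten := by
            simp only [List.map_append, List.flatten_append]
            exact ⟨_, _, rfl⟩
          apply NilSet_ctx' f hinf2
          rw [NilSet_flatten_powW]
          obtain ⟨j, hj, hj', hjq⟩ := hq V hV hVc
          have hqp : q V ≤ p0 := hp0 ⟨V, ⟨hVm, hVc⟩, rfl⟩
          have hj0 : j ^ (p0 + 1) = 0 := pow_eq_zero_of_le (by omega) hjq
          have h1 := NilSet_pow f hj' (p0 + 1)
          rw [hj0, zero_sub] at h1
          have h2 := Submodule.neg_mem _ h1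
          rwa [neg_neg] at h2
        · obtain ⟨A, B, rfl⟩ := hui
          have husc : ∀ i, ∀ c ∈ us i, c < k' := by
            intro i c hc
            apply hC c
            apply List.mem_append_left
            apply List.mem_append_right
            simp only [catW, List.mem_flatten]
            exact ⟨us i, (List.mem_ofFn' _ _).2 ⟨i, rfl⟩, hc⟩
          have hinf2 : ((catW us).map dec).flatten <:+:
              ((A ++ catW us ++ B).map dec).flatten := by
            simp only [List.map_append, List.flatten_append]
            exact ⟨_, _, rfl⟩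
          apply NilSet_ctx' f hinf2
          have hch : ∀ i, ∃ j ∈ I, j - evw f ((us i).map dec).flatten ∈
              Sm R f ((us i).map dec).flatten := fun i => hJ (us i) (hus.1 i) (husc i)
          choose j hj hj' using hch
          have h1 := NilSet_ofFn f (fun i => ((us i).map dec).flatten) j hj'
          rw [← NilSet_flatten_catW] at h1
          have h2 : (List.ofFn j).prod ∈ Sm R f ((catW us).map dec).flatten := by
            have h3 := hP j (fun i => hS.le (hj i))
            refine (Submodule.span_le.2 ?_) h3
            rintro y ⟨σ, hσ, rfl⟩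
            have h4 := NilSet_ofFn f (fun i => ((us (σ i)).map dec).flatten) (j ∘ σ)
              (fun i => hj' (σ i))
            have h5 := NilSet_flatten_catW dec (us ∘ σ)
            simp only [Function.comp_apply] at h5
            rw [← h5] at h4
            have hperm : (catW (us ∘ σ)).Perm (catW us) := by
              unfold catW
              exact List.Perm.flatten (Equiv.Perm.ofFn_comp_perm σ us)
            have hg : SG (catW us) (catW (us ∘ σ)) := hus.2 σ hσ
            have hCu : ∀ c ∈ catW us, c < k' := by
              intro c hc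
              apply hC c
              apply List.mem_append_left
              exact List.mem_append_right _ hc
            exact NilSet_mono f (List.Perm.flatten (hperm.map dec)) (ShT3_compat hcode hCu hperm hg) h4
          have h6 := Submodule.sub_mem _ h2 h1
          rwa [sub_sub_cancel] at h6
    refine ⟨N' + s + N2 * (s + N'), fun w hw hlen => ?_⟩
    apply NilSet_wf (R := R) f w
    intro w' hw'
    apply claim w' (fun x hx => hw x (hw'.mem_iff.1 hx))
    rw [hw'.length_eq]
    exact hlen

end Pool.Agent.H6.ALT
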