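import Pool.Agent.H6.ALT.LHv
import Pool.Agent.H6.ALT.NilSet

/-!
# ALT L1 pack, LSmall: long runs of small slots

Blocks: `s :: W`, `s` special, `W` ordinary, `dgw W < c`. There are finitely many blocks (`ι` finite, degrees of letters `≥ 1`). For a
block with `W = w_1 ... w_l` put `j = ((ev s ∘ ev w_1) ∘ ...) ∘ ev w_l ∈ I`; its leading word is `s w_1 ... w_l`, all other words begin with an
ordinary letter, so their first slot is heavier than `0`: `j - val (s :: W) ∈ Hv (s :: W)`. Number the blocks by `f : ℕ → E`,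
`f x` = the element `j` of the block number `x < k`. By `NilSet_main` there is `N` such that all products of `N` elements `j` vanish. With
`K = N` and `Hv_prod`: `0 - val (flatten) ∈ Hv (flatten)`.
-/

set_option autoImplicit false

namespace Pool.Agent.H6.ALT

namespace LSys

variable {R E : Type*} [CommRing R] [Ring E] [Algebra R E] {J I : Submodule R E} {ι : Type}
  (S : LSys R J I ι)

private theorem LSmall_ds (w : List ι) : ∃ e r, S.ds w = e :: r := by
  induction w with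
  | nil => exact ⟨0, [], rfl⟩
  | cons i w ih =>
    obtain ⟨e, r, h⟩ := ih
    by_cases hi : S.tc i = 0
    · exact ⟨S.dg i + e, r, by rw [ds, if_pos hi, h, addHead]⟩
    · exact ⟨0, S.ds w, by rw [ds, if_neg hi]⟩

private theorem LSmall_left {s x : ι} (hs : S.tc s ≠ 0) (hx : S.tc x = 0) (w : List ι) {j : E}
    (hj : j - S.val (s :: w) ∈ S.Hv (s :: w)) : S.ev x * j ∈ S.Hv (s :: w ++ [x]) := by
  have h1 : j ∈ Submodule.span R {y | ∃ ω : List ι, ω.Perm (s :: w) ∧ y = S.val ω} := by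
    have h2 : j - S.val (s :: w) ∈
        Submodule.span R {y | ∃ ω : List ι, ω.Perm (s :: w) ∧ y = S.val ω} := by
      refine Submodule.span_mono ?_ hj
      rintro y ⟨ω, h3, _, h4⟩
      exact ⟨ω, h3, h4⟩
    have h3 : S.val (s :: w) ∈
        Submodule.span R {y | ∃ ω : List ι, ω.Perm (s :: w) ∧ y = S.val ω} :=
      Submodule.subset_span ⟨_, List.Perm.refl _, rfl⟩
    have h4 := Submodule.add_mem _ h2 h3
    rwa [sub_add_cancel] at h4
  have h2 : Submodule.span R {y | ∃ ω : List ι, ω.Perm (s :: w) ∧ y = S.val ω} ≤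
      (S.Hv (s :: w ++ [x])).comap (LinearMap.mulLeft R (S.ev x)) := by
    rw [Submodule.span_le]
    rintro y ⟨ω, h3, rfl⟩
    show S.ev x * S.val ω ∈ S.Hv (s :: w ++ [x])
    rw [← S.val_cons]
    refine Submodule.subset_span ⟨x :: ω, ?_, ?_, rfl⟩
    · exact (h3.cons x).trans (List.perm_append_singleton x (s :: w)).symm
    · obtain ⟨e, r, h4⟩ := LSmall_ds S ω
      refine ⟨[], S.dg x + e, 0, r, S.ds (w ++ [x]), ?_, ?_, ?_⟩
      · rw [ds, if_pos hx, h4, addHead, List.nil_append]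
      · rw [List.cons_append, ds, if_neg hs, List.nil_append]
      · have := S.hdg x
        omega
  exact h2 h1

theorem LSmall_block (hS : JSys R E J I) (s : ι) (hs : S.tc s ≠ 0) (w : List ι) (hw : S.Ord w) :
    ∃ j ∈ I, j - S.val (s :: w) ∈ S.Hv (s :: w) := by
  induction w using List.reverseRecOn with
  | nil =>
    refine ⟨S.ev s, S.evI s hs, ?_⟩
    rw [S.val_cons, S.val_nil, mul_one, sub_self]
    exact Submodule.zero_mem _
  | append_singleton w x ih =>
    obtain ⟨j, hj, h1⟩ := ih fun i hi => hw i (List.mem_append_left _ hi)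
    have hx : S.tc x = 0 := hw x (by simp)
    refine ⟨j * S.ev x + S.ev x * j, hS.ijord j hj _ (S.evJ x), ?_⟩
    have h2 : (j - S.val (s :: w)) * S.val [x] ∈ S.Hv (s :: w ++ [x]) := by
      have := S.Hv_ctx [] [x] h1
      rwa [S.val_nil, one_mul, List.nil_append] at this
    have h3 := S.LSmall_left hs hx w h1
    have h4 : j * S.ev x + S.ev x * j - S.val (s :: (w ++ [x])) =
        (j - S.val (s :: w)) * S.val [x] + S.ev x * j := by
      have h5 : S.val (s :: (w ++ [x])) = S.val (s :: w) * S.val [x] := by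
        rw [← S.val_append]
        rfl
      have h6 : S.val [x] = S.ev x := by rw [S.val_cons, S.val_nil, mul_one]
      rw [h5, h6, sub_mul]
      abel
    rw [h4]
    exact Submodule.add_mem _ h2 h3

theorem LSmall_main [Finite ι] (hS : JSys R E J I) {m : ℕ} (hP : PId R J m) (c : ℕ) :
    ∃ K : ℕ, ∀ bl : List (ι × List ι), bl.length = K →
      (∀ B ∈ bl, S.tc B.1 ≠ 0 ∧ S.Ord B.2 ∧ S.dgw B.2 < c) →
      S.val (bl.map (fun B => B.1 :: B.2)).flatten ∈ S.Hv (bl.map (fun B => B.1 :: B.2)).flatten := by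
  classical
  have hfin : {B : ι × List ι | S.tc B.1 ≠ 0 ∧ S.Ord B.2 ∧ S.dgw B.2 < c}.Finite := by
    have h1 : {l : List ι | l.length < c}.Finite := List.finite_length_lt ι c
    refine (Set.finite_univ.prod h1).subset ?_
    rintro B ⟨_, _, h4⟩
    refine ⟨Set.mem_univ _, ?_⟩
    have h5 : B.2.length ≤ S.dgw B.2 := by
      rw [dgw]
      have h6 : ∀ l : List ι, l.length ≤ (l.map S.dg).sum := by
        intro l
        induction l with
        | nil => simp
        | cons i l ih =>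
          have := S.hdg i
          simp only [List.length_cons, List.map_cons, List.sum_cons]
          omega
      exact h6 _
    exact lt_of_le_of_lt h5 h4
  have hg : ∀ B : ι × List ι, ∃ j : E, (S.tc B.1 ≠ 0 ∧ S.Ord B.2 ∧ S.dgw B.2 < c) →
      j ∈ I ∧ j - S.val (B.1 :: B.2) ∈ S.Hv (B.1 :: B.2) := by
    intro B
    by_cases hB : S.tc B.1 ≠ 0 ∧ S.Ord B.2 ∧ S.dgw B.2 < c
    · obtain ⟨j, h1, h2⟩ := S.LSmall_block hS B.1 hB.1 B.2 hB.2.1
      exact ⟨j, fun _ => ⟨h1, h2⟩⟩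
    · exact ⟨0, fun h => absurd h hB⟩
  choose g hg using hg
  obtain ⟨k, e, he⟩ : ∃ (k : ℕ) (e : ι × List ι → ℕ),
      (∀ B, (S.tc B.1 ≠ 0 ∧ S.Ord B.2 ∧ S.dgw B.2 < c) → e B < k) ∧
      ∀ B B', (S.tc B.1 ≠ 0 ∧ S.Ord B.2 ∧ S.dgw B.2 < c) →
        (S.tc B'.1 ≠ 0 ∧ S.Ord B'.2 ∧ S.dgw B'.2 < c) → e B = e B' → B = B' := by
    have : Finite {B : ι × List ι | S.tc B.1 ≠ 0 ∧ S.Ord B.2 ∧ S.dgw B.2 < c} := hfin
    obtain ⟨k, ⟨e⟩⟩ := Finite.exists_equiv_fin
      {B : ι × List ι | S.tc B.1 ≠ 0 ∧ S.Ord B.2 ∧ S.dgw B.2 < c}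
    refine ⟨k, fun B => if h : (S.tc B.1 ≠ 0 ∧ S.Ord B.2 ∧ S.dgw B.2 < c) then
      ((e ⟨B, h⟩ : Fin k) : ℕ) else 0, ?_, ?_⟩
    · intro B hB
      beta_reduce
      rw [dif_pos hB]
      exact (e ⟨B, hB⟩).2
    · intro B B' hB hB' h
      beta_reduce at h
      rw [dif_pos hB, dif_pos hB'] at h
      exact congrArg Subtype.val (e.injective (Fin.ext h))
  have hf : ∃ f : ℕ → E, (∀ x, f x ∈ I) ∧
      ∀ B, (S.tc B.1 ≠ 0 ∧ S.Ord B.2 ∧ S.dgw B.2 < c) → f (e B) = g B := by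
    refine ⟨fun x => if h : ∃ B, (S.tc B.1 ≠ 0 ∧ S.Ord B.2 ∧ S.dgw B.2 < c) ∧ e B = x then
      g h.choose else 0, ?_, ?_⟩
    · intro x
      by_cases h : ∃ B, (S.tc B.1 ≠ 0 ∧ S.Ord B.2 ∧ S.dgw B.2 < c) ∧ e B = x
      · simp only [dif_pos h]
        exact (hg _ h.choose_spec.1).1
      · simp only [dif_neg h]
        exact Submodule.zero_mem _
    · intro B hB
      have h : ∃ B', (S.tc B'.1 ≠ 0 ∧ S.Ord B'.2 ∧ S.dgw B'.2 < c) ∧ e B' = e B := ⟨B, hB, rfl⟩
      simp only [dif_pos h]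
      rw [he.2 _ B h.choose_spec.1 hB h.choose_spec.2]
  obtain ⟨f, hf1, hf2⟩ := hf
  obtain ⟨N, hN⟩ := NilSet_main hS hP f k fun x _ => hf1 x
  refine ⟨N, fun bl hbl hB => ?_⟩
  have h1 := S.Hv_prod (bl.map fun B => (f (e B), B.1 :: B.2)) (by
    intro z hz
    obtain ⟨B, hB1, rfl⟩ := List.mem_map.1 hz
    show f (e B) - S.val (B.1 :: B.2) ∈ S.Hv (B.1 :: B.2)
    rw [hf2 B (hB B hB1)]
    exact (hg B (hB B hB1)).2)
  have h2 : ((bl.map fun B => (f (e B), B.1 :: B.2)).map Prod.fst).prod = 0 := by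
    have h3 := hN (bl.map e) (by
      intro x hx
      obtain ⟨B, hB1, rfl⟩ := List.mem_map.1 hx
      exact he.1 B (hB B hB1)) (by rw [List.length_map, hbl])
    rw [evw, List.map_map] at h3
    rw [List.map_map]
    exact h3
  have h4 : (bl.map fun B => (f (e B), B.1 :: B.2)).map Prod.snd = bl.map (fun B => B.1 :: B.2) := by
    rw [List.map_map]
    rfl
  rw [h2, h4, zero_sub] at h1
  exact (Submodule.neg_mem_iff _).1 h1

end LSys

end Pool.Agent.H6.ALT
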