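import Pool.Agent.H6.ALT.LChain
import Pool.Agent.H6.ALT.LSmall
import Pool.Agent.H6.ALT.LInd
import Pool.Agent.H6.ALT.LScale

/-!
# ALT L1 pack, LMain: bound for the number of special letters

Every word is `w = W_0 ++ (bl.map (fun B => B.1 :: B.2)).flatten` with `W_0` ordinary, the blocks `B = (s, W)`, `s` special, `W` ordinary,
`bl.length = ns w`. Apply `LScale_main` to `e = bl.map (fun B => dgw B.2)`, `C, Lam` from `LChain_main`, `K c` from `LSmall_main`. First case:
`LSmall_main`, `Hv_ctx`, `Hv_le_Low`. Second case: the blocks of `e` correspond to a decomposition of `bl`; `G_j` = the ordinary word of the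
block with entry `E_j`, `b_j` = the flattened blocks of `r_j` followed by the special letter of the block `E_(j+1)` (if `r_j` is empty:
`b_j = [s]`): it begins and ends with a special letter, `length b_j ≤ 1 + ∑ (x + 1)` over `r_j` (`length W ≤ dgw W`). `LChain_main` and `Low_ctx`
(`p` = everything before `G_0`). So `val w ∈ Low w` for `ns w ≥ K0`; then `LInd_main` with `r ≥ 1` a bound for `tc` (`ι` finite).
-/

set_option autoImplicit false

namespace Pool.Agent.H6.ALT

namespace LSys

variable {R E : Type*} [CommRing R] [Ring E] [Algebra R E] {J I : Submodule R E} {ι : Type}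
  (S : LSys R J I ι)

/-- the word of a list of blocks -/
private def LMain_fl (bl : List (ι × List ι)) : List ι := (bl.map (fun B => B.1 :: B.2)).flatten

private theorem LMain_fl_nil : LMain_fl ([] : List (ι × List ι)) = [] := rfl

private theorem LMain_fl_cons (B : ι × List ι) (bl : List (ι × List ι)) :
    LMain_fl (B :: bl) = B.1 :: (B.2 ++ LMain_fl bl) := by simp [LMain_fl]

private theorem LMain_fl_append (a b : List (ι × List ι)) :
    LMain_fl (a ++ b) = LMain_fl a ++ LMain_fl b := by simp [LMain_fl]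

private theorem LMain_catW_zero {α : Type*} (us : Fin 0 → List α) : catW us = [] := by
  simp [catW]

private theorem LMain_catW_succ {α : Type*} {m : ℕ} (us : Fin (m + 1) → List α) :
    catW us = us 0 ++ catW (fun i => us i.succ) := by
  simp [catW, List.ofFn_succ]

private theorem LMain_fl_catW : ∀ {m : ℕ} (vs : Fin m → List (ι × List ι)),
    LMain_fl (catW vs) = catW (fun i => LMain_fl (vs i)) := by
  intro m
  induction m with
  | zero => intro vs; rw [LMain_catW_zero, LMain_catW_zero, LMain_fl_nil]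
  | succ m ih => intro vs; rw [LMain_catW_succ, LMain_catW_succ, LMain_fl_append, ih]

private theorem LMain_lift {α β : Type*} (f : α → β) : ∀ {m : ℕ} (us : Fin m → List β) (l : List α),
    l.map f = catW us → ∃ vs : Fin m → List α, l = catW vs ∧ ∀ i, (vs i).map f = us i := by
  intro m
  induction m with
  | zero =>
    intro us l h
    rw [LMain_catW_zero, List.map_eq_nil_iff] at h
    exact ⟨fun i => i.elim0, by rw [LMain_catW_zero, h], fun i => i.elim0⟩
  | succ m ih =>
    intro us l h
    rw [LMain_catW_succ, List.map_eq_append_iff] at h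
    obtain ⟨l1, l2, rfl, h1, h2⟩ := h
    obtain ⟨vs, rfl, hvs⟩ := ih _ _ h2
    refine ⟨Fin.cons l1 vs, ?_, ?_⟩
    · rw [LMain_catW_succ]; simp
    · intro i
      refine Fin.cases ?_ (fun i => ?_) i
      · simpa using h1
      · simpa using hvs i

private theorem LMain_dec (w : List ι) : ∃ (W0 : List ι) (bl : List (ι × List ι)),
    w = W0 ++ LMain_fl bl ∧ S.Ord W0 ∧ (∀ B ∈ bl, S.tc B.1 ≠ 0 ∧ S.Ord B.2) ∧ bl.length = S.ns w := by
  induction w with
  | nil => exact ⟨[], [], rfl, by simp [Ord], by simp, by simp [ns]⟩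
  | cons i w ih =>
    obtain ⟨W0, bl, hw, h0, hb, hl⟩ := ih
    by_cases hi : S.tc i = 0
    · refine ⟨i :: W0, bl, by rw [hw]; simp, ?_, hb, by simp [ns, hi, hl]⟩
      intro j hj
      rcases List.mem_cons.1 hj with rfl | hj
      · exact hi
      · exact h0 j hj
    · refine ⟨[], (i, W0) :: bl, by rw [LMain_fl_cons, hw]; simp, by simp [Ord], ?_, by simp [ns, hi, hl]⟩
      intro B hB
      rcases List.mem_cons.1 hB with rfl | hB
      · exact ⟨hi, h0⟩
      · exact hb B hB

private theorem LMain_len_le_dgw (w : List ι) : w.length ≤ S.dgw w := by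
  induction w with
  | nil => simp
  | cons i w ih =>
    have h := S.hdg i
    simp only [dgw, List.map_cons, List.sum_cons, List.length_cons] at ih ⊢
    omega

private theorem LMain_fl_length (bl : List (ι × List ι)) :
    (LMain_fl bl).length ≤ ((bl.map (fun B => S.dgw B.2)).map (· + 1)).sum := by
  induction bl with
  | nil => simp [LMain_fl_nil]
  | cons B bl ih =>
    have h := S.LMain_len_le_dgw B.2
    rw [LMain_fl_cons]
    simp only [List.map_cons, List.sum_cons, List.length_cons, List.length_append] at ih ⊢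
    omega

private theorem LMain_low [Finite ι] (hS : JSys R E J I) {m : ℕ} (hP : PId R J m) (hO : S.OF) :
    ∃ K0 : ℕ, ∀ w : List ι, K0 ≤ S.ns w → S.val w ∈ S.Low w := by
  obtain ⟨C, Lam, hC⟩ := S.LChain_main hS hP hO
  choose K hK using fun c => S.LSmall_main hS hP c
  obtain ⟨K0, hK0⟩ := LScale_main C Lam m K
  refine ⟨K0, fun w hw => ?_⟩
  obtain ⟨W0, bl, hweq, h0, hb, hl⟩ := S.LMain_dec w
  rcases hK0 (bl.map (fun B => S.dgw B.2)) (by rw [List.length_map, hl]; exact hw) with
    ⟨c, p, r, q, he, hr, hx⟩ | ⟨p, q, Es, r, he, hE0, hE⟩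
  · -- a long run of small slots
    rw [List.append_assoc, List.map_eq_append_iff] at he
    obtain ⟨p', t, rfl, hp', ht⟩ := he
    rw [List.map_eq_append_iff] at ht
    obtain ⟨r', q', rfl, hr', hq'⟩ := ht
    have h1 := hK c r' (by rw [← hr, ← hr', List.length_map]) (by
      intro B hB
      have h2 := hb B (by simp [hB])
      refine ⟨h2.1, h2.2, ?_⟩
      apply hx
      rw [← hr']
      exact List.mem_map_of_mem hB)
    have h2 := S.Hv_le_Low _ (S.Hv_ctx (W0 ++ LMain_fl p') (LMain_fl q') h1)
    have h3 : w = W0 ++ LMain_fl p' ++ (r'.map (fun B => B.1 :: B.2)).flatten ++ LMain_fl q' := by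
      rw [hweq]
      simp [LMain_fl]
    rw [h3]
    simp only [val_append] at h2 ⊢
    exact h2
  · -- a chain of heavy slots
    rw [List.append_assoc, List.append_assoc, List.map_eq_append_iff] at he
    obtain ⟨p', t, rfl, hp', ht⟩ := he
    rw [List.map_eq_append_iff] at ht
    obtain ⟨a, t, rfl, ha, ht⟩ := ht
    rw [List.map_eq_append_iff] at ht
    obtain ⟨t, q', rfl, ht, hq'⟩ := ht
    obtain ⟨B0, rfl, hB0⟩ : ∃ B0, a = [B0] ∧ S.dgw B0.2 = Es 0 := by
      rw [List.map_eq_singleton_iff] at ha
      obtain ⟨B0, h1, h2⟩ := ha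
      exact ⟨B0, h1, h2⟩
    obtain ⟨vs, rfl, hvs⟩ := LMain_lift _ _ _ ht
    have hdec : ∀ i : Fin m, ∃ (rr : List (ι × List ι)) (B : ι × List ι), vs i = rr ++ [B] ∧
        rr.map (fun B => S.dgw B.2) = r i ∧ S.dgw B.2 = Es i.succ := by
      intro i
      have h1 := hvs i
      rw [List.map_eq_append_iff] at h1
      obtain ⟨rr, b, h2, h3, h4⟩ := h1
      rw [List.map_eq_singleton_iff] at h4
      obtain ⟨B, h5, h6⟩ := h4
      exact ⟨rr, B, by rw [h2, h5], h3, h6⟩
    choose rr B hv hrr hB using hdec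
    have hmem : ∀ i, ∀ D ∈ vs i, S.tc D.1 ≠ 0 ∧ S.Ord D.2 := by
      intro i D hD
      apply hb
      have : D ∈ catW vs := by
        unfold catW
        rw [List.mem_flatten]
        exact ⟨vs i, by simp, hD⟩
      simp [this]
    have hB' : ∀ i, S.tc (B i).1 ≠ 0 ∧ S.Ord (B i).2 := fun i => hmem i _ (by rw [hv i]; simp)
    have hrr' : ∀ i, ∀ D ∈ rr i, S.tc D.1 ≠ 0 ∧ S.Ord D.2 := fun i D hD =>
      hmem i _ (by rw [hv i]; simp [hD])
    have hB0' : S.tc B0.1 ≠ 0 ∧ S.Ord B0.2 := hb B0 (by simp)
    have h1 := hC (Fin.cons B0.2 (fun i => (B i).2)) (fun i => LMain_fl (rr i) ++ [(B i).1]) (by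
        intro i
        refine Fin.cases ?_ (fun i => ?_) i
        · simpa using hB0'.2
        · simpa using (hB' i).2) (by
        intro i
        rcases hri : rr i with _ | ⟨D, l⟩
        · exact ⟨(B i).1, [], (hB' i).1, by simp [LMain_fl_nil]⟩
        · refine ⟨D.1, D.2 ++ LMain_fl l ++ [(B i).1], (hrr' i D (by rw [hri]; simp)).1, ?_⟩
          rw [LMain_fl_cons]; simp) (by
        intro i
        exact ⟨(B i).1, LMain_fl (rr i), (hB' i).1, rfl⟩) (by
        simpa [hB0] using hE0) (by
        intro i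
        have h2 := hE i
        have h3 := S.LMain_fl_length (rr i)
        rw [hrr i] at h3
        simp only [Fin.cons_succ, List.length_append, List.length_cons, List.length_nil]
        rw [hB i]
        refine le_trans ?_ h2
        have h4 : (LMain_fl (rr i)).length + (0 + 1) ≤ 1 + ((r i).map (· + 1)).sum := by omega
        exact Nat.add_le_add_left (Nat.mul_le_mul_left _ h4) _)
    simp only [Fin.cons_zero, Fin.cons_succ] at h1
    have h2 := S.Low_ctx (W0 ++ LMain_fl p' ++ [B0.1]) (LMain_fl q') h1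
    have h3 : LMain_fl (catW vs) = catW (fun i => LMain_fl (rr i) ++ [(B i).1] ++ (B i).2) := by
      rw [LMain_fl_catW]
      congr 1
      funext i
      rw [hv i, LMain_fl_append, LMain_fl_cons, LMain_fl_nil]
      simp
    have h4 : w = W0 ++ LMain_fl p' ++ [B0.1] ++
        (B0.2 ++ catW (fun i => LMain_fl (rr i) ++ [(B i).1] ++ (B i).2)) ++ LMain_fl q' := by
      rw [hweq, ← h3]
      simp [LMain_fl_append, LMain_fl_cons]
    rw [h4]
    simp only [val_append] at h2 ⊢
    exact h2

theorem LMain_main [Finite ι] (hS : JSys R E J I) {m : ℕ} (hP : PId R J m) (hO : S.OF) :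
    ∃ L0 : ℕ, ∀ w : List ι, L0 ≤ S.tcw w → S.val w = 0 := by
  obtain ⟨K0, hK0⟩ := S.LMain_low hS hP hO
  obtain ⟨M, hM⟩ := Finite.exists_le S.tc
  exact ⟨K0 * max 1 M, S.LInd_main K0 (max 1 M) (le_max_left _ _)
    (fun i => (hM i).trans (le_max_right _ _)) hK0⟩

end LSys

end Pool.Agent.H6.ALT
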