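import Pool.Agent.H6.ALT.LHv

/-!
# ALT L1 pack, LBuf: the buffer lemma

Build the Jordan element from inside. Write `b = b' ++ [s]`, `s` special. Start with `ev s ∈ I`, word `[s]`. Append the letters
`c` of `g` on the right: `ω ∘ ev c = ω c + c ω`, new leading word `w c`; a word `c ω'` has first slot `dg c + (first slot of ω') ≥
dg c + (first slot of w)`, heavier than `w c` (first slot of `w c` is the first slot of `w`, because `w` contains a special letter); a word
`ω' c` with `ω'` heavier than `w`: `ds_app`. Then for the letters `P` of `b'`, from the last to the first: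
`{P, ω, x^(Q+1)} = P ω x^(Q+1) + x^(Q+1) ω P`, leading word `P w x^(Q+1)`: words `P ω' x^(Q+1)`: `ds_ctx`; words `x^(Q+1) ω' P`: if `P` is
special, the first slot of `P w ..` is `0`, and here it is `≥ Q + 1`; if `P` is ordinary the first slot of `P w ..` is
`dg P + (first slot of w)`, here `≥ Q + 1 + (first slot of w)`, and `dg P ≤ Q`. Here `x^(Q+1)` is in `J` (powers: `a^(i+2) = a a^i a`).
Then `{y^β, ω, x^(β+1)}` if `β ≥ 1` (for `β = 0` nothing). Finally `ω ∘ x^h` with the remaining `h` (nothing for `h = 0`). All elements are in `I`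
(`ijord`, `itrip'`). Permutations of the letters: clear.
-/

set_option autoImplicit false

namespace Pool.Agent.H6.ALT

namespace LSys

variable {R E : Type*} [CommRing R] [Ring E] [Algebra R E] {J I : Submodule R E} {ι : Type}
  (S : LSys R J I ι)

private theorem LBuf_val_single (i : ι) : S.val [i] = S.ev i := by
  rw [val_cons, val_nil, mul_one]

private theorem LBuf_perm_ctx {ω w : List ι} (h : ω.Perm w) (p q : List ι) :
    (q ++ ω ++ p).Perm (p ++ w ++ q) := by
  have h1 : (q ++ ω ++ p).Perm (q ++ w ++ p) := (h.append_left q).append_right p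
  refine h1.trans ?_
  have h2 : (q ++ (w ++ p)).Perm ((w ++ p) ++ q) := List.perm_append_comm
  have h3 : (w ++ p).Perm (p ++ w) := List.perm_append_comm
  rw [List.append_assoc]
  exact h2.trans (h3.append_right q)

private theorem LBuf_head (ω p : List ι) (h : S.ns ω ≠ 0) :
    ∃ r, S.ds (ω ++ p) = (S.ds ω).headD 0 :: r := by
  obtain ⟨x, y, e, f, h1, h2, h3⟩ := S.ds_append ω p
  have h4 := S.ds_length ω
  cases x with
  | nil =>
    rw [h1] at h4
    simp at h4
    omega
  | cons a x =>
    refine ⟨x ++ [e + f] ++ y, ?_⟩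
    rw [h3, h1]
    simp

private theorem LBuf_headq (q ω p : List ι) (hq : S.Ord q) (h : S.ns ω ≠ 0) :
    ∃ r, S.ds (q ++ ω ++ p) = (S.dgw q + (S.ds ω).headD 0) :: r := by
  obtain ⟨r, hr⟩ := LBuf_head S ω p h
  refine ⟨r, ?_⟩
  rw [List.append_assoc, S.ds_ord_append hq, hr]
  rfl

private theorem LBuf_swap {ω w : List ι} (h : ω.Perm w) (hd : SG (S.ds ω) (S.ds w) ∨ ω = w)
    (hns : S.ns w ≠ 0) (p q : List ι) (hq : S.Ord q)
    (hp : (S.Ord p ∧ S.dgw p < S.dgw q) ∨ (∃ i p', p = i :: p' ∧ S.tc i ≠ 0 ∧ 0 < S.dgw q)) :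
    S.val (q ++ ω ++ p) ∈ S.Hv (p ++ w ++ q) := by
  refine Submodule.subset_span ⟨q ++ ω ++ p, LBuf_perm_ctx h p q, ?_, rfl⟩
  have hns' : S.ns ω ≠ 0 := by rw [S.ns_perm h]; exact hns
  obtain ⟨r, hr⟩ := LBuf_headq S q ω p hq hns'
  have hle := S.ds_head_le hd
  rcases hp with ⟨hp, hlt⟩ | ⟨i, p', rfl, hi, hpos⟩
  · obtain ⟨r', hr'⟩ := LBuf_headq S p w q hp hns
    rw [hr, hr']
    exact ⟨[], _, _, r, r', rfl, rfl, by omega⟩
  · rw [hr]
    have h1 : S.ds ((i :: p') ++ w ++ q) = 0 :: S.ds (p' ++ w ++ q) := by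
      rw [List.cons_append, List.cons_append]
      show (if S.tc i = 0 then addHead (S.dg i) (S.ds (p' ++ w ++ q)) else
        0 :: S.ds (p' ++ w ++ q)) = _
      rw [if_neg hi]
    rw [h1]
    exact ⟨[], _, _, r, _, rfl, rfl, by omega⟩

private theorem LBuf_step (p q w : List ι) (j : E) (hj : j - S.val w ∈ S.Hv w)
    (hns : S.ns w ≠ 0) (hq : S.Ord q)
    (hp : (S.Ord p ∧ S.dgw p < S.dgw q) ∨ (∃ i p', p = i :: p' ∧ S.tc i ≠ 0 ∧ 0 < S.dgw q)) :
    S.val p * j * S.val q + S.val q * j * S.val p - S.val (p ++ w ++ q) ∈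
      S.Hv (p ++ w ++ q) := by
  have h1 := S.Hv_ctx p q hj
  have h2 : S.val (q ++ w ++ p) ∈ S.Hv (p ++ w ++ q) :=
    LBuf_swap S (List.Perm.refl w) (Or.inr rfl) hns p q hq hp
  have h3 : ∀ z ∈ S.Hv w, S.val q * z * S.val p ∈ S.Hv (p ++ w ++ q) := by
    intro z hz
    induction hz using Submodule.span_induction with
    | mem z hz =>
      obtain ⟨ω, hω, hd, rfl⟩ := hz
      rw [← val_append, ← val_append]
      exact LBuf_swap S hω (Or.inl hd) hns p q hq hp
    | zero => rw [mul_zero, zero_mul]; exact zero_mem _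
    | add a b _ _ ha hb => rw [mul_add, add_mul]; exact add_mem ha hb
    | smul c a _ ha =>
      rw [mul_smul_comm, smul_mul_assoc]
      exact Submodule.smul_mem _ _ ha
  have h4 := h3 _ hj
  have e1 : S.val p * j * S.val q + S.val q * j * S.val p - S.val (p ++ w ++ q) =
      S.val p * (j - S.val w) * S.val q + (S.val q * (j - S.val w) * S.val p +
        S.val (q ++ w ++ p)) := by
    simp only [val_append]
    noncomm_ring
  rw [e1]
  exact add_mem h1 (add_mem h4 h2)

private theorem LBuf_pow (hS : JSys R E J I) (x : ι) (k : ℕ) (hk : 1 ≤ k) :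
    S.val (List.replicate k x) ∈ J := by
  have h1 : ∀ k, S.val (List.replicate k x) = S.ev x ^ k := by
    intro k
    simp [val, evw]
  have h2 : ∀ k, S.ev x ^ (k + 1) ∈ J := by
    intro k
    induction k using Nat.strong_induction_on with
    | _ k ih =>
      rcases k with _ | _ | k
      · simpa using S.evJ x
      · have h3 : S.ev x ^ (0 + 1 + 1) = S.ev x * S.ev x := by
          rw [zero_add, pow_succ, pow_one]
        rw [h3]
        exact hS.sq _ (S.evJ x)
      · have h3 := hS.uop _ (S.evJ x) _ (ih k (by omega))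
        have h4 : S.ev x ^ (k + 1 + 1 + 1) = S.ev x * S.ev x ^ (k + 1) * S.ev x := by
          rw [← pow_succ', ← pow_succ]
        rw [h4]
        exact h3
  rw [h1]
  obtain ⟨k, rfl⟩ := Nat.exists_eq_add_of_le' hk
  exact h2 k

private theorem LBuf_ns_append (u v : List ι) (h : S.ns u ≠ 0 ∨ S.ns v ≠ 0) :
    S.ns (u ++ v) ≠ 0 := by
  rw [S.ns_append]
  omega

private theorem LBuf_g (hS : JSys R E J I) (g : List ι) (hg : S.Ord g) : ∀ (w : List ι) (j : E),
    j ∈ I → j - S.val w ∈ S.Hv w → S.ns w ≠ 0 →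
    ∃ j' ∈ I, j' - S.val (w ++ g) ∈ S.Hv (w ++ g) := by
  induction g with
  | nil =>
    intro w j hj h _
    rw [List.append_nil]
    exact ⟨j, hj, h⟩
  | cons c g ih =>
    intro w j hj h hns
    have hc : S.tc c = 0 := hg c List.mem_cons_self
    have h1 := LBuf_step S [] [c] w j h hns
      (by intro i hi; rw [List.mem_singleton.mp hi]; exact hc)
      (Or.inl ⟨fun i hi => absurd hi List.not_mem_nil, by
        have := S.hdg c
        simp only [dgw, List.map_nil, List.sum_nil, List.map_cons, List.sum_cons]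
        omega⟩)
    rw [val_nil, one_mul, mul_one, LBuf_val_single, List.nil_append] at h1
    obtain ⟨j', hj', h2⟩ := ih (fun i hi => hg i (List.mem_cons_of_mem _ hi)) (w ++ [c])
      (j * S.ev c + S.ev c * j) (hS.ijord _ hj _ (S.evJ c)) h1
      (LBuf_ns_append S _ _ (Or.inl hns))
    rw [List.append_assoc, List.singleton_append] at h2
    exact ⟨j', hj', h2⟩

private theorem LBuf_b (hS : JSys R E J I) (Q : ℕ) (hQ : ∀ i, S.dg i ≤ Q) (x : ι) (hx : S.Pure x)
    (w : List ι) (j : E) (hj : j ∈ I) (h : j - S.val w ∈ S.Hv w) (hns : S.ns w ≠ 0)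
    (b : List ι) : ∃ j' ∈ I,
      j' - S.val (b ++ w ++ List.replicate ((Q + 1) * b.length) x) ∈
        S.Hv (b ++ w ++ List.replicate ((Q + 1) * b.length) x) := by
  have hdr : ∀ k, S.dgw (List.replicate k x) = k := by
    intro k
    simp [dgw, hx.2]
  have hor : ∀ k, S.Ord (List.replicate k x) := by
    intro k i hi
    rw [List.eq_of_mem_replicate hi]
    exact hx.1
  induction b with
  | nil =>
    refine ⟨j, hj, ?_⟩
    simpa using h
  | cons P b ih =>
    obtain ⟨j', hj', h'⟩ := ih
    have h1 := LBuf_step S [P] (List.replicate (Q + 1) x)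
      (b ++ w ++ List.replicate ((Q + 1) * b.length) x) j' h'
      (LBuf_ns_append S _ _ (Or.inl (LBuf_ns_append S _ _ (Or.inr hns)))) (hor _) (by
        by_cases hP : S.tc P = 0
        · left
          refine ⟨?_, ?_⟩
          · intro i hi
            rw [List.mem_singleton.mp hi]
            exact hP
          · rw [hdr]
            have := hQ P
            simp only [dgw, List.map_nil, List.sum_nil, List.map_cons, List.sum_cons]
            omega
        · right
          exact ⟨P, [], rfl, hP, by rw [hdr]; omega⟩)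
    have e1 : [P] ++ (b ++ w ++ List.replicate ((Q + 1) * b.length) x) ++
        List.replicate (Q + 1) x =
        (P :: b) ++ w ++ List.replicate ((Q + 1) * (P :: b).length) x := by
      rw [List.length_cons, mul_add, mul_one, ← List.replicate_append_replicate
        (n := (Q + 1) * b.length) (m := Q + 1)]
      simp only [List.append_assoc, List.cons_append, List.nil_append]
    rw [e1, LBuf_val_single] at h1
    exact ⟨_, hS.itrip' _ (S.evJ P) _ hj' _ (LBuf_pow S hS x _ (by omega)), h1⟩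

theorem LBuf_main (hS : JSys R E J I) (Q : ℕ) (hQ : ∀ i, S.dg i ≤ Q) (x y : ι) (hx : S.Pure x)
    (hy : S.Pure y) (β H : ℕ) (b g : List ι) (s : ι) (hs : S.tc s ≠ 0) (hg : S.Ord g)
    (hH : (Q + 1) * (b.length + 1) + β + 1 ≤ H) :
    ∃ j ∈ I, j - S.val (List.replicate β y ++ (b ++ [s]) ++ g ++ List.replicate H x) ∈
      S.Hv (List.replicate β y ++ (b ++ [s]) ++ g ++ List.replicate H x) := by
  have hdr : ∀ k, S.dgw (List.replicate k x) = k := by
    intro k
    simp [dgw, hx.2]
  have hdy : ∀ k, S.dgw (List.replicate k y) = k := by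
    intro k
    simp [dgw, hy.2]
  have hor : ∀ k, S.Ord (List.replicate k x) := by
    intro k i hi
    rw [List.eq_of_mem_replicate hi]
    exact hx.1
  have hoy : ∀ k, S.Ord (List.replicate k y) := by
    intro k i hi
    rw [List.eq_of_mem_replicate hi]
    exact hy.1
  have hns0 : S.ns [s] ≠ 0 := by
    show (if S.tc s = 0 then S.ns [] else S.ns [] + 1) ≠ 0
    rw [if_neg hs]
    omega
  -- the special letter
  have h0 : S.ev s - S.val [s] ∈ S.Hv [s] := by
    rw [LBuf_val_single, sub_self]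
    exact zero_mem _
  obtain ⟨j1, hj1, h1⟩ := LBuf_g S hS g hg [s] (S.ev s) (S.evI s hs) h0 hns0
  have hns1 : S.ns ([s] ++ g) ≠ 0 := LBuf_ns_append S _ _ (Or.inl hns0)
  obtain ⟨j2, hj2, h2⟩ := LBuf_b S hS Q hQ x hx ([s] ++ g) j1 hj1 h1 hns1 b
  set w2 := b ++ ([s] ++ g) ++ List.replicate ((Q + 1) * b.length) x with hw2
  have hns2 : S.ns w2 ≠ 0 :=
    LBuf_ns_append S _ _ (Or.inl (LBuf_ns_append S _ _ (Or.inr hns1)))
  -- the factor on the left
  obtain ⟨j3, hj3, t, ht, h3⟩ : ∃ j3 ∈ I, ∃ t ≤ β + 1,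
      j3 - S.val (List.replicate β y ++ w2 ++ List.replicate t x) ∈
        S.Hv (List.replicate β y ++ w2 ++ List.replicate t x) := by
    by_cases hβ : β = 0
    · subst hβ
      exact ⟨j2, hj2, 0, by omega, by simpa using h2⟩
    · have h3 := LBuf_step S (List.replicate β y) (List.replicate (β + 1) x) w2 j2 h2 hns2 (hor _)
        (Or.inl ⟨hoy _, by rw [hdr, hdy]; omega⟩)
      exact ⟨_, hS.itrip' _ (LBuf_pow S hS y _ (by omega)) _ hj2 _
        (LBuf_pow S hS x _ (by omega)), β + 1, le_rfl, h3⟩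
  set w3 := List.replicate β y ++ w2 ++ List.replicate t x with hw3
  have hns3 : S.ns w3 ≠ 0 :=
    LBuf_ns_append S _ _ (Or.inl (LBuf_ns_append S _ _ (Or.inr hns2)))
  obtain ⟨h, hh⟩ : ∃ h, (Q + 1) * b.length + t + (h + 1) = H := by
    have e1 : (Q + 1) * (b.length + 1) = (Q + 1) * b.length + (Q + 1) := by ring
    rw [e1] at hH
    exact ⟨H - ((Q + 1) * b.length + t + 1), by omega⟩
  have h4 := LBuf_step S [] (List.replicate (h + 1) x) w3 j3 h3 hns3 (hor _)
    (Or.inl ⟨fun i hi => absurd hi List.not_mem_nil, by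
      rw [hdr]
      simp [dgw]⟩)
  rw [val_nil, one_mul, mul_one, List.nil_append] at h4
  have e2 : w3 ++ List.replicate (h + 1) x =
      List.replicate β y ++ (b ++ [s]) ++ g ++ List.replicate H x := by
    rw [hw3, hw2, ← hh, ← List.replicate_append_replicate (n := (Q + 1) * b.length + t)
      (m := h + 1), ← List.replicate_append_replicate (n := (Q + 1) * b.length) (m := t)]
    simp only [List.append_assoc]
  rw [e2] at h4
  exact ⟨_, hS.ijord _ hj3 _ (LBuf_pow S hS x _ (by omega)), h4⟩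

end LSys

end Pool.Agent.H6.ALT
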