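import Pool.Agent.H6.ALT.LHv

/-!
# ALT L1 pack, LPerm: the multilinear identity for factors with increasing first slots

`u_0, .., u_(m-1)` words with leading elements `j_i` (`j_i - val u_i ∈ Hv u_i`), `u_i` begins with a slot of degree exactly `β_i`
(`(ds u_i).headD 0 = β_i`), `β_0 < β_1 < ... < β_(m-1)`, every `u_i` contains a special letter. Then
`val (u_0 ... u_(m-1)) ∈ Hv (u_0 ... u_(m-1))`. Proof: `val (u_0...) = ∏ j_i + (element of Hv)` by `Hv_prod`; by `PId`, `∏ j_i` is a combination of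
`∏ j_(σ i)`, `σ ≠ 1`; expand `j_i = val u_i + ...`: words `ω_(σ 0) ω_(σ 1) ...` with `ω_i = u_i` or `ω_i` in the list for `Hv u_i`. Compare with
`u_0 u_1 ...`: let `i` be the first index with `σ i ≠ i` or `ω_(σ i) ≠ u_i`. If `σ i = i`: `SG (ds ω_i) (ds u_i)` and we compare `ω_i ...` and `u_i ...`: by
`ds_app` it is enough that the continuation is at least as heavy at its first slot if the first difference is at the
last entry: the first slots of the continuations are `β_(i+1)` for `u_(i+1)` and `≥ β_(σ (i+1)) ≥ β_(i+1)` (`σ` maps `{i+1, ..}` to itself; the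
last factor: no continuation). If `σ i ≠ i` then `σ i > i` and the first slot of `ω_(σ i)` is `≥ β_(σ i) > β_i` (`ds_head_le`): heavier at the
slot in which `u_i` begins (`ds_pre`; at a slot which is followed by something equal before: same prefix `u_0 ... u_(i-1)`).
-/

set_option autoImplicit false

namespace Pool.Agent.H6.ALT

namespace LSys

variable {R E : Type*} [CommRing R] [Ring E] [Algebra R E] {J I : Submodule R E} {ι : Type}
  (S : LSys R J I ι)

/-- products of elements of spans of values of words -/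
theorem LPerm_span {m : ℕ} (x : Fin m → E) (P : Fin m → List ι → Prop)
    (hx : ∀ i, x i ∈ Submodule.span R {y | ∃ ω : List ι, P i ω ∧ y = S.val ω}) :
    (List.ofFn x).prod ∈
      Submodule.span R {y | ∃ ω : Fin m → List ι, (∀ i, P i (ω i)) ∧ y = S.val (catW ω)} := by
  induction m with
  | zero =>
    refine Submodule.subset_span ⟨fun i => i.elim0, fun i => i.elim0, ?_⟩
    simp [catW, val_nil]
  | succ m ih =>
    rw [List.ofFn_succ, List.prod_cons]
    have h1 := hx 0
    have h2 := ih (fun i => x i.succ) (fun i => P i.succ) (fun i => hx i.succ)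
    have h3 := Submodule.mul_mem_mul h1 h2
    rw [Submodule.span_mul_span] at h3
    refine Submodule.span_mono ?_ h3
    rintro y ⟨a, ⟨ω, hω, rfl⟩, b, ⟨ω', hω', rfl⟩, rfl⟩
    refine ⟨Fin.cons ω ω', ?_, ?_⟩
    · intro i
      refine Fin.cases ?_ (fun i => ?_) i
      · simpa using hω
      · simpa using hω' i
    · simp only [catW, List.ofFn_succ, Fin.cons_zero, Fin.cons_succ, List.flatten_cons]
      rw [S.val_append]

theorem LPerm_head {u : List ι} (hn : 1 ≤ S.ns u) (v : List ι) :
    ∃ y : List ℕ, S.ds (u ++ v) = (S.ds u).headD 0 :: y := by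
  obtain ⟨x, y, e, f, h1, h2, h3⟩ := S.ds_append u v
  have hl := S.ds_length u
  cases x with
  | nil =>
    rw [h1] at hl
    simp at hl
    omega
  | cons a x =>
    refine ⟨x ++ [e + f] ++ y, ?_⟩
    rw [h3, h1]
    simp

theorem LPerm_cmp {m : ℕ} (u ω : Fin m → List ι) (β : Fin m → ℕ) (σ : Equiv.Perm (Fin m))
    (hβ : StrictMono β) (hu : ∀ i, (S.ds (u i)).headD 0 = β i) (hn : ∀ i, 1 ≤ S.ns (u i))
    (hω : ∀ i, (ω i).Perm (u (σ i)))
    (hω' : ∀ i, SG (S.ds (ω i)) (S.ds (u (σ i))) ∨ ω i = u (σ i)) (d : ℕ) :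
    ∀ k, m - k = d → k ≤ m → (∀ i : Fin m, i.1 < k → σ i = i) →
      (SG (S.ds ((List.ofFn ω).drop k).flatten) (S.ds ((List.ofFn u).drop k).flatten) ∨
        (((List.ofFn ω).drop k).flatten = ((List.ofFn u).drop k).flatten ∧
          ∀ i : Fin m, k ≤ i.1 → σ i = i)) := by
  induction d with
  | zero =>
    intro k hk hkm hσ
    have hkm' : k = m := by omega
    refine Or.inr ⟨?_, ?_⟩
    · rw [List.drop_eq_nil_of_le (by simp [hkm']), List.drop_eq_nil_of_le (by simp [hkm'])]
    · intro i hi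
      exact absurd i.2 (by omega)
  | succ d ih =>
    intro k hk hkm hσ
    have hk' : k < m := by omega
    have ho : ∀ w : Fin m → List ι, ((List.ofFn w).drop k).flatten =
        w ⟨k, hk'⟩ ++ ((List.ofFn w).drop (k + 1)).flatten := by
      intro w
      rw [List.drop_eq_getElem_cons (by simpa using hk'), List.flatten_cons]
      simp
    rw [ho ω, ho u]
    by_cases h : σ ⟨k, hk'⟩ = ⟨k, hk'⟩
    · have hσ' : ∀ i : Fin m, i.1 < k + 1 → σ i = i := by
        intro i hi
        rcases Nat.lt_succ_iff_lt_or_eq.1 hi with h1 | h1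
        · exact hσ i h1
        · have : i = ⟨k, hk'⟩ := Fin.ext h1
          rw [this]; exact h
      have h1 := hω' ⟨k, hk'⟩
      have h2 := hω ⟨k, hk'⟩
      rw [h] at h1 h2
      rcases ih (k + 1) (by omega) (by omega) hσ' with h3 | ⟨h3, h4⟩
      · rcases h1 with h1 | h1
        · exact Or.inl (S.ds_app h1 (S.ns_perm h2) (Or.inr h3))
        · rw [h1]
          exact Or.inl (S.ds_pre _ h3)
      · rcases h1 with h1 | h1
        · exact Or.inl (S.ds_app h1 (S.ns_perm h2) (Or.inl h3))
        · refine Or.inr ⟨by rw [h1, h3], ?_⟩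
          intro i hi
          rcases Nat.eq_or_lt_of_le hi with h5 | h5
          · have : i = ⟨k, hk'⟩ := Fin.ext h5.symm
            rw [this]; exact h
          · exact h4 i h5
    · left
      have hlt : (⟨k, hk'⟩ : Fin m) < σ ⟨k, hk'⟩ := by
        rcases lt_trichotomy (⟨k, hk'⟩ : Fin m) (σ ⟨k, hk'⟩) with h1 | h1 | h1
        · exact h1
        · exact absurd h1.symm h
        · have h2 := hσ (σ ⟨k, hk'⟩) h1
          exact absurd (σ.injective h2) h
      have h1 := hβ hlt
      have h2 := hω' ⟨k, hk'⟩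
      have h3 := S.ds_head_le h2
      rw [hu] at h3
      have h4 : 1 ≤ S.ns (ω ⟨k, hk'⟩) := by
        rw [S.ns_perm (hω ⟨k, hk'⟩)]; exact hn _
      obtain ⟨y, hy⟩ := S.LPerm_head h4 ((List.ofFn ω).drop (k + 1)).flatten
      obtain ⟨z, hz⟩ := S.LPerm_head (hn ⟨k, hk'⟩) ((List.ofFn u).drop (k + 1)).flatten
      rw [hy, hz, hu]
      exact ⟨[], _, _, y, z, rfl, rfl, by omega⟩

theorem LPerm_perm {m : ℕ} (u ω : Fin m → List ι) (σ : Equiv.Perm (Fin m))
    (hω : ∀ i, (ω i).Perm (u (σ i))) : (catW ω).Perm (catW u) := by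
  have h1 : (catW ω).Perm (catW (u ∘ σ)) := by
    refine List.Perm.flatten_congr ?_
    rw [List.forall₂_iff_get]
    refine ⟨by simp, ?_⟩
    intro i h1 h2
    simpa using hω ⟨i, by simpa using h1⟩
  exact h1.trans (Equiv.Perm.ofFn_comp_perm σ u).flatten

theorem LPerm_main {m : ℕ} (hP : PId R J m) (u : Fin m → List ι) (β : Fin m → ℕ)
    (hβ : StrictMono β) (hu : ∀ i, (S.ds (u i)).headD 0 = β i) (hn : ∀ i, 1 ≤ S.ns (u i))
    (hj : ∀ i, ∃ j ∈ J, j - S.val (u i) ∈ S.Hv (u i)) :
    S.val (catW u) ∈ S.Hv (catW u) := by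
  choose j hjJ hjH using hj
  -- the product of the `j_i`
  have h1 : (List.ofFn j).prod - S.val (catW u) ∈ S.Hv (catW u) := by
    have h := S.Hv_prod (List.ofFn fun i => (j i, u i)) (by
      intro z hz
      rw [List.mem_ofFn] at hz
      obtain ⟨i, rfl⟩ := hz
      exact hjH i)
    have e1 : (List.ofFn fun i => (j i, u i)).map Prod.fst = List.ofFn j := by
      rw [List.map_ofFn]; rfl
    have e2 : (List.ofFn fun i => (j i, u i)).map Prod.snd = List.ofFn u := by
      rw [List.map_ofFn]; rfl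
    rw [e1, e2] at h
    exact h
  have h2 : (List.ofFn j).prod ∈ S.Hv (catW u) := by
    refine (Submodule.span_le.2 ?_) (hP j hjJ)
    rintro x ⟨σ, hσ, rfl⟩
    have h3 := S.LPerm_span (j ∘ σ)
      (fun i ω => ω.Perm (u (σ i)) ∧ (SG (S.ds ω) (S.ds (u (σ i))) ∨ ω = u (σ i))) (by
        intro i
        have h4 : (j ∘ σ) i = (j (σ i) - S.val (u (σ i))) + S.val (u (σ i)) := by simp
        rw [h4]
        refine Submodule.add_mem _ ?_ ?_
        · refine Submodule.span_mono ?_ (hjH (σ i))
          rintro y ⟨ω, h5, h6, rfl⟩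
          exact ⟨ω, ⟨h5, Or.inl h6⟩, rfl⟩
        · exact Submodule.subset_span ⟨u (σ i), ⟨List.Perm.refl _, Or.inr rfl⟩, rfl⟩)
    refine (Submodule.span_mono ?_) h3
    rintro y ⟨ω, h5, rfl⟩
    refine ⟨catW ω, LPerm_perm u ω σ (fun i => (h5 i).1), ?_, rfl⟩
    have h6 := S.LPerm_cmp u ω β σ hβ hu hn (fun i => (h5 i).1) (fun i => (h5 i).2) m 0
      (by omega) (by omega) (fun i hi => absurd hi (by omega))
    rw [List.drop_zero, List.drop_zero] at h6
    rcases h6 with h6 | ⟨h6, h7⟩
    · exact h6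
    · exact absurd (Equiv.ext fun i => h7 i (Nat.zero_le _)) hσ
  have h3 := Submodule.sub_mem _ h2 h1
  rwa [sub_sub_cancel] at h3

end LSys

end Pool.Agent.H6.ALT
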