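import Pool.Agent.H6.ALT.LBuf
import Pool.Agent.H6.ALT.LPerm

/-!
# ALT L1 pack, LChain: chains of heavy slots

`w = G_0 ++ (b_0 ++ G_1) ++ ... ++ (b_(m-1) ++ G_m)`, the `G_j` ordinary, `b_j` begins and ends with a special letter.
Let `Q` bound the degrees of the letters, `H_j = (Q + 1) (length b_j + 1) + m + 2`. By `OF` (twice) every `G_j` with `dgw G_j` large:
`val G_j` is modulo `W (dgw G_j) 1` a combination of `val (g ++ x^(H)) * val (y^β)` with `β = j` (`y`, `x` pure; first `OF` with `H = j` for
`G_j`, `j < m`, then `OF` with `H = H_(j-1)` for the word `g`; for `G_m` only the second; for `G_0` only the first with `β = 0`, nothing to do: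
take `u_0` with `β_0 = 0`). Choose the constants: `C`, `Lam` with `dgw G_(j+1) ≥ C + Lam (length b_j)` sufficient:
`l1 j + l0 ≤ dgw G_j` and `l1 H_(j-1) + l0 ≤ dgw G_j - j`.
The terms containing a factor in `W (.) 1` are in `W (dgw w) (tcw w + 1)` (`W_mul`, `val_mem_W`). The others are words
`w' = g_0 ++ catW u`, `u_j = y^(j) ++ b_j ++ g_(j+1) ++ x^(H_j)`, of the same degree, content, number of special letters and the same degree
sequence as `w` (`Low_congr`). By `LBuf_main` and `LPerm_main` `val (catW u) ∈ Hv (catW u)`, so `val w' ∈ Low w' = Low w`.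
`u_j` has first slot `j`, since `b_j` begins with a special letter.
-/

set_option autoImplicit false

namespace Pool.Agent.H6.ALT

namespace LSys

variable {R E : Type*} [CommRing R] [Ring E] [Algebra R E] {J I : Submodule R E} {ι : Type}
  (S : LSys R J I ι)

/-- the word of the chain -/
private def LChain_w {m : ℕ} (G : Fin (m + 1) → List ι) (b : Fin m → List ι) : List ι :=
  G 0 ++ catW (fun i => b i ++ G i.succ)

private theorem LChain_catW_zero (us : Fin 0 → List ι) : catW us = [] := by
  simp [catW]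

private theorem LChain_catW_succ {m : ℕ} (us : Fin (m + 1) → List ι) :
    catW us = us 0 ++ catW (fun i => us i.succ) := by
  simp [catW, List.ofFn_succ]

private theorem LChain_catW_update {m : ℕ} (us : Fin m → List ι) (i : Fin m) :
    ∃ pre suf : List ι, ∀ z, catW (Function.update us i z) = pre ++ z ++ suf := by
  induction m with
  | zero => exact i.elim0
  | succ m ih =>
    refine Fin.cases ?_ (fun k => ?_) i
    · refine ⟨[], catW (fun j => us j.succ), fun z => ?_⟩
      rw [LChain_catW_succ]
      have h : (fun j : Fin m => Function.update us 0 z j.succ) = fun j => us j.succ := by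
        funext j
        exact Function.update_of_ne (Fin.succ_ne_zero j) _ _
      rw [h]
      simp
    · obtain ⟨pre, suf, h⟩ := ih (fun j => us j.succ) k
      refine ⟨us 0 ++ pre, suf, fun z => ?_⟩
      rw [LChain_catW_succ]
      have h0 : Function.update us k.succ z 0 = us 0 :=
        Function.update_of_ne (Fin.succ_ne_zero k).symm _ _
      have h1 : (fun j : Fin m => Function.update us k.succ z j.succ) =
          Function.update (fun j => us j.succ) k z := by
        funext j
        rcases eq_or_ne j k with rfl | hjk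
        · simp
        · rw [Function.update_of_ne hjk, Function.update_of_ne]
          exact fun h => hjk (Fin.succ_injective _ h)
      rw [h0, h1, h z]
      simp [List.append_assoc]

private theorem LChain_w_update {m : ℕ} (G : Fin (m + 1) → List ι) (b : Fin m → List ι)
    (k : Fin (m + 1)) :
    ∃ pre suf : List ι, ∀ z, LChain_w (Function.update G k z) b = pre ++ z ++ suf := by
  refine Fin.cases ?_ (fun i => ?_) k
  · refine ⟨[], catW (fun j => b j ++ G j.succ), fun z => ?_⟩
    have h : (fun j : Fin m => b j ++ Function.update G 0 z j.succ) =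
        fun j => b j ++ G j.succ := by
      funext j
      rw [Function.update_of_ne (Fin.succ_ne_zero j)]
    rw [LChain_w, h]
    simp
  · obtain ⟨pre, suf, h⟩ := LChain_catW_update (fun j => b j ++ G j.succ) i
    refine ⟨G 0 ++ pre ++ b i, suf, fun z => ?_⟩
    have h0 : Function.update G i.succ z 0 = G 0 :=
      Function.update_of_ne (Fin.succ_ne_zero i).symm _ _
    have h1 : (fun j : Fin m => b j ++ Function.update G i.succ z j.succ) =
        Function.update (fun j => b j ++ G j.succ) i (b i ++ z) := by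
      funext j
      rcases eq_or_ne j i with rfl | hji
      · simp
      · rw [Function.update_of_ne hji, Function.update_of_ne]
        exact fun h => hji (Fin.succ_injective _ h)
    rw [LChain_w, h0, h1, h]
    simp [List.append_assoc]

private theorem LChain_regroup {m : ℕ} (F Y : Fin (m + 1) → List ι) (b : Fin m → List ι) :
    LChain_w (fun j => F j ++ Y j) b =
      F 0 ++ catW (fun i : Fin m => Y i.castSucc ++ b i ++ F i.succ) ++ Y (Fin.last m) := by
  induction m with
  | zero =>
    rw [LChain_w, LChain_catW_zero, LChain_catW_zero]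
    simp
  | succ m ih =>
    have h := ih (fun j => F j.succ) (fun j => Y j.succ) (fun i => b i.succ)
    rw [LChain_w] at h ⊢
    rw [LChain_catW_succ, LChain_catW_succ]
    simp only [List.append_assoc] at h ⊢
    simp only [List.append_cancel_left_eq, Fin.castSucc_zero]
    simp only [Fin.succ_castSucc, Fin.succ_last] at h ⊢
    exact List.append_cancel_left h

private theorem LChain_ds_congr (pre suf : List ι) {z z' : List ι} (hz : S.Ord z)
    (hz' : S.Ord z') (h : S.dgw z = S.dgw z') :
    S.ds (pre ++ z ++ suf) = S.ds (pre ++ z' ++ suf) := by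
  rw [List.append_assoc, List.append_assoc]
  have h1 : S.ds (z ++ suf) = S.ds (z' ++ suf) := by
    rw [S.ds_ord_append hz, S.ds_ord_append hz', h]
  obtain ⟨x, y, e, f, e1, e2, e3⟩ := S.ds_append pre (z ++ suf)
  obtain ⟨x', y', e', f', e1', e2', e3'⟩ := S.ds_append pre (z' ++ suf)
  rw [e1'] at e1
  rw [e2, e2'] at h1
  have h2 := List.append_inj' e1 rfl
  have h3 : e' = e := by simpa using h2.2
  have h4 : x' = x := h2.1
  rw [List.cons.injEq] at h1
  rw [e3, e3', h3, h4, h1.1, h1.2]

private theorem LChain_Ord_append {u v : List ι} (hu : S.Ord u) (hv : S.Ord v) :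
    S.Ord (u ++ v) := by
  intro i hi
  rcases List.mem_append.1 hi with h | h
  · exact hu i h
  · exact hv i h

private theorem LChain_Ord_rep {x : ι} (hx : S.Pure x) (n : ℕ) : S.Ord (List.replicate n x) := by
  intro i hi
  rw [List.eq_of_mem_replicate hi]
  exact hx.1

private theorem LChain_dgw_rep {x : ι} (hx : S.Pure x) (n : ℕ) :
    S.dgw (List.replicate n x) = n := by
  simp [dgw, hx.2]

/-- replacing the ordinary word at one place does not change the invariants -/
private theorem LChain_inv {m : ℕ} (G : Fin (m + 1) → List ι) (b : Fin m → List ι)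
    (k : Fin (m + 1)) (z : List ι) (hG : S.Ord (G k)) (hz : S.Ord z)
    (h : S.dgw z = S.dgw (G k)) :
    S.Low (LChain_w (Function.update G k z) b) = S.Low (LChain_w G b) := by
  obtain ⟨pre, suf, hw⟩ := LChain_w_update G b k
  have h1 := hw (G k)
  rw [Function.update_eq_self] at h1
  rw [hw z, h1]
  obtain ⟨n1, t1, -⟩ := S.ns_of_ord hG
  obtain ⟨n2, t2, -⟩ := S.ns_of_ord hz
  refine S.Low_congr ?_ ?_ ?_ (S.LChain_ds_congr pre suf hz hG h)
  · rw [S.dgw_append, S.dgw_append, S.dgw_append, S.dgw_append, h]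
  · rw [S.tcw_append, S.tcw_append, S.tcw_append, S.tcw_append, t1, t2]
  · rw [S.ns_append, S.ns_append, S.ns_append, S.ns_append, n1, n2]

private theorem LChain_base (hS : JSys R E J I) {m : ℕ} (hP : PId R J m) (Q : ℕ)
    (hQ : ∀ i, S.dg i ≤ Q) (b : Fin m → List ι)
    (hb1 : ∀ i, ∃ (s : ι) (b' : List ι), S.tc s ≠ 0 ∧ b i = s :: b')
    (hb2 : ∀ i, ∃ (s : ι) (b' : List ι), S.tc s ≠ 0 ∧ b i = b' ++ [s])
    (g : Fin (m + 1) → List ι) (x y : Fin (m + 1) → ι) (K : Fin (m + 1) → ℕ)
    (hg : ∀ j, S.Ord (g j)) (hx : ∀ j, S.Pure (x j)) (hy : ∀ j, S.Pure (y j))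
    (hK : ∀ i : Fin m, (Q + 1) * ((b i).length + 1) + m + 2 ≤ K i.succ) :
    S.val (LChain_w (fun j => (g j ++ List.replicate (K j) (x j)) ++
        List.replicate (j : ℕ) (y j)) b) ∈
      S.Low (LChain_w (fun j => (g j ++ List.replicate (K j) (x j)) ++
        List.replicate (j : ℕ) (y j)) b) := by
  rw [LChain_regroup (fun j => g j ++ List.replicate (K j) (x j))
    (fun j => List.replicate (j : ℕ) (y j)) b]
  apply S.Hv_le_Low
  rw [S.val_append, S.val_append]
  refine S.Hv_ctx _ _ ?_
  refine S.LPerm_main hP _ (fun i => (i : ℕ)) (fun i j hij => hij) ?_ ?_ ?_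
  · intro i
    obtain ⟨s, b', hs, hb⟩ := hb1 i
    have h0 : S.Ord (List.replicate (i.castSucc : ℕ) (y i.castSucc)) :=
      S.LChain_Ord_rep (hy _) _
    rw [List.append_assoc, S.ds_ord_append h0, S.LChain_dgw_rep (hy _), hb, List.cons_append]
    rw [ds, if_neg hs, addHead]
    simp
  · intro i
    obtain ⟨s, b', hs, hb⟩ := hb1 i
    rw [S.ns_append, S.ns_append, hb]
    have h1 : S.ns (s :: b') = S.ns b' + 1 := by rw [ns, if_neg hs]
    omega
  · intro i
    obtain ⟨s, b', hs, hb⟩ := hb2 i
    have hl : (b i).length = b'.length + 1 := by rw [hb]; simp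
    have hH : (Q + 1) * (b'.length + 1) + (i.castSucc : ℕ) + 1 ≤ K i.succ := by
      refine le_trans ?_ (hK i)
      have h1 : (i.castSucc : ℕ) < m := i.2
      have h2 : (Q + 1) * (b'.length + 1) ≤ (Q + 1) * ((b i).length + 1) :=
        Nat.mul_le_mul_left _ (by omega)
      omega
    obtain ⟨j, hj, hj'⟩ := S.LBuf_main hS Q hQ (x i.succ) (y i.castSucc) (hx _) (hy _)
      (i.castSucc : ℕ) (K i.succ) b' (g i.succ) s hs (hg _) hH
    refine ⟨j, hS.le hj, ?_⟩
    rw [← hb, List.append_assoc _ (g i.succ)] at hj'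
    exact hj'

private theorem LChain_step {l1 l0 : ℕ} (hO : ∀ (H : ℕ) (w : List ι), S.Ord w →
      l1 * H + l0 ≤ S.dgw w →
      S.val w ∈ Submodule.span R {x | ∃ (g : List ι) (i : ι), S.Ord g ∧ S.Pure i ∧
        S.dgw g + H = S.dgw w ∧ x = S.val (g ++ List.replicate H i)} ⊔ S.W (S.dgw w) 1)
    (k K : ℕ) (z : List ι) (hz : S.Ord z) (h1 : l1 * k + l0 ≤ S.dgw z)
    (h2 : l1 * K + l0 + k ≤ S.dgw z) :
    S.val z ∈ Submodule.span R {t | ∃ (z' g : List ι) (x y : ι), S.Ord g ∧ S.Pure x ∧ S.Pure y ∧
        S.dgw z' = S.dgw z ∧ z' = (g ++ List.replicate K x) ++ List.replicate k y ∧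
        t = S.val z'} ⊔ S.W (S.dgw z) 1 := by
  have key := hO k z hz h1
  obtain ⟨a0, ha0, c0, hc0, hac0⟩ := Submodule.mem_sup.1 key
  rw [← hac0]
  refine Submodule.add_mem _ ?_ (Submodule.mem_sup_right hc0)
  refine Submodule.span_le.2 ?_ ha0
  rintro _ ⟨g, y, hg, hy, hd, rfl⟩
  have key2 := hO K g hg (by omega)
  rw [SetLike.mem_coe, S.val_append]
  obtain ⟨a, ha, c, hc, hac⟩ := Submodule.mem_sup.1 key2
  rw [← hac, add_mul]
  refine Submodule.add_mem _ ?_ ?_
  · refine Submodule.mem_sup_left ?_
    clear hac key2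
    induction ha using Submodule.span_induction with
    | mem t ht =>
      obtain ⟨g', x, hg', hx, hd', rfl⟩ := ht
      refine Submodule.subset_span ⟨(g' ++ List.replicate K x) ++ List.replicate k y, g', x, y,
        hg', hx, hy, ?_, rfl, ?_⟩
      · rw [S.dgw_append, S.dgw_append, S.LChain_dgw_rep hx, S.LChain_dgw_rep hy]
        omega
      · rw [S.val_append (g' ++ List.replicate K x)]
    | zero => rw [zero_mul]; exact Submodule.zero_mem _
    | add s t _ _ hs ht => rw [add_mul]; exact Submodule.add_mem _ hs ht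
    | smul r t _ ht => rw [smul_mul_assoc]; exact Submodule.smul_mem _ _ ht
  · refine Submodule.mem_sup_right ?_
    have h3 := S.val_mem_W (List.replicate k y)
    rw [S.LChain_dgw_rep hy] at h3
    have h4 := S.W_mul hc h3
    rw [hd] at h4
    exact S.W_anti (by omega) h4

private theorem LChain_ind (hS : JSys R E J I) {m : ℕ} (hP : PId R J m) (Q : ℕ)
    (hQ : ∀ i, S.dg i ≤ Q) (b : Fin m → List ι)
    (hb1 : ∀ i, ∃ (s : ι) (b' : List ι), S.tc s ≠ 0 ∧ b i = s :: b')
    (hb2 : ∀ i, ∃ (s : ι) (b' : List ι), S.tc s ≠ 0 ∧ b i = b' ++ [s])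
    (K : Fin (m + 1) → ℕ)
    (hK : ∀ i : Fin m, (Q + 1) * ((b i).length + 1) + m + 2 ≤ K i.succ)
    {l1 l0 : ℕ} (hO : ∀ (H : ℕ) (w : List ι), S.Ord w →
      l1 * H + l0 ≤ S.dgw w →
      S.val w ∈ Submodule.span R {x | ∃ (g : List ι) (i : ι), S.Ord g ∧ S.Pure i ∧
        S.dgw g + H = S.dgw w ∧ x = S.val (g ++ List.replicate H i)} ⊔ S.W (S.dgw w) 1)
    (T : Finset (Fin (m + 1))) :
    ∀ G : Fin (m + 1) → List ι, (∀ j, S.Ord (G j)) →
      (∀ j : Fin (m + 1), l1 * (j : ℕ) + l0 ≤ S.dgw (G j)) →
      (∀ j : Fin (m + 1), l1 * K j + l0 + (j : ℕ) ≤ S.dgw (G j)) →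
      (∀ j : Fin (m + 1), j ∉ T → ∃ (g : List ι) (x y : ι), S.Ord g ∧ S.Pure x ∧ S.Pure y ∧
        G j = (g ++ List.replicate (K j) x) ++ List.replicate (j : ℕ) y) →
      S.val (LChain_w G b) ∈ S.Low (LChain_w G b) := by
  induction T using Finset.induction_on with
  | empty =>
    intro G _ _ _ hT
    have hT' := fun j => hT j (Finset.notMem_empty j)
    choose g x y hg hx hy hG using hT'
    have hGe : G = fun j => (g j ++ List.replicate (K j) (x j)) ++
        List.replicate (j : ℕ) (y j) := funext hG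
    rw [hGe]
    exact S.LChain_base hS hP Q hQ b hb1 hb2 g x y K hg hx hy hK
  | insert k T _ ih =>
    intro G hG h1 h2 hT
    obtain ⟨pre, suf, hw⟩ := LChain_w_update G b k
    have hself := hw (G k)
    rw [Function.update_eq_self] at hself
    have key := S.LChain_step hO (k : ℕ) (K k) (G k) (hG k) (h1 k) (h2 k)
    obtain ⟨a, ha, c, hc, hac⟩ := Submodule.mem_sup.1 key
    have hval : S.val (LChain_w G b) = S.val pre * a * S.val suf + S.val pre * c * S.val suf := by
      rw [hself, S.val_append, S.val_append, ← hac, mul_add, add_mul]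
    rw [hval]
    refine Submodule.add_mem _ ?_ ?_
    · clear hac key hval
      induction ha using Submodule.span_induction with
      | mem t ht =>
        obtain ⟨z, g, x, y, hg, hx, hy, hd, hz, rfl⟩ := ht
        have hzO : S.Ord z := by
          rw [hz]
          exact S.LChain_Ord_append (S.LChain_Ord_append hg (S.LChain_Ord_rep hx _))
            (S.LChain_Ord_rep hy _)
        rw [← S.val_append, ← S.val_append, ← hw z, ← S.LChain_inv G b k z (hG k) hzO hd]
        refine ih (Function.update G k z) ?_ ?_ ?_ ?_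
        · intro j
          rcases eq_or_ne j k with rfl | hjk
          · rw [Function.update_self]; exact hzO
          · rw [Function.update_of_ne hjk]; exact hG j
        · intro j
          rcases eq_or_ne j k with rfl | hjk
          · rw [Function.update_self, hd]; exact h1 j
          · rw [Function.update_of_ne hjk]; exact h1 j
        · intro j
          rcases eq_or_ne j k with rfl | hjk
          · rw [Function.update_self, hd]; exact h2 j
          · rw [Function.update_of_ne hjk]; exact h2 j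
        · intro j hj
          rcases eq_or_ne j k with rfl | hjk
          · rw [Function.update_self]
            exact ⟨g, x, y, hg, hx, hy, hz⟩
          · rw [Function.update_of_ne hjk]
            refine hT j ?_
            rw [Finset.mem_insert, not_or]
            exact ⟨hjk, hj⟩
      | zero => rw [mul_zero, zero_mul]; exact Submodule.zero_mem _
      | add s t _ _ hs ht => rw [mul_add, add_mul]; exact Submodule.add_mem _ hs ht
      | smul r t _ ht =>
        rw [mul_smul_comm, smul_mul_assoc]; exact Submodule.smul_mem _ _ ht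
    · refine Submodule.mem_sup_right ?_
      have h3 := S.W_mul (S.W_mul (S.val_mem_W pre) hc) (S.val_mem_W suf)
      have hd : S.dgw (LChain_w G b) = S.dgw pre + S.dgw (G k) + S.dgw suf := by
        rw [hself, S.dgw_append, S.dgw_append]
      have ht : S.tcw (LChain_w G b) + 1 = S.tcw pre + 1 + S.tcw suf := by
        rw [hself, S.tcw_append, S.tcw_append, (S.ns_of_ord (hG k)).2.1]
        omega
      rw [hd, ht]
      exact h3

theorem LChain_main [Finite ι] (hS : JSys R E J I) {m : ℕ} (hP : PId R J m) (hO : S.OF) :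
    ∃ C Lam : ℕ, ∀ (G : Fin (m + 1) → List ι) (b : Fin m → List ι), (∀ i, S.Ord (G i)) →
      (∀ i, ∃ (s : ι) (b' : List ι), S.tc s ≠ 0 ∧ b i = s :: b') →
      (∀ i, ∃ (s : ι) (b' : List ι), S.tc s ≠ 0 ∧ b i = b' ++ [s]) →
      C ≤ S.dgw (G 0) → (∀ i : Fin m, C + Lam * (b i).length ≤ S.dgw (G i.succ)) →
      S.val (G 0 ++ catW (fun i => b i ++ G i.succ)) ∈
        S.Low (G 0 ++ catW (fun i => b i ++ G i.succ)) := by
  obtain ⟨l1, l0, hO⟩ := hO
  obtain ⟨Q, hQ⟩ : ∃ Q : ℕ, ∀ i, S.dg i ≤ Q := by
    obtain ⟨Q, hQ⟩ := (Set.finite_range S.dg).bddAbove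
    exact ⟨Q, fun i => hQ ⟨i, rfl⟩⟩
  refine ⟨l1 * ((Q + 1) + m + 2) + l0 + m, l1 * (Q + 1), ?_⟩
  intro G b hG hb1 hb2 h0 hC
  have hm : ∀ i : Fin m, l1 * ((i.succ : Fin (m + 1)) : ℕ) ≤ l1 * ((Q + 1) + m + 2) := by
    intro i
    refine Nat.mul_le_mul_left _ ?_
    rw [Fin.val_succ]
    omega
  refine S.LChain_ind hS hP Q hQ b hb1 hb2
    (Fin.cons 0 (fun i => (Q + 1) * ((b i).length + 1) + m + 2)) (fun i => by simp) hO
    Finset.univ G hG ?_ ?_ (fun j hj => absurd (Finset.mem_univ j) hj)
  · intro j
    refine Fin.cases ?_ (fun i => ?_) j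
    · simp only [Fin.val_zero, mul_zero, zero_add]
      omega
    · have h1 := hC i
      have h2 := hm i
      have h3 : l1 * (Q + 1) * (b i).length ≥ 0 := Nat.zero_le _
      omega
  · intro j
    refine Fin.cases ?_ (fun i => ?_) j
    · simp only [Fin.cons_zero, Fin.val_zero, mul_zero, zero_add]
      omega
    · simp only [Fin.cons_succ]
      have h1 := hC i
      have h2 : l1 * ((Q + 1) * ((b i).length + 1) + m + 2) =
          l1 * ((Q + 1) + m + 2) + l1 * (Q + 1) * (b i).length := by ring
      have h3 : ((i.succ : Fin (m + 1)) : ℕ) ≤ m := by rw [Fin.val_succ]; omega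
      omega

end LSys

end Pool.Agent.H6.ALT
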