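import Pool.Agent.H6.ALT.LSys

/-!
# ALT L1 pack, LDs: elementary properties of degree sequences

* `ds_ne`, `ds_length`: by induction.
* `ds_append`: the last slot of `u` is merged with the first slot of `v`: for `ds u = x ++ [e]`, `ds v = f :: y` one has
  `ds (u ++ v) = x ++ [e + f] ++ y`. Prove it in this form by induction on `u`.
* `ds_ctx`: if `SG (ds ω) (ds u)` and `ns ω = ns u` then the first difference is at the same index and the lists have the same
  length, so `SG (ds (p ++ ω ++ q)) (ds (p ++ u ++ q))`.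
* `ds_app`: `SG (ds ω) (ds u)`, `ns ω = ns u`, `q, q'` arbitrary: if `ds ω` and `ds u` differ before the last entry then
  the same suffixes are not needed; in general with the same first slot of `q` and `q'` at least as heavy: we need
  only: `SG (ds ω) (ds u)`, `ns ω = ns u`, and (`q' = q` or `SG (ds q') (ds q)`) give `SG (ds (ω ++ q')) (ds (u ++ q))`.
  (If the first difference of `ds ω`, `ds u` is at the last entry, then `e + f > e' + f'` with `e > e'` and `f ≥ f'`, where `f, f'` are the
  first entries of `ds q'`, `ds q`: from `SG (ds q') (ds q)` one gets `f ≥ f'`.)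
* `dgw_perm`, `tcw_perm`, `ns_perm`: invariance under permutations. `sum_ds_le`.
-/

set_option autoImplicit false

namespace Pool.Agent.H6.ALT

namespace LSys

variable {R E : Type*} [CommRing R] [Ring E] [Algebra R E] {J I : Submodule R E} {ι : Type}
  (S : LSys R J I ι)

private theorem LDs_addHead_length (n : ℕ) (l : List ℕ) : (addHead n l).length = l.length := by
  cases l <;> simp [addHead]

private theorem LDs_addHead_sum (n : ℕ) (l : List ℕ) : (addHead n l).sum ≤ n + l.sum := by
  cases l with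
  | nil => simp [addHead]
  | cons e r => simp [addHead]; omega

private theorem LDs_addHead_addHead (n m : ℕ) (l : List ℕ) :
    addHead n (addHead m l) = addHead (n + m) l := by
  cases l with
  | nil => rfl
  | cons e r => simp [addHead]; omega

private theorem LDs_ds_cons_ord {i : ι} (h : S.tc i = 0) (w : List ι) :
    S.ds (i :: w) = addHead (S.dg i) (S.ds w) := by
  simp [ds, h]

private theorem LDs_ds_cons_sp {i : ι} (h : S.tc i ≠ 0) (w : List ι) :
    S.ds (i :: w) = 0 :: S.ds w := by
  simp [ds, h]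

private theorem LDs_ns_cons_ord {i : ι} (h : S.tc i = 0) (w : List ι) :
    S.ns (i :: w) = S.ns w := by
  simp [ns, h]

private theorem LDs_ns_cons_sp {i : ι} (h : S.tc i ≠ 0) (w : List ι) :
    S.ns (i :: w) = S.ns w + 1 := by
  simp [ns, h]

theorem ds_length (w : List ι) : (S.ds w).length = S.ns w + 1 := by
  induction w with
  | nil => rfl
  | cons i w ih =>
    by_cases h : S.tc i = 0
    · rw [LDs_ds_cons_ord S h, LDs_ns_cons_ord S h, LDs_addHead_length, ih]
    · rw [LDs_ds_cons_sp S h, LDs_ns_cons_sp S h, List.length_cons, ih]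

theorem ds_append (u v : List ι) : ∃ (x y : List ℕ) (e f : ℕ), S.ds u = x ++ [e] ∧ S.ds v = f :: y ∧
    S.ds (u ++ v) = x ++ [e + f] ++ y := by
  obtain ⟨f, y, hv⟩ : ∃ f y, S.ds v = f :: y := by
    cases h : S.ds v with
    | nil =>
      have := S.ds_length v
      rw [h] at this
      simp at this
    | cons f y => exact ⟨f, y, rfl⟩
  have key : ∃ (x : List ℕ) (e : ℕ), S.ds u = x ++ [e] ∧ S.ds (u ++ v) = x ++ [e + f] ++ y := by
    induction u with
    | nil => exact ⟨[], 0, rfl, by simp [hv]⟩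
    | cons i u ih =>
      obtain ⟨x, e, h1, h2⟩ := ih
      by_cases h : S.tc i = 0
      · rw [List.cons_append, LDs_ds_cons_ord S h, LDs_ds_cons_ord S h, h1, h2]
        cases x with
        | nil => exact ⟨[], S.dg i + e, rfl, by simp [addHead]; omega⟩
        | cons c x => exact ⟨(S.dg i + c) :: x, e, rfl, rfl⟩
      · rw [List.cons_append, LDs_ds_cons_sp S h, LDs_ds_cons_sp S h, h1, h2]
        exact ⟨0 :: x, e, rfl, rfl⟩
  obtain ⟨x, e, h1, h2⟩ := key
  exact ⟨x, y, e, f, h1, hv, h2⟩

theorem ds_sum_le (w : List ι) : (S.ds w).sum ≤ S.dgw w := by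
  induction w with
  | nil => simp [ds, dgw]
  | cons i w ih =>
    have h0 : S.dgw (i :: w) = S.dg i + S.dgw w := by simp [dgw]
    by_cases h : S.tc i = 0
    · rw [LDs_ds_cons_ord S h, h0]
      have := LDs_addHead_sum (S.dg i) (S.ds w)
      omega
    · rw [LDs_ds_cons_sp S h, h0, List.sum_cons]
      omega

theorem ns_append (u v : List ι) : S.ns (u ++ v) = S.ns u + S.ns v := by
  induction u with
  | nil => simp [ns]
  | cons i u ih =>
    by_cases h : S.tc i = 0
    · rw [List.cons_append, LDs_ns_cons_ord S h, LDs_ns_cons_ord S h, ih]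
    · rw [List.cons_append, LDs_ns_cons_sp S h, LDs_ns_cons_sp S h, ih]
      omega

theorem ns_perm {u v : List ι} (h : u.Perm v) : S.ns u = S.ns v := by
  induction h with
  | nil => rfl
  | cons i _ ih =>
    by_cases h : S.tc i = 0
    · rw [LDs_ns_cons_ord S h, LDs_ns_cons_ord S h, ih]
    · rw [LDs_ns_cons_sp S h, LDs_ns_cons_sp S h, ih]
  | swap i j l =>
    by_cases hi : S.tc i = 0 <;> by_cases hj : S.tc j = 0 <;>
      simp [LDs_ns_cons_ord, LDs_ns_cons_sp, hi, hj]
  | trans _ _ ih1 ih2 => exact ih1.trans ih2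

theorem dgw_perm {u v : List ι} (h : u.Perm v) : S.dgw u = S.dgw v :=
  (h.map S.dg).sum_eq

theorem tcw_perm {u v : List ι} (h : u.Perm v) : S.tcw u = S.tcw v :=
  (h.map S.tc).sum_eq

theorem tcw_le_dgw (w : List ι) : S.tcw w ≤ S.dgw w := by
  induction w with
  | nil => simp [tcw, dgw]
  | cons i w ih =>
    have h0 : S.dgw (i :: w) = S.dg i + S.dgw w := by simp [dgw]
    have h1 : S.tcw (i :: w) = S.tc i + S.tcw w := by simp [tcw]
    have := S.htc i
    omega

theorem ns_of_ord {w : List ι} (h : S.Ord w) : S.ns w = 0 ∧ S.tcw w = 0 ∧ S.ds w = [S.dgw w] := by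
  induction w with
  | nil => exact ⟨rfl, rfl, rfl⟩
  | cons i w ih =>
    have hi : S.tc i = 0 := h i List.mem_cons_self
    obtain ⟨h1, h2, h3⟩ := ih fun j hj => h j (List.mem_cons_of_mem _ hj)
    have h4 : S.tcw (i :: w) = S.tc i + S.tcw w := by simp [tcw]
    have h0 : S.dgw (i :: w) = S.dg i + S.dgw w := by simp [dgw]
    refine ⟨?_, ?_, ?_⟩
    · rw [LDs_ns_cons_ord S hi, h1]
    · rw [h4, hi, h2]
    · rw [LDs_ds_cons_ord S hi, h3, h0]
      rfl

theorem ds_ord_append {g : List ι} (h : S.Ord g) (w : List ι) :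
    S.ds (g ++ w) = addHead (S.dgw g) (S.ds w) := by
  induction g with
  | nil =>
    have : S.dgw [] = 0 := rfl
    rw [this, List.nil_append]
    cases S.ds w with
    | nil => rfl
    | cons e r => simp [addHead]
  | cons i g ih =>
    have hi : S.tc i = 0 := h i List.mem_cons_self
    have h0 : S.dgw (i :: g) = S.dg i + S.dgw g := by simp [dgw]
    rw [List.cons_append, LDs_ds_cons_ord S hi, ih fun j hj => h j (List.mem_cons_of_mem _ hj),
      LDs_addHead_addHead, h0]

private theorem LDs_SG_head {f f2 : ℕ} {y y2 : List ℕ} (h : SG (f :: y) (f2 :: y2)) :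
    f2 < f ∨ (f = f2 ∧ SG y y2) := by
  obtain ⟨p, a, b, r, r2, h1, h2, hab⟩ := h
  cases p with
  | nil =>
    rw [List.nil_append, List.cons.injEq] at h1 h2
    left
    omega
  | cons g p =>
    rw [List.cons_append, List.cons.injEq] at h1 h2
    exact Or.inr ⟨h1.1.trans h2.1.symm, p, a, b, r, r2, h1.2, h2.2, hab⟩

theorem ds_app {ω u q' q : List ι} (h : SG (S.ds ω) (S.ds u)) (hn : S.ns ω = S.ns u)
    (hq : q' = q ∨ SG (S.ds q') (S.ds q)) : SG (S.ds (ω ++ q')) (S.ds (u ++ q)) := by
  obtain ⟨x, y, e, f, h1, h2, h3⟩ := S.ds_append ω q'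
  obtain ⟨x2, y2, e2, f2, g1, g2, g3⟩ := S.ds_append u q
  have hf : f2 ≤ f := by
    rcases hq with rfl | hq
    · rw [h2, List.cons.injEq] at g2
      omega
    · rw [h2, g2] at hq
      rcases LDs_SG_head hq with h | h
      · omega
      · omega
  have hlen : x.length = x2.length := by
    have a1 := S.ds_length ω
    have a2 := S.ds_length u
    rw [h1] at a1
    rw [g1] at a2
    simp at a1 a2
    omega
  rw [h1, g1] at h
  obtain ⟨p, a, b, r, r2, k1, k2, hab⟩ := h
  have hlr : r.length = r2.length := by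
    have a1 := congrArg List.length k1
    have a2 := congrArg List.length k2
    simp at a1 a2
    omega
  rw [h3, g3]
  rcases List.eq_nil_or_concat r with rfl | ⟨r', c, rfl⟩
  · have hr2 : r2 = [] := List.length_eq_zero_iff.1 hlr.symm
    subst hr2
    obtain ⟨rfl, k3⟩ := List.append_inj' k1 rfl
    obtain ⟨rfl, k4⟩ := List.append_inj' k2 rfl
    rw [List.cons.injEq] at k3 k4
    refine ⟨x2, e + f, e2 + f2, y, y2, by simp, by simp, ?_⟩
    omega
  · rcases List.eq_nil_or_concat r2 with rfl | ⟨r2', c2, rfl⟩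
    · simp at hlr
    · have k1' : x ++ [e] = (p ++ a :: r') ++ [c] := by rw [k1]; simp
      have k2' : x2 ++ [e2] = (p ++ b :: r2') ++ [c2] := by rw [k2]; simp
      obtain ⟨rfl, -⟩ := List.append_inj' k1' rfl
      obtain ⟨rfl, -⟩ := List.append_inj' k2' rfl
      exact ⟨p, a, b, r' ++ [e + f] ++ y, r2' ++ [e2 + f2] ++ y2, by simp, by simp, hab⟩

theorem ds_pre (p : List ι) {q' q : List ι} (h : SG (S.ds q') (S.ds q)) :
    SG (S.ds (p ++ q')) (S.ds (p ++ q)) := by
  obtain ⟨x, y, e, f, h1, h2, h3⟩ := S.ds_append p q'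
  obtain ⟨x2, y2, e2, f2, g1, g2, g3⟩ := S.ds_append p q
  rw [h1] at g1
  obtain ⟨rfl, k⟩ := List.append_inj' g1 rfl
  rw [List.cons.injEq] at k
  obtain ⟨rfl, -⟩ := k
  rw [h3, g3]
  rw [h2, g2] at h
  rcases LDs_SG_head h with h | ⟨rfl, pp, a, b, r, r2, rfl, rfl, hab⟩
  · exact ⟨x, e + f, e + f2, y, y2, by simp, by simp, by omega⟩
  · exact ⟨x ++ [e + f] ++ pp, a, b, r, r2, by simp, by simp, hab⟩

theorem ds_ctx (p q : List ι) {ω u : List ι} (h : SG (S.ds ω) (S.ds u)) (hn : S.ns ω = S.ns u) :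
    SG (S.ds (p ++ ω ++ q)) (S.ds (p ++ u ++ q)) := by
  rw [List.append_assoc, List.append_assoc]
  exact S.ds_pre p (S.ds_app h hn (Or.inl rfl))

/-- words of the same degree sequence length, the first slot is at least as heavy -/
theorem ds_head_le {ω u : List ι} (h : SG (S.ds ω) (S.ds u) ∨ ω = u) :
    (S.ds u).headD 0 ≤ (S.ds ω).headD 0 := by
  rcases h with h | rfl
  · obtain ⟨x, y, e, f, -, h2, -⟩ := S.ds_append [] ω
    obtain ⟨x2, y2, e2, f2, -, g2, -⟩ := S.ds_append [] u
    rw [h2, g2] at h ⊢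
    rcases LDs_SG_head h with h | h
    · exact h.le
    · exact h.1.ge
  · exact le_rfl

end LSys

end Pool.Agent.H6.ALT
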