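import Pool.Agent.H6.ALT.LDs

/-!
# ALT L1 pack, LHv: calculus of the spaces `Hv` and `Low`

* `Hv_mul`: `x y - val (u ++ v) = (x - val u) y + val u (y - val v)`; in the first summand `y = val v + (element of Hv v)`: words
  `ω ++ v` and `ω ++ ω'` (`ds_app`), in the second words `u ++ ω'` (`ds_pre`).
* `Hv_prod`: by induction on the list, from `Hv_mul`; the empty product is `1 = val []`, `0 ∈ Hv []`.
* `Hv_ctx`, `Low_ctx`: `ds_ctx`, `dgw_append`, `tcw_append`, `ns_append`; for `W`: `W_mul`.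
* `Hv_le_Low`: permutations preserve degree, content and number of special letters.
* `W_anti`: `W d L' ≤ W d L` for `L ≤ L'`.
-/

set_option autoImplicit false

namespace Pool.Agent.H6.ALT

namespace LSys

variable {R E : Type*} [CommRing R] [Ring E] [Algebra R E] {J I : Submodule R E} {ι : Type}
  (S : LSys R J I ι)

theorem W_anti {d L L' : ℕ} (h : L ≤ L') : S.W d L' ≤ S.W d L := by
  refine Submodule.span_mono ?_
  rintro x ⟨w, hd, hL, rfl⟩
  exact ⟨w, hd, h.trans hL, rfl⟩

theorem val_mem_W (w : List ι) : S.val w ∈ S.W (S.dgw w) (S.tcw w) :=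
  Submodule.subset_span ⟨w, rfl, le_rfl, rfl⟩

private theorem LHv_span_mul {s t r : Set E} (h : ∀ a ∈ s, ∀ b ∈ t, a * b ∈ Submodule.span R r)
    {x y : E} (hx : x ∈ Submodule.span R s) (hy : y ∈ Submodule.span R t) :
    x * y ∈ Submodule.span R r := by
  have h1 : x * y ∈ Submodule.span R s * Submodule.span R t := Submodule.mul_mem_mul hx hy
  rw [Submodule.span_mul_span] at h1
  refine (Submodule.span_le.2 ?_) h1
  rintro z ⟨a, ha, b, hb, rfl⟩
  exact h a ha b hb

theorem W_mul {d L d' L' : ℕ} {x y : E} (hx : x ∈ S.W d L) (hy : y ∈ S.W d' L') :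
    x * y ∈ S.W (d + d') (L + L') := by
  refine LHv_span_mul ?_ hx hy
  rintro a ⟨w, hd, hL, rfl⟩ b ⟨w', hd', hL', rfl⟩
  refine Submodule.subset_span ⟨w ++ w', ?_, ?_, ?_⟩
  · rw [dgw_append, hd, hd']
  · rw [tcw_append]; omega
  · rw [val_append]

private theorem LHv_mul_mul {x y : E} {u v : List ι} (hx : x ∈ S.Hv u) (hy : y ∈ S.Hv v) :
    x * y ∈ S.Hv (u ++ v) := by
  refine LHv_span_mul ?_ hx hy
  rintro a ⟨w, hp, hs, rfl⟩ b ⟨w', hp', hs', rfl⟩
  refine Submodule.subset_span ⟨w ++ w', hp.append hp', ?_, ?_⟩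
  · exact S.ds_app hs (S.ns_perm hp) (Or.inr hs')
  · rw [val_append]

private theorem LHv_mul_val {x : E} {u : List ι} (v : List ι) (hx : x ∈ S.Hv u) :
    x * S.val v ∈ S.Hv (u ++ v) := by
  have hv : S.val v ∈ Submodule.span R {S.val v} := Submodule.mem_span_singleton_self _
  refine LHv_span_mul ?_ hx hv
  rintro a ⟨w, hp, hs, rfl⟩ b hb
  rw [Set.mem_singleton_iff] at hb
  subst hb
  refine Submodule.subset_span ⟨w ++ v, hp.append_right v, ?_, ?_⟩
  · exact S.ds_app hs (S.ns_perm hp) (Or.inl rfl)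
  · rw [val_append]

private theorem LHv_val_mul {y : E} {v : List ι} (u : List ι) (hy : y ∈ S.Hv v) :
    S.val u * y ∈ S.Hv (u ++ v) := by
  have hu : S.val u ∈ Submodule.span R {S.val u} := Submodule.mem_span_singleton_self _
  refine LHv_span_mul ?_ hu hy
  rintro a ha b ⟨w, hp, hs, rfl⟩
  rw [Set.mem_singleton_iff] at ha
  subst ha
  refine Submodule.subset_span ⟨u ++ w, hp.append_left u, ?_, ?_⟩
  · exact S.ds_pre u hs
  · rw [val_append]

theorem Hv_mul {x y : E} {u v : List ι} (hx : x - S.val u ∈ S.Hv u) (hy : y - S.val v ∈ S.Hv v) :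
    x * y - S.val (u ++ v) ∈ S.Hv (u ++ v) := by
  have h : x * y - S.val (u ++ v) = (x - S.val u) * S.val v + (x - S.val u) * (y - S.val v) +
      S.val u * (y - S.val v) := by
    rw [val_append]; noncomm_ring
  rw [h]
  exact Submodule.add_mem _ (Submodule.add_mem _ (S.LHv_mul_val v hx) (S.LHv_mul_mul hx hy))
    (S.LHv_val_mul u hy)

theorem Hv_prod (l : List (E × List ι)) (h : ∀ z ∈ l, z.1 - S.val z.2 ∈ S.Hv z.2) :
    (l.map Prod.fst).prod - S.val (l.map Prod.snd).flatten ∈ S.Hv (l.map Prod.snd).flatten := by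
  induction l with
  | nil =>
    have h0 : (List.map Prod.fst ([] : List (E × List ι))).prod -
        S.val (List.map Prod.snd ([] : List (E × List ι))).flatten = 0 := by
      simp [val_nil]
    rw [h0]
    exact Submodule.zero_mem _
  | cons z l ih =>
    simp only [List.map_cons, List.prod_cons, List.flatten_cons]
    exact S.Hv_mul (h z List.mem_cons_self) (ih fun w hw => h w (List.mem_cons_of_mem _ hw))

theorem Hv_ctx (p q : List ι) {u : List ι} {x : E} (hx : x ∈ S.Hv u) :
    S.val p * x * S.val q ∈ S.Hv (p ++ u ++ q) :=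
  S.LHv_mul_val q (S.LHv_val_mul p hx)

theorem Hv_le_Low (w : List ι) : S.Hv w ≤ S.Low w := by
  refine Submodule.span_le.2 ?_
  rintro x ⟨ω, hp, hs, rfl⟩
  refine (le_sup_left : _ ≤ S.Low w) (Submodule.subset_span ⟨ω, S.dgw_perm hp, S.tcw_perm hp,
    S.ns_perm hp, hs, rfl⟩)

theorem Low_ctx (p q : List ι) {u : List ι} {x : E} (hx : x ∈ S.Low u) :
    S.val p * x * S.val q ∈ S.Low (p ++ u ++ q) := by
  obtain ⟨a, ha, b, hb, rfl⟩ := Submodule.mem_sup.1 hx
  rw [mul_add, add_mul]
  refine Submodule.add_mem _ ((le_sup_left : _ ≤ S.Low (p ++ u ++ q)) ?_)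
    ((le_sup_right : _ ≤ S.Low (p ++ u ++ q)) ?_)
  · have hp : S.val p ∈ Submodule.span R {S.val p} := Submodule.mem_span_singleton_self _
    have hq : S.val q ∈ Submodule.span R {S.val q} := Submodule.mem_span_singleton_self _
    refine LHv_span_mul (s := {x | ∃ ω : List ι, S.dgw ω = S.dgw u ∧ S.tcw ω = S.tcw u ∧
      S.ns ω = S.ns u ∧ SG (S.ds ω) (S.ds u) ∧ x = S.val p * S.val ω}) ?_ ?_ hq
    · rintro a ⟨ω, h1, h2, h3, h4, rfl⟩ b hb
      rw [Set.mem_singleton_iff] at hb
      subst hb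
      refine Submodule.subset_span ⟨p ++ ω ++ q, ?_, ?_, ?_, ?_, ?_⟩
      · simp only [dgw_append, h1]
      · simp only [tcw_append, h2]
      · simp only [ns_append, h3]
      · exact S.ds_ctx p q h4 h3
      · simp only [val_append]
    · refine LHv_span_mul ?_ hp ha
      rintro a ha b ⟨ω, h1, h2, h3, h4, rfl⟩
      rw [Set.mem_singleton_iff] at ha
      subst ha
      exact Submodule.subset_span ⟨ω, h1, h2, h3, h4, rfl⟩
  · have h1 := S.W_mul (S.W_mul (S.val_mem_W p) hb) (S.val_mem_W q)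
    have e1 : S.dgw (p ++ u ++ q) = S.dgw p + S.dgw u + S.dgw q := by
      simp only [dgw_append]
    have e2 : S.tcw (p ++ u ++ q) + 1 = S.tcw p + (S.tcw u + 1) + S.tcw q := by
      simp only [tcw_append]; omega
    rw [e1, e2]
    exact h1

/-- `Low` depends only on degree, content, number of special letters and degree sequence -/
theorem Low_congr {u v : List ι} (h1 : S.dgw u = S.dgw v) (h2 : S.tcw u = S.tcw v)
    (h3 : S.ns u = S.ns v) (h4 : S.ds u = S.ds v) : S.Low u = S.Low v := by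
  unfold Low
  rw [h1, h2, h3, h4]

end LSys

end Pool.Agent.H6.ALT
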