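import Pool.Agent.H6.ALT.Words

/-!
# ALT L1 pack, LSys: letter systems, slots, degree sequences

A letter system: letters `ι` with values in a Jordan subspace `J` of an associative algebra `E`, formal degree `dg ≥ 1` and
content `tc ≤ dg`; a letter is special if `tc ≠ 0` (then its value is in the nil ideal `I`), ordinary otherwise.
`ds w` is the list of the degrees of the slots (the maximal ordinary subwords between the special letters; there are
`ns w + 1` of them).  A word `ω` is smaller than `w` if `SG (ds ω) (ds w)`: its degree sequence is lexicographically heavier.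
-/

set_option autoImplicit false

namespace Pool.Agent.H6.ALT

variable {R E : Type*} [CommRing R] [Ring E] [Algebra R E] {J I : Submodule R E}

/-- letter systems -/
structure LSys (R : Type*) {E : Type*} [CommRing R] [Ring E] [Algebra R E] (J I : Submodule R E)
    (ι : Type) where
  ev : ι → E
  dg : ι → ℕ
  tc : ι → ℕ
  hdg : ∀ i, 1 ≤ dg i
  htc : ∀ i, tc i ≤ dg i
  evJ : ∀ i, ev i ∈ J
  evI : ∀ i, tc i ≠ 0 → ev i ∈ I

namespace LSys

variable {ι : Type} (S : LSys R J I ι)

/-- value of a word -/
def val (w : List ι) : E := evw S.ev w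

/-- degree of a word -/
def dgw (w : List ι) : ℕ := (w.map S.dg).sum

/-- content of a word -/
def tcw (w : List ι) : ℕ := (w.map S.tc).sum

/-- a word is ordinary if all its letters are -/
def Ord (w : List ι) : Prop := ∀ i ∈ w, S.tc i = 0

/-- number of special letters -/
def ns : List ι → ℕ
  | [] => 0
  | i :: w => if S.tc i = 0 then ns w else ns w + 1

/-- add `n` to the first entry -/
def addHead (n : ℕ) : List ℕ → List ℕ
  | [] => []
  | e :: r => (n + e) :: r

/-- degree sequence -/
def ds : List ι → List ℕ
  | [] => [0]
  | i :: w => if S.tc i = 0 then addHead (S.dg i) (ds w) else 0 :: ds w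

/-- values of words of degree `d` and content `≥ L` -/
def W (d L : ℕ) : Submodule R E :=
  Submodule.span R {x | ∃ w : List ι, S.dgw w = d ∧ L ≤ S.tcw w ∧ x = S.val w}

/-- values of the rearrangements of `w` with heavier degree sequence -/
def Hv (w : List ι) : Submodule R E :=
  Submodule.span R {x | ∃ ω : List ι, ω.Perm w ∧ SG (S.ds ω) (S.ds w) ∧ x = S.val ω}

/-- values of the words of the same degree, content and number of special letters with heavier degree sequence, and
of the words of the same degree and larger content -/
def Low (w : List ι) : Submodule R E :=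
  Submodule.span R {x | ∃ ω : List ι, S.dgw ω = S.dgw w ∧ S.tcw ω = S.tcw w ∧ S.ns ω = S.ns w ∧
    SG (S.ds ω) (S.ds w) ∧ x = S.val ω} ⊔ S.W (S.dgw w) (S.tcw w + 1)

/-- pure letters: ordinary of degree one -/
def Pure (i : ι) : Prop := S.tc i = 0 ∧ S.dg i = 1

/-- ordinary words of large degree end with a large power of a pure letter, modulo larger content -/
def OF : Prop := ∃ l1 l0 : ℕ, ∀ (H : ℕ) (w : List ι), S.Ord w → l1 * H + l0 ≤ S.dgw w →
  S.val w ∈ Submodule.span R {x | ∃ (g : List ι) (i : ι), S.Ord g ∧ S.Pure i ∧
    S.dgw g + H = S.dgw w ∧ x = S.val (g ++ List.replicate H i)} ⊔ S.W (S.dgw w) 1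

theorem val_nil : S.val [] = 1 := rfl

theorem val_append (u v : List ι) : S.val (u ++ v) = S.val u * S.val v := evw_append _ _ _

theorem val_cons (i : ι) (w : List ι) : S.val (i :: w) = S.ev i * S.val w := evw_cons _ _ _

theorem dgw_append (u v : List ι) : S.dgw (u ++ v) = S.dgw u + S.dgw v := by simp [dgw]

theorem tcw_append (u v : List ι) : S.tcw (u ++ v) = S.tcw u + S.tcw v := by simp [tcw]

end LSys

end Pool.Agent.H6.ALT
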