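import Pool.Agent.H6.ALT.ShT3

/-!
# ALT L1 pack, ShStep: from `m`-divisible words in the T-alphabet to `m+1`-divisible words

Let `U_i = (Us i).map dec` flattened, `U_i = a U_i'` (it is not empty and begins with `a`). Put `v_0 = [a]`,
`v_(i+1) = U_i' ++ [a]`. For `m = 0`: `vs 0 = [a]`. In general
`v_0 v_1 ... v_m = U_0 ... U_(m-1) a` (for `m ≥ 1`), an infix since `dec c` begins with `a`.
Permutation `π ≠ 1` of `0, .., m`: if `π 0 = 0` the word is `U_σ(0) ... U_σ(m-1) a` with `σ ≠ 1`: `ShT3_compat` for the
code words (`catW (Us ∘ σ)` is a permutation of `catW Us`). If `π 0 = j + 1`: the word begins with `U_j' a`;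
`U_j = a^{i_j} b' ...`, `U_0 = a^{i_0} b ...` with `b, b' < a`, and `i_j ≤ i_0` (if `j = 0` clear; otherwise the permutation
which moves `Us j` to the front gives a strongly smaller word, so `U_j ...` is not strongly greater than `U_0 ...`).
So the word begins with `a^{i_j - 1} b'` (`b'` or, if ..., always a letter `b' < a` follows) and
`U_0` begins with `a^{i_j - 1} a`. Hence strongly smaller.
-/

set_option autoImplicit false

namespace Pool.Agent.H6.ALT

private theorem ShStep_rot (a : ℕ) (l : List (List ℕ)) :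
    a :: (l.map (fun v => v ++ [a])).flatten = (l.map (fun v => a :: v)).flatten ++ [a] := by
  induction l with
  | nil => rfl
  | cons v l ih =>
    rw [List.map_cons, List.flatten_cons, List.map_cons, List.flatten_cons, List.append_assoc,
      List.append_assoc, ← ih]
    rfl

private theorem ShStep_flat {m : ℕ} (dec : ℕ → List ℕ) (Us : Fin m → List ℕ) :
    ((catW Us).map dec).flatten = catW (fun i => ((Us i).map dec).flatten) := by
  unfold catW
  rw [List.map_flatten, List.flatten_flatten, List.map_map, List.map_ofFn]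
  rfl

private theorem ShStep_perm {m : ℕ} (Us : Fin m → List ℕ) (σ : Equiv.Perm (Fin m)) :
    (catW (Us ∘ σ)).Perm (catW Us) := by
  unfold catW
  exact (Equiv.Perm.ofFn_comp_perm σ Us).flatten

private theorem ShStep_asymm {u v : List ℕ} (h : SG u v) (h' : SG v u) : False :=
  SG.irrefl u (h.trans h')

/-- the shape of a nonempty code word -/
private theorem ShStep_shape {a s N k : ℕ} {dec : ℕ → List ℕ} (h : TCode a s N k dec)
    {u : List ℕ} (hu : u ≠ []) (hk : ∀ c ∈ u, c < k) :
    ∃ (i b : ℕ) (r : List ℕ), (u.map dec).flatten = List.replicate (i + 1) a ++ b :: r ∧ b < a := by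
  cases u with
  | nil => exact absurd rfl hu
  | cons c u =>
    obtain ⟨i, w, hd, hi, -, hw, -, hwa⟩ := h.isT c (hk c (by simp))
    cases w with
    | nil => exact absurd rfl hw
    | cons b w =>
      obtain ⟨i', rfl⟩ : ∃ i', i = i' + 1 := ⟨i - 1, by omega⟩
      refine ⟨i', b, w ++ (u.map dec).flatten, ?_, hwa b (by simp)⟩
      rw [List.map_cons, List.flatten_cons, hd, List.append_assoc]
      rfl

theorem ShStep_main {a s N k : ℕ} {dec : ℕ → List ℕ} (h : TCode a s N k dec) {m : ℕ}
    (Us : Fin m → List ℕ) (hU : ∀ i, ∀ c ∈ Us i, c < k) (hD : MDiv Us) (c : ℕ) (hc : c < k) :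
    ∃ vs : Fin (m + 1) → List ℕ, MDiv vs ∧ catW vs <:+: ((catW Us ++ [c]).map dec).flatten := by
  classical
  obtain ⟨V, hV⟩ : ∃ V : Fin m → List ℕ, V = fun i => ((Us i).map dec).flatten := ⟨_, rfl⟩
  have hshape : ∀ i, ∃ (e b : ℕ) (r : List ℕ), V i = List.replicate (e + 1) a ++ b :: r ∧ b < a := by
    intro i
    rw [hV]
    exact ShStep_shape h (hD.1 i) (hU i)
  choose e b r hVr hba using hshape
  obtain ⟨V', hV'⟩ : ∃ V' : Fin m → List ℕ, V' = fun i => List.replicate (e i) a ++ b i :: r i :=
    ⟨_, rfl⟩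
  have hVV' : ∀ i, V i = a :: V' i := by
    intro i
    rw [hVr i, hV', List.replicate_succ]
    rfl
  have hcomp : ∀ σ : Equiv.Perm (Fin m), σ ≠ 1 → SG (catW V) (catW (V ∘ σ)) := by
    intro σ hσ
    have hall : ∀ x ∈ catW Us, x < k := by
      intro x hx
      rw [catW, List.mem_flatten] at hx
      obtain ⟨l, hl, hxl⟩ := hx
      rw [List.mem_ofFn] at hl
      obtain ⟨i, rfl⟩ := hl
      exact hU i x hxl
    have h1 := ShT3_compat h hall (ShStep_perm Us σ) (hD.2 σ hσ)
    rw [ShStep_flat, ShStep_flat] at h1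
    rw [hV]
    exact h1
  have hcat : ∀ τ : Fin m → Fin m, a :: (List.ofFn (fun i => V' (τ i) ++ [a])).flatten =
      catW (V ∘ τ) ++ [a] := by
    intro τ
    have h1 := ShStep_rot a (List.ofFn (fun i => V' (τ i)))
    rw [List.map_ofFn, List.map_ofFn] at h1
    have h2 : catW (V ∘ τ) = (List.ofFn ((fun v => a :: v) ∘ fun i => V' (τ i))).flatten := by
      unfold catW
      congr 2
      funext i
      exact hVV' (τ i)
    rw [h2]
    exact h1
  obtain ⟨vs, hvs⟩ : ∃ vs : Fin (m + 1) → List ℕ,
      vs = Fin.cons (α := fun _ => List ℕ) [a] (fun i => V' i ++ [a]) := ⟨_, rfl⟩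
  have hvs0 : vs 0 = [a] := by rw [hvs]; rfl
  have hvss : ∀ i : Fin m, vs i.succ = V' i ++ [a] := by
    intro i
    rw [hvs]
    rfl
  have hvscat : catW vs = catW V ++ [a] := by
    have h1 := hcat id
    rw [catW, List.ofFn_succ, List.flatten_cons, hvs0]
    simp only [hvss]
    exact h1
  refine ⟨vs, ⟨?_, ?_⟩, ?_⟩
  · intro i
    refine Fin.cases ?_ (fun j => ?_) i
    · rw [hvs0]
      exact List.cons_ne_nil _ _
    · rw [hvss]
      exact List.append_ne_nil_of_right_ne_nil _ (List.cons_ne_nil _ _)
  · intro π hπ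
    obtain ⟨⟨p, σ⟩, hpσ⟩ := Equiv.Perm.decomposeFin.symm.surjective π
    have hp0 : π 0 = p := by
      rw [← hpσ, Equiv.Perm.decomposeFin_symm_apply_zero]
    have hps : ∀ x : Fin m, π x.succ = Equiv.swap 0 p (σ x).succ := by
      intro x
      rw [← hpσ, Equiv.Perm.decomposeFin_symm_apply_succ]
    rw [hvscat]
    refine Fin.cases (motive := fun p => π 0 = p →
      (∀ x : Fin m, π x.succ = Equiv.swap 0 p (σ x).succ) →
      SG (catW V ++ [a]) (catW (vs ∘ π))) ?_ (fun j => ?_) p hp0 hps
    · intro h0 hs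
      have hσ : σ ≠ 1 := by
        intro hσ
        apply hπ
        refine Equiv.ext fun x => ?_
        refine Fin.cases ?_ (fun y => ?_) x
        · rw [h0]
          rfl
        · rw [hs y, hσ, Equiv.swap_self]
          rfl
      have h1 : catW (vs ∘ π) = catW (V ∘ σ) ++ [a] := by
        rw [← hcat σ, catW, List.ofFn_succ, List.flatten_cons, Function.comp_apply, h0, hvs0]
        have h2 : (fun i : Fin m => (vs ∘ π) i.succ) = fun i => V' (σ i) ++ [a] := by
          funext i
          rw [Function.comp_apply, hs i, Equiv.swap_self, Equiv.refl_apply, hvss]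
        rw [h2]
        rfl
      rw [h1]
      exact (hcomp σ hσ).append_right _ _
    · intro h0 _
      -- the first letters
      have hm : 0 < m := lt_of_le_of_lt (Nat.zero_le _) j.2
      obtain ⟨z, hz⟩ : ∃ z : Fin m, z = ⟨0, hm⟩ := ⟨_, rfl⟩
      have hfirst : ∀ W : Fin m → List ℕ, ∃ t, catW W = W z ++ t := by
        intro W
        obtain ⟨m', rfl⟩ : ∃ m', m = m' + 1 := ⟨m - 1, by omega⟩
        refine ⟨(List.ofFn fun i : Fin m' => W i.succ).flatten, ?_⟩
        rw [catW, List.ofFn_succ, List.flatten_cons, hz]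
        rfl
      have hle : e j ≤ e z := by
        by_contra hlt
        rw [not_le] at hlt
        have hjz : j ≠ z := by
          rintro rfl
          exact lt_irrefl _ hlt
        have hσ : Equiv.swap z j ≠ 1 := by
          intro h1
          have h2 : Equiv.swap z j z = (1 : Equiv.Perm (Fin m)) z := by rw [h1]
          rw [Equiv.swap_apply_left] at h2
          exact hjz h2
        have h1 := hcomp _ hσ
        obtain ⟨t, ht⟩ := hfirst V
        obtain ⟨t', ht'⟩ := hfirst (V ∘ Equiv.swap z j)
        rw [Function.comp_apply, Equiv.swap_apply_left] at ht'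
        refine ShStep_asymm h1 ?_
        obtain ⟨d, hd⟩ : ∃ d, e j + 1 = (e z + 1) + (d + 1) := ⟨e j - e z - 1, by omega⟩
        refine ⟨List.replicate (e z + 1) a, a, b z,
          List.replicate d a ++ b j :: r j ++ t', r z ++ t, ?_, ?_, hba z⟩
        · rw [ht', hVr j, hd, List.replicate_add, List.replicate_succ (n := d)]
          simp
        · rw [ht, hVr z]
          simp
      obtain ⟨t, ht⟩ := hfirst V
      have h1 : catW (vs ∘ π) = (V' j ++ [a]) ++
          (List.ofFn fun i : Fin m => (vs ∘ π) i.succ).flatten := by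
        rw [catW, List.ofFn_succ, List.flatten_cons, Function.comp_apply, h0, hvss]
      obtain ⟨d, hd⟩ : ∃ d, e z + 1 = e j + (d + 1) := ⟨e z - e j, by omega⟩
      refine ⟨List.replicate (e j) a, a, b j,
        List.replicate d a ++ b z :: r z ++ t ++ [a],
        r j ++ [a] ++ (List.ofFn fun i : Fin m => (vs ∘ π) i.succ).flatten, ?_, ?_, hba j⟩
      · rw [ht, hVr z, hd, List.replicate_add, List.replicate_succ]
        simp
      · rw [h1, hV']
        simp
  · obtain ⟨i, w, hd, hi, -, -, -, -⟩ := h.isT c hc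
    obtain ⟨i', rfl⟩ : ∃ i', i = i' + 1 := ⟨i - 1, by omega⟩
    have h1 : ((catW Us ++ [c]).map dec).flatten = catW vs ++ (List.replicate i' a ++ w) := by
      rw [List.map_append, List.flatten_append, ShStep_flat, hvscat, ← hV, List.append_assoc]
      congr 1
      rw [List.map_cons, List.map_nil, List.flatten_cons, List.flatten_nil, List.append_nil, hd,
        List.replicate_succ]
      rfl
    rw [h1]
    exact (List.prefix_append _ _).isInfix

end Pool.Agent.H6.ALT
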