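import Pool.Agent.H6.ALT.ShT1
import Pool.Agent.H6.ALT.ShT2
import Pool.Agent.H6.ALT.ShStep

/-!
# ALT L1 pack, ShA: Shirshov's lemma (powers of arbitrary words)

Induction on `m` (for all `k`). `m = 0`: `us : Fin 0 → _`, `catW us = []`, `N = 0`. Step `m → m + 1`: induction on `k`.
`k = 0`: `N = 1`. `k → k + 1`: `a = k` is the largest letter, `N' = N(m+1, k)`; `ShT1_factor` with `s = p`, `N = N'`.
First case: `powW p [a] = replicate p a`. Second case: induction hypothesis for `k`. Third case: code the T-words
(`ShT2_code`, `k'` codes) as a list `C` of codes, `C.map dec = ts`; `|w| < N' + p + |ts| (p + N')`, so for `|w|` large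
`|C| ≥ N(m, k') + 1`. Apply the case `m` to `C` without its last letter: `powW p V` infix of it gives
`powW p (V.map dec).flatten` infix of `w`; an `m`-divisible `Us` is followed by a code `c`: `ShStep_main`.
-/

set_option autoImplicit false

namespace Pool.Agent.H6.ALT

private theorem ShA_infix_map_flatten (dec : ℕ → List ℕ) {l l' : List ℕ} (h : l <:+: l') :
    (l.map dec).flatten <:+: (l'.map dec).flatten := by
  obtain ⟨s, t, rfl⟩ := h
  exact ⟨(s.map dec).flatten, (t.map dec).flatten, by simp⟩

private theorem ShA_map_flatten_powW (dec : ℕ → List ℕ) (p : ℕ) (V : List ℕ) :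
    ((powW p V).map dec).flatten = powW p (V.map dec).flatten := by
  induction p with
  | zero => simp [powW]
  | succ p ih =>
    have h1 : powW (p + 1) V = V ++ powW p V := by simp [powW, List.replicate_succ]
    have h2 : powW (p + 1) (V.map dec).flatten = (V.map dec).flatten ++ powW p (V.map dec).flatten := by
      simp [powW, List.replicate_succ]
    rw [h1, h2, List.map_append, List.flatten_append, ih]

private theorem ShA_powW_single (p a : ℕ) : powW p [a] = List.replicate p a := by
  induction p with
  | zero => simp [powW]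
  | succ p ih =>
    have h1 : powW (p + 1) [a] = a :: powW p [a] := by simp [powW, List.replicate_succ]
    rw [h1, ih, List.replicate_succ]

private theorem ShA_length_flatten {a s N : ℕ} (ts : List (List ℕ)) (h : ∀ t ∈ ts, IsT a s N t) :
    ts.flatten.length ≤ ts.length * (s + N) := by
  induction ts with
  | nil => simp
  | cons t ts ih =>
    have h1 : IsT a s N t := h t (by simp)
    have h2 := ih (fun t' ht' => h t' (by simp [ht']))
    obtain ⟨i, u, rfl, hi1, hi2, hu, huN, _⟩ := h1
    simp only [List.flatten_cons, List.length_append, List.length_replicate, List.length_cons]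
    have h3 : (ts.length + 1) * (s + N) = ts.length * (s + N) + (s + N) := by ring
    rw [h3]
    omega

private theorem ShA_code {a s N k : ℕ} {dec : ℕ → List ℕ} (hd : TCode a s N k dec) (ts : List (List ℕ))
    (h : ∀ t ∈ ts, IsT a s N t) : ∃ C : List ℕ, C.map dec = ts ∧ ∀ c ∈ C, c < k := by
  induction ts with
  | nil => exact ⟨[], by simp, by simp⟩
  | cons t ts ih =>
    obtain ⟨C, hC, hk⟩ := ih (fun t' ht' => h t' (by simp [ht']))
    obtain ⟨c, hc, hct⟩ := hd.surj t (h t (by simp))
    refine ⟨c :: C, by simp [hC, hct], ?_⟩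
    intro c' hc'
    rcases List.mem_cons.1 hc' with rfl | hc'
    · exact hc
    · exact hk c' hc'

private theorem ShA_mem_catW {α : Type*} {m : ℕ} (us : Fin m → List α) (i : Fin m) {x : α} (hx : x ∈ us i) :
    x ∈ catW us := by
  unfold catW
  rw [List.mem_flatten]
  exact ⟨us i, by simp [List.mem_ofFn], hx⟩

private theorem ShA_aux (p : ℕ) (hp : 0 < p) (m : ℕ) : ∀ k : ℕ, ∃ N : ℕ, ∀ w : List ℕ, (∀ a ∈ w, a < k) →
    N ≤ w.length →
    (∃ v : List ℕ, v ≠ [] ∧ powW p v <:+: w) ∨
    (∃ us : Fin m → List ℕ, MDiv us ∧ catW us <:+: w) := by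
  induction m with
  | zero =>
    intro k
    refine ⟨0, fun w _ _ => Or.inr ⟨fun i => i.elim0, ⟨fun i => i.elim0, ?_⟩, ?_⟩⟩
    · intro σ hσ
      exact absurd (Subsingleton.elim σ 1) hσ
    · simp [catW]
  | succ m ihm =>
    intro k
    induction k with
    | zero =>
      refine ⟨1, fun w hw hN => ?_⟩
      exfalso
      cases w with
      | nil => simp at hN
      | cons a w => exact absurd (hw a (by simp)) (by omega)
    | succ k ihk =>
      obtain ⟨N', hN'⟩ := ihk
      obtain ⟨k', dec, hd⟩ := ShT2_code k p N'
      obtain ⟨M, hM⟩ := ihm k'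
      refine ⟨N' + p + (M + 1) * (p + N'), fun w hw hN => ?_⟩
      rcases ShT1_factor k p N' w (fun x hx => by have := hw x hx; omega) with h | ⟨u, hu, huk, huw⟩ |
        ⟨w0, ts, w1, hwe, hw0, hts, hw1⟩
      · refine Or.inl ⟨[k], by simp, ?_⟩
        rw [ShA_powW_single]
        exact h
      · rcases hN' u huk (by omega) with ⟨v, hv, hvu⟩ | ⟨us, hus, husu⟩
        · exact Or.inl ⟨v, hv, hvu.trans huw⟩
        · exact Or.inr ⟨us, hus, husu.trans huw⟩
      · have hlen : w.length = w0.length + ts.flatten.length + w1.length := by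
          rw [hwe]; simp [Nat.add_assoc]
        have hfl := ShA_length_flatten ts hts
        have htl : M + 1 ≤ ts.length := by
          by_contra hcon
          have h1 : ts.length ≤ M := by omega
          have h2 : ts.length * (p + N') ≤ M * (p + N') := Nat.mul_le_mul_right _ h1
          have h3 : (M + 1) * (p + N') = M * (p + N') + (p + N') := by ring
          omega
        obtain ⟨C, hC, hCk⟩ := ShA_code hd ts hts
        have hCl : C.length = ts.length := by rw [← hC]; simp
        have hCw : (C.map dec).flatten <:+: w := ⟨w0, w1, by rw [hC, hwe]⟩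
        have hCne : C ≠ [] := by
          intro h0
          rw [h0] at hCl
          simp at hCl
          omega
        obtain ⟨C0, c, rfl⟩ : ∃ C0 c, C = C0 ++ [c] :=
          ⟨C.dropLast, C.getLast hCne, (List.dropLast_append_getLast hCne).symm⟩
        have hC0l : M ≤ C0.length := by
          simp at hCl
          omega
        have hC0k : ∀ a ∈ C0, a < k' := fun a ha => hCk a (by simp [ha])
        have hck : c < k' := hCk c (by simp)
        rcases hM C0 hC0k hC0l with ⟨V, hV, hVC⟩ | ⟨Us, hUs, hUC⟩
        · left
          refine ⟨(V.map dec).flatten, ?_, ?_⟩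
          · intro h0
            cases V with
            | nil => exact hV rfl
            | cons c' V =>
              have hc' : c' ∈ powW p (c' :: V) := by
                unfold powW
                rw [List.mem_flatten]
                refine ⟨c' :: V, ?_, by simp⟩
                rw [List.mem_replicate]
                exact ⟨by omega, rfl⟩
              have hc'' : c' ∈ C0 := hVC.subset hc'
              obtain ⟨i, u, hdu, -, -, hu, -, -⟩ := hd.isT c' (hC0k c' hc'')
              simp [hdu, hu] at h0
          · rw [← ShA_map_flatten_powW]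
            refine (ShA_infix_map_flatten dec hVC).trans (List.IsInfix.trans ?_ hCw)
            exact ShA_infix_map_flatten dec ⟨[], [c], by simp⟩
        · right
          obtain ⟨l, r, hlr⟩ := hUC
          obtain ⟨c2, r2, hc2⟩ : ∃ c2 r2, r ++ [c] = c2 :: r2 := by
            cases r with
            | nil => exact ⟨c, [], rfl⟩
            | cons c2 r => exact ⟨c2, r ++ [c], rfl⟩
          have hc2k : c2 < k' := by
            have : c2 ∈ r ++ [c] := by rw [hc2]; simp
            rcases List.mem_append.1 this with h1 | h1
            · exact hC0k c2 (by rw [← hlr]; simp [h1])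
            · simp at h1; rw [h1]; exact hck
          have hUk : ∀ i, ∀ c ∈ Us i, c < k' := fun i x hx =>
            hC0k x (by rw [← hlr]; simp [ShA_mem_catW Us i hx])
          obtain ⟨vs, hvs, hvc⟩ := ShStep_main hd Us hUk hUs c2 hc2k
          refine ⟨vs, hvs, hvc.trans (List.IsInfix.trans ?_ hCw)⟩
          refine ShA_infix_map_flatten dec ⟨l, r2, ?_⟩
          rw [← hlr, List.append_assoc (l ++ catW Us) r [c], hc2]
          simp

theorem ShA_main (m p k : ℕ) : ∃ N : ℕ, ∀ w : List ℕ, (∀ a ∈ w, a < k) → N ≤ w.length →
    (∃ v : List ℕ, v ≠ [] ∧ powW p v <:+: w) ∨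
    (∃ us : Fin m → List ℕ, MDiv us ∧ catW us <:+: w) := by
  rcases Nat.eq_zero_or_pos p with rfl | hp
  · exact ⟨0, fun w _ _ => Or.inl ⟨[0], by simp, by simp [powW]⟩⟩
  · exact ShA_aux p hp m k

end Pool.Agent.H6.ALT
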