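import Pool.Agent.H6.ALT.Words

/-!
# ALT L1 pack, ShT: T-words

`a` is the largest letter. A T-word (with bounds `s`, `N`) is `a^i u`, `1 ≤ i < s`, `u ≠ []`, `|u| < N`, all
letters of `u` smaller than `a`.
-/

set_option autoImplicit false

namespace Pool.Agent.H6.ALT

def IsT (a s N : ℕ) (t : List ℕ) : Prop :=
  ∃ (i : ℕ) (u : List ℕ), t = List.replicate i a ++ u ∧ 1 ≤ i ∧ i < s ∧ u ≠ [] ∧ u.length < N ∧
    ∀ x ∈ u, x < a

/-- the order of the T-alphabet: `t'` is larger than `t` if it is strongly greater or a proper prefix of `t` -/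
def TLt (t t' : List ℕ) : Prop := SG t' t ∨ ∃ r : List ℕ, r ≠ [] ∧ t = t' ++ r

/-- coding of the T-words by the numbers `< k`, increasing for `TLt` -/
structure TCode (a s N k : ℕ) (dec : ℕ → List ℕ) : Prop where
  isT : ∀ c < k, IsT a s N (dec c)
  surj : ∀ t, IsT a s N t → ∃ c < k, dec c = t
  lt : ∀ c c', c < k → c' < k → c < c' → TLt (dec c) (dec c')

end Pool.Agent.H6.ALT
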