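import Pool.Agent.H6.ALT.ShT

/-!
# ALT L1 pack, ShT1: factorisation of a word into T-words

Induction on `w` (or on its length).  Read the word from the left: `w0` is the longest prefix without the
letter `a`; then come alternately maximal blocks of `a` and maximal blocks of smaller letters; a block `a^i`
followed by a nonempty block of smaller letters is a T-word; a last block of letters `a` alone is `w1`.
If some block `a^i` has `i ≥ s` we are in the first case, if some block of smaller letters has length `≥ N`
in the second case (take the first `N` letters).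
For `s = 0` or `N = 0` the first or the second case is trivial.
-/

set_option autoImplicit false

namespace Pool.Agent.H6.ALT

private theorem ShT1_aux (a s N : ℕ) (w : List ℕ) (hw : ∀ x ∈ w, x ≤ a)
    (H1 : ¬ List.replicate s a <:+: w)
    (H2 : ¬ ∃ u : List ℕ, u.length = N ∧ (∀ x ∈ u, x < a) ∧ u <:+: w) :
    ∃ (w0 : List ℕ) (ts : List (List ℕ)) (j : ℕ), w = w0 ++ ts.flatten ++ List.replicate j a ∧
      w0.length < N ∧ (∀ x ∈ w0, x < a) ∧ (∀ t ∈ ts, IsT a s N t) ∧ j < s := by
  induction w with
  | nil =>
    refine ⟨[], [], 0, by simp, ?_, by simp, by simp, ?_⟩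
    · rcases Nat.eq_zero_or_pos N with h | h
      · exact absurd ⟨[], by simp [h], by simp, List.infix_rfl⟩ H2
      · simpa using h
    · rcases Nat.eq_zero_or_pos s with h | h
      · subst h
        exact absurd (by simp) H1
      · exact h
  | cons x w ih =>
    have hinf : w <:+: x :: w := (List.suffix_cons x w).isInfix
    obtain ⟨w0, ts, j, rfl, h0, h0', hts, hj⟩ := ih (fun y hy => hw y (List.mem_cons_of_mem _ hy))
      (fun h => H1 (h.trans hinf)) (fun ⟨u, hu1, hu2, hu3⟩ => H2 ⟨u, hu1, hu2, hu3.trans hinf⟩)
    have hxa : x ≤ a := hw x List.mem_cons_self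
    rcases Nat.lt_or_ge x a with hlt | hge
    · refine ⟨x :: w0, ts, j, by simp, ?_, ?_, hts, hj⟩
      · by_contra hcon
        refine H2 ⟨x :: w0, ?_, ?_, ?_⟩
        · rw [List.length_cons] at hcon ⊢
          omega
        · intro y hy
          rcases List.mem_cons.1 hy with rfl | hy
          · exact hlt
          · exact h0' y hy
        · exact ⟨[], ts.flatten ++ List.replicate j a, by simp⟩
      · intro y hy
        rcases List.mem_cons.1 hy with rfl | hy
        · exact hlt
        · exact h0' y hy
    · have hx : x = a := le_antisymm hxa hge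
      subst hx
      rcases eq_or_ne w0 [] with hw0 | hw0
      · subst hw0
        cases ts with
        | nil =>
          refine ⟨[], [], j + 1, by simp [List.replicate_succ], h0, by simp, by simp, ?_⟩
          by_contra hcon
          have hs : s = j + 1 := by omega
          exact H1 ⟨[], [], by simp [hs, List.replicate_succ]⟩
        | cons t ts =>
          obtain ⟨i, u, rfl, hi1, hi2, hu1, hu2, hu3⟩ := hts t List.mem_cons_self
          refine ⟨[], (List.replicate (i + 1) x ++ u) :: ts, j,
            by simp [List.replicate_succ], h0, by simp, ?_, hj⟩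
          intro t' ht'
          rcases List.mem_cons.1 ht' with rfl | ht'
          · refine ⟨i + 1, u, rfl, by omega, ?_, hu1, hu2, hu3⟩
            by_contra hcon
            have hs : s = i + 1 := by omega
            exact H1 ⟨[], u ++ (ts.flatten ++ List.replicate j x),
              by simp [hs, List.replicate_succ]⟩
          · exact hts t' (List.mem_cons_of_mem _ ht')
      · refine ⟨[], ([x] ++ w0) :: ts, j, by simp, ?_, by simp, ?_, hj⟩
        · rw [List.length_nil]
          omega
        · intro t' ht'
          rcases List.mem_cons.1 ht' with rfl | ht'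
          · refine ⟨1, w0, rfl, le_rfl, ?_, hw0, h0, h0'⟩
            by_contra hcon
            have hs : s = 1 := by omega
            exact H1 ⟨[], w0 ++ ts.flatten ++ List.replicate j x, by simp [hs]⟩
          · exact hts t' ht'

theorem ShT1_factor (a s N : ℕ) (w : List ℕ) (hw : ∀ x ∈ w, x ≤ a) :
    (List.replicate s a <:+: w) ∨
    (∃ u : List ℕ, u.length = N ∧ (∀ x ∈ u, x < a) ∧ u <:+: w) ∨
    (∃ (w0 : List ℕ) (ts : List (List ℕ)) (w1 : List ℕ), w = w0 ++ ts.flatten ++ w1 ∧
      w0.length < N ∧ (∀ t ∈ ts, IsT a s N t) ∧ w1.length < s) := by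
  by_cases H1 : List.replicate s a <:+: w
  · exact Or.inl H1
  by_cases H2 : ∃ u : List ℕ, u.length = N ∧ (∀ x ∈ u, x < a) ∧ u <:+: w
  · exact Or.inr (Or.inl H2)
  obtain ⟨w0, ts, j, h1, h2, -, h3, h4⟩ := ShT1_aux a s N w hw H1 H2
  exact Or.inr (Or.inr ⟨w0, ts, List.replicate j a, h1, h2, h3, by simpa using h4⟩)

end Pool.Agent.H6.ALT
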